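import Mathlib

set_option autoImplicit false

/-! # The deterministic summation over the stages -/

namespace Pool.Agent.H954.TR

open Finset

/-- The data of the deterministic argument.  `f n q` is the value of the test function at the root
of stage `n` in the slab `q`, `e n q` and `l n q` are energies, `T n` is the set of good slabs,
`s n j x` is the representative of the cell `x` of generation `j` at stage `n`. -/
structure CellData (C D : ℝ) (j0 : ℕ) (f e l : ℕ → ℕ → ℝ) (T : ℕ → Set ℕ)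
    (s : ℕ → ℕ → ℕ → ℕ) (E : ℕ → ℝ) : Prop where
  C0 : 0 ≤ C
  e0 : ∀ n y, 0 ≤ e n y
  l0 : ∀ n y, 0 ≤ l n y
  tot : ∀ n Y, ∑ y ∈ range Y, (e n y + l n y) ≤ E n
  sum : ∀ N, ∑ n ∈ range N, E n ≤ D
  F1 : ∀ j, j0 ≤ j → ∀ n, 512 ^ j ≤ n → n ≤ 512 ^ (j + 1) → ∀ β, β < 8 ^ j →
    ∀ q ∈ T n, ∀ q' ∈ T n, q ∈ Ico (β * 512 ^ j) ((β + 2) * 512 ^ j) →
      q' ∈ Ico (β * 512 ^ j) ((β + 2) * 512 ^ j) →
      (f n q - f n q') ^ 2 ≤
        C * (e n q + e n q' + (∑ y ∈ Ico (β * 512 ^ j) ((β + 2) * 512 ^ j), e n y) / 256 ^ j)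
  F2 : ∀ j, j0 ≤ j → ∀ n, 512 ^ j ≤ n → n ≤ 512 ^ (j + 1) → ∀ x, x < 2048 ^ j →
    x * 2 ^ j ≤ s n j x ∧ s n j x < (x + 1) * 2 ^ j ∧ s n j x ∈ T n ∧ s n j x ∈ T (n + 1) ∧
      (f n (s n j x) - f (n + 1) (s n j x)) ^ 2 ≤ C * l n (s n j x)

theorem sum_range_div (c k : ℕ) (hc : 0 < c) (F : ℕ → ℝ) :
    ∑ x ∈ range (k * c), F (x / c) = c * ∑ β ∈ range k, F β := by
  induction k with
  | zero => simp
  | succ k ih =>
    rw [Nat.succ_mul, Finset.sum_range_add, ih, Finset.sum_range_succ, mul_add]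
    congr 1
    rw [Finset.sum_congr rfl (g := fun _ => F k)]
    · simp
    · intro x hx
      have hx' := Finset.mem_range.1 hx
      rw [mul_comm k c, Nat.mul_add_div hc, Nat.div_eq_of_lt hx', add_zero]

theorem sum_blocks (J k : ℕ) (F : ℕ → ℝ) :
    ∑ β ∈ range k, ∑ y ∈ Ico (β * J) ((β + 1) * J), F y = ∑ y ∈ range (k * J), F y := by
  induction k with
  | zero => simp
  | succ k ih =>
    rw [Finset.sum_range_succ, ih, Finset.sum_range_add_sum_Ico _ (by gcongr; omega)]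

theorem sum_two_blocks (J k : ℕ) (F : ℕ → ℝ) (hF : ∀ y, 0 ≤ F y) :
    ∑ β ∈ range k, ∑ y ∈ Ico (β * J) ((β + 2) * J), F y ≤
      2 * ∑ y ∈ range ((k + 1) * J), F y := by
  have h1 : ∀ β, ∑ y ∈ Ico (β * J) ((β + 2) * J), F y
      = ∑ y ∈ Ico (β * J) ((β + 1) * J), F y + ∑ y ∈ Ico ((β + 1) * J) ((β + 1 + 1) * J), F y := by
    intro β
    rw [Finset.sum_Ico_consecutive _ (by gcongr; omega) (by gcongr; omega)]
  simp only [h1, Finset.sum_add_distrib]
  have h2 : ∑ β ∈ range k, ∑ y ∈ Ico (β * J) ((β + 1) * J), F y ≤ ∑ y ∈ range ((k + 1) * J), F y := by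
    rw [sum_blocks]
    refine Finset.sum_le_sum_of_subset_of_nonneg ?_ fun y _ _ => hF y
    intro y hy
    rw [Finset.mem_range] at hy ⊢
    refine hy.trans_le ?_
    gcongr
    omega
  have h3 : ∑ β ∈ range k, ∑ y ∈ Ico ((β + 1) * J) ((β + 1 + 1) * J), F y
      ≤ ∑ y ∈ range ((k + 1) * J), F y := by
    rw [← sum_blocks, Finset.sum_range_succ']
    have : 0 ≤ ∑ y ∈ Ico (0 * J) ((0 + 1) * J), F y := Finset.sum_nonneg fun y _ => hF y
    linarith
  linarith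

/-- average over an injective family -/
theorem sum_repr_le (N Y : ℕ) (g : ℕ) (t : ℕ → ℕ) (_hg : 0 < g)
    (ht : ∀ x < N, x * g ≤ t x ∧ t x < (x + 1) * g) (hY : N * g ≤ Y) (F : ℕ → ℝ)
    (hF : ∀ y, 0 ≤ F y) (A : Finset ℕ) (hA : A ⊆ range N) :
    ∑ x ∈ A, F (t x) ≤ ∑ y ∈ range Y, F y := by
  have hinj : Set.InjOn t (A : Set ℕ) := by
    intro x hx y hy hxy
    have hx' := ht x (Finset.mem_range.1 (hA hx))
    have hy' := ht y (Finset.mem_range.1 (hA hy))
    by_contra hne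
    rcases Nat.lt_or_gt_of_ne hne with h | h
    · have h1 : x + 1 ≤ y := h
      have h2 : (x + 1) * g ≤ y * g := Nat.mul_le_mul_right _ h1
      omega
    · have h1 : y + 1 ≤ x := h
      have h2 : (y + 1) * g ≤ x * g := Nat.mul_le_mul_right _ h1
      omega
  rw [← Finset.sum_image (f := F) hinj]
  refine Finset.sum_le_sum_of_subset_of_nonneg ?_ fun y _ _ => hF y
  intro y hy
  obtain ⟨x, hx, rfl⟩ := Finset.mem_image.1 hy
  have hx1 := Finset.mem_range.1 (hA hx)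
  have hx' := ht x hx1
  rw [Finset.mem_range]
  have h2 : (x + 1) * g ≤ N * g := Nat.mul_le_mul_right _ hx1
  omega

variable {C D : ℝ} {j0 : ℕ} {f e l : ℕ → ℕ → ℝ} {T : ℕ → Set ℕ} {s : ℕ → ℕ → ℕ → ℕ} {E : ℕ → ℝ}

namespace CellData

variable (h : CellData C D j0 f e l T s E)

include h

theorem E0 (n : ℕ) : 0 ≤ E n := by
  have := h.tot n 0
  simpa using this

theorem toE (n Y : ℕ) : ∑ y ∈ range Y, e n y ≤ E n :=
  le_trans (Finset.sum_le_sum fun y _ => by linarith [h.l0 n y]) (h.tot n Y)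

theorem toL (n Y : ℕ) : ∑ y ∈ range Y, l n y ≤ E n :=
  le_trans (Finset.sum_le_sum fun y _ => by linarith [h.e0 n y]) (h.tot n Y)

theorem ED (n : ℕ) : E n ≤ D := by
  have h1 := h.sum (n + 1)
  rw [Finset.sum_range_succ] at h1
  have h2 : 0 ≤ ∑ m ∈ range n, E m := Finset.sum_nonneg fun m _ => h.E0 m
  linarith

end CellData

/-- the average of the representatives -/
noncomputable def Mj (f : ℕ → ℕ → ℝ) (s : ℕ → ℕ → ℕ → ℕ) (j n : ℕ) : ℝ :=
  (∑ x ∈ range (2048 ^ j), f n (s n j x)) / 2048 ^ j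

theorem avg_sq_le (N : ℕ) (hN : 0 < N) (A : Finset ℕ) (hA : A.card = N) (a : ℕ → ℝ) (v B : ℝ)
    (hB : ∑ x ∈ A, (v - a x) ^ 2 ≤ N * B) : (v - (∑ x ∈ A, a x) / N) ^ 2 ≤ B := by
  have hN' : (0 : ℝ) < N := by exact_mod_cast hN
  have h1 : v - (∑ x ∈ A, a x) / N = (∑ x ∈ A, (v - a x)) / N := by
    rw [Finset.sum_sub_distrib, Finset.sum_const, hA, nsmul_eq_mul]
    field_simp
  rw [h1, div_pow, div_le_iff₀ (by positivity)]
  have h2 := sq_sum_le_card_mul_sum_sq (s := A) (f := fun x => v - a x)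
  rw [hA] at h2
  calc (∑ x ∈ A, (v - a x)) ^ 2 ≤ N * ∑ x ∈ A, (v - a x) ^ 2 := h2
    _ ≤ N * (N * B) := by gcongr
    _ = B * N ^ 2 := by ring

theorem avg_diff_le (N : ℕ) (hN : 0 < N) (a b : ℕ → ℝ) (B : ℝ)
    (hB : ∑ x ∈ range N, (a x - b x) ^ 2 ≤ N * B) :
    ((∑ x ∈ range N, a x) / N - (∑ x ∈ range N, b x) / N) ^ 2 ≤ B := by
  have hN' : (0 : ℝ) < N := by exact_mod_cast hN
  have h1 : (∑ x ∈ range N, a x) / N - (∑ x ∈ range N, b x) / N
      = (∑ x ∈ range N, (a x - b x)) / N := by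
    rw [Finset.sum_sub_distrib]
    ring
  rw [h1, div_pow, div_le_iff₀ (by positivity)]
  have h2 := sq_sum_le_card_mul_sum_sq (s := range N) (f := fun x => a x - b x)
  rw [Finset.card_range] at h2
  calc (∑ x ∈ range N, (a x - b x)) ^ 2 ≤ N * ∑ x ∈ range N, (a x - b x) ^ 2 := h2
    _ ≤ N * (N * B) := by gcongr
    _ = B * N ^ 2 := by ring

theorem pow_2048 (j : ℕ) : 2048 ^ j = 8 ^ j * 256 ^ j := by
  rw [← mul_pow]; norm_num

theorem pow_512 (j : ℕ) : 512 ^ j = 256 ^ j * 2 ^ j := by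
  rw [← mul_pow]; norm_num

/-- the block of a representative -/
theorem repr_block {j x t : ℕ} (hx : x * 2 ^ j ≤ t) (hx' : t < (x + 1) * 2 ^ j) :
    t ∈ Ico (x / 256 ^ j * 512 ^ j) ((x / 256 ^ j + 1) * 512 ^ j) := by
  have hc : 0 < 256 ^ j := by positivity
  have h1 : x / 256 ^ j * 256 ^ j ≤ x := Nat.div_mul_le_self _ _
  have h2 : x < (x / 256 ^ j + 1) * 256 ^ j := by
    rw [← Nat.div_lt_iff_lt_mul hc]; omega
  rw [Finset.mem_Ico, pow_512]
  constructor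
  · calc x / 256 ^ j * (256 ^ j * 2 ^ j) = (x / 256 ^ j * 256 ^ j) * 2 ^ j := by ring
      _ ≤ x * 2 ^ j := Nat.mul_le_mul_right _ h1
      _ ≤ t := hx
  · calc t < (x + 1) * 2 ^ j := hx'
      _ ≤ ((x / 256 ^ j + 1) * 256 ^ j) * 2 ^ j := Nat.mul_le_mul_right _ h2
      _ = _ := by ring

namespace CellData

variable (h : CellData C D j0 f e l T s E)

include h

/-- one vertical step -/
theorem vert (j : ℕ) (hj : j0 ≤ j) (n : ℕ) (hn : 512 ^ j ≤ n) (hn' : n < 512 ^ (j + 1)) :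
    (Mj f s j n - Mj f s j (n + 1)) ^ 2 ≤ 8 * C * (E n + E (n + 1)) / 2048 ^ j := by
  set N : ℕ := 2048 ^ j with hN
  have hN0 : 0 < N := by rw [hN]; positivity
  have hN1 : ((2048 : ℝ) ^ j) = (N : ℝ) := by rw [hN]; push_cast; rfl
  unfold Mj
  rw [hN1, ← hN]
  have hN0' : (0 : ℝ) < N := by exact_mod_cast hN0
  refine avg_diff_le N hN0 _ _ _ ?_
  have e1 : (N : ℝ) * (8 * C * (E n + E (n + 1)) / N) = 8 * C * (E n + E (n + 1)) := by
    field_simp
  rw [e1]
  have hC := h.C0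
  set Ib : ℕ → Finset ℕ := fun β => Ico (β * 512 ^ j) ((β + 2) * 512 ^ j) with hIb
  have h1 : ∀ x ∈ range N, (f n (s n j x) - f (n + 1) (s (n + 1) j x)) ^ 2 ≤
      2 * C * l n (s n j x) + 2 * C * (e (n + 1) (s n j x) + e (n + 1) (s (n + 1) j x)
        + (∑ y ∈ Ib (x / 256 ^ j), e (n + 1) y) / 256 ^ j) := by
    intro x hx
    have hx' := Finset.mem_range.1 hx
    obtain ⟨a1, a2, a3, a4, a5⟩ := h.F2 j hj n hn hn'.le x hx'
    obtain ⟨b1, b2, b3, b4, b5⟩ := h.F2 j hj (n + 1) (by omega) (by omega) x hx'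
    have hβ : x / 256 ^ j < 8 ^ j := by
      rw [Nat.div_lt_iff_lt_mul (by positivity), ← pow_2048]
      exact hx'
    have hmem : ∀ t, x * 2 ^ j ≤ t → t < (x + 1) * 2 ^ j →
        t ∈ Ico (x / 256 ^ j * 512 ^ j) ((x / 256 ^ j + 2) * 512 ^ j) := by
      intro t ht ht'
      have := repr_block ht ht'
      rw [Finset.mem_Ico] at this ⊢
      refine ⟨this.1, this.2.trans_le ?_⟩
      gcongr
      omega
    have c1 := h.F1 j hj (n + 1) (by omega) (by omega) (x / 256 ^ j) hβ _ a4 _ b3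
      (hmem _ a1 a2) (hmem _ b1 b2)
    have c2 : (f n (s n j x) - f (n + 1) (s (n + 1) j x)) ^ 2
        ≤ 2 * (f n (s n j x) - f (n + 1) (s n j x)) ^ 2
          + 2 * (f (n + 1) (s n j x) - f (n + 1) (s (n + 1) j x)) ^ 2 := by
      nlinarith [sq_nonneg ((f n (s n j x) - f (n + 1) (s n j x))
        - (f (n + 1) (s n j x) - f (n + 1) (s (n + 1) j x)))]
    refine c2.trans ?_
    have c3 : 2 * (f n (s n j x) - f (n + 1) (s n j x)) ^ 2 ≤ 2 * C * l n (s n j x) := by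
      linarith
    have c4 : 2 * (f (n + 1) (s n j x) - f (n + 1) (s (n + 1) j x)) ^ 2 ≤
        2 * C * (e (n + 1) (s n j x) + e (n + 1) (s (n + 1) j x)
        + (∑ y ∈ Ib (x / 256 ^ j), e (n + 1) y) / 256 ^ j) := by
      have := mul_le_mul_of_nonneg_left c1 (by norm_num : (0 : ℝ) ≤ 2)
      linarith
    linarith
  refine (Finset.sum_le_sum h1).trans ?_
  rw [Finset.sum_add_distrib, ← Finset.mul_sum, ← Finset.mul_sum, Finset.sum_add_distrib,
    Finset.sum_add_distrib]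
  have hg : 0 < 2 ^ j := by positivity
  have h2 : ∑ x ∈ range N, l n (s n j x) ≤ E n :=
    (sum_repr_le N (N * 2 ^ j) (2 ^ j) (fun x => s n j x) hg
      (fun x hx => ⟨(h.F2 j hj n hn hn'.le x hx).1, (h.F2 j hj n hn hn'.le x hx).2.1⟩) le_rfl
      (l n) (h.l0 n) (range N) subset_rfl).trans (h.toL n _)
  have h3 : ∑ x ∈ range N, e (n + 1) (s n j x) ≤ E (n + 1) :=
    (sum_repr_le N (N * 2 ^ j) (2 ^ j) (fun x => s n j x) hg
      (fun x hx => ⟨(h.F2 j hj n hn hn'.le x hx).1, (h.F2 j hj n hn hn'.le x hx).2.1⟩) le_rfl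
      (e (n + 1)) (h.e0 (n + 1)) (range N) subset_rfl).trans (h.toE _ _)
  have h4 : ∑ x ∈ range N, e (n + 1) (s (n + 1) j x) ≤ E (n + 1) :=
    (sum_repr_le N (N * 2 ^ j) (2 ^ j) (fun x => s (n + 1) j x) hg
      (fun x hx => ⟨(h.F2 j hj (n + 1) (by omega) (by omega) x hx).1,
        (h.F2 j hj (n + 1) (by omega) (by omega) x hx).2.1⟩) le_rfl
      (e (n + 1)) (h.e0 (n + 1)) (range N) subset_rfl).trans (h.toE _ _)
  have h5 : ∑ x ∈ range N, (∑ y ∈ Ib (x / 256 ^ j), e (n + 1) y) / 256 ^ j ≤ 2 * E (n + 1) := by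
    rw [hN, pow_2048, sum_range_div (256 ^ j) (8 ^ j) (by positivity)
      (fun β => (∑ y ∈ Ib β, e (n + 1) y) / 256 ^ j)]
    rw [← Finset.sum_div]
    push_cast
    rw [mul_div_cancel₀ _ (by positivity)]
    exact (sum_two_blocks (512 ^ j) (8 ^ j) (e (n + 1)) (h.e0 (n + 1))).trans
      (mul_le_mul_of_nonneg_left (h.toE _ _) (by norm_num))
  have h6 := h.E0 n
  have h7 := h.E0 (n + 1)
  have h8 : 2 * C * ∑ x ∈ range N, l n (s n j x) ≤ 2 * C * E n := by gcongr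
  have h9 : 2 * C * (∑ x ∈ range N, e (n + 1) (s n j x) + ∑ x ∈ range N, e (n + 1) (s (n + 1) j x)
      + ∑ x ∈ range N, (∑ y ∈ Ib (x / 256 ^ j), e (n + 1) y) / 256 ^ j)
      ≤ 2 * C * (E (n + 1) + E (n + 1) + 2 * E (n + 1)) := by gcongr
  nlinarith [mul_nonneg hC h6, mul_nonneg hC h7]

/-- the generation `j` average -/
theorem vert_gen (j : ℕ) (hj : j0 ≤ j) :
    (Mj f s j (512 ^ j) - Mj f s j (512 ^ (j + 1))) ^ 2 ≤ 8192 * (C * D) / 4 ^ j := by
  have hle : 512 ^ j ≤ 512 ^ (j + 1) := Nat.pow_le_pow_right (by norm_num) (by omega)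
  have h1 : Mj f s j (512 ^ j) - Mj f s j (512 ^ (j + 1))
      = ∑ n ∈ Ico (512 ^ j) (512 ^ (j + 1)), (Mj f s j n - Mj f s j (n + 1)) := by
    have := Finset.sum_Ico_sub (fun n => - Mj f s j n) hle
    rw [Finset.sum_congr rfl (g := fun n => -Mj f s j (n + 1) - -Mj f s j n)
      (fun n _ => by ring), this]
    ring
  rw [h1]
  refine (sq_sum_le_card_mul_sum_sq).trans ?_
  have hC := h.C0
  have hD : 0 ≤ D := (h.E0 0).trans (h.ED 0)
  have h2 : ∑ n ∈ Ico (512 ^ j) (512 ^ (j + 1)), (Mj f s j n - Mj f s j (n + 1)) ^ 2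
      ≤ 16 * C * D / 2048 ^ j := by
    have h3 : ∑ n ∈ Ico (512 ^ j) (512 ^ (j + 1)), (Mj f s j n - Mj f s j (n + 1)) ^ 2
        ≤ ∑ n ∈ Ico (512 ^ j) (512 ^ (j + 1)), 8 * C * (E n + E (n + 1)) / 2048 ^ j := by
      refine Finset.sum_le_sum fun n hn => ?_
      rw [Finset.mem_Ico] at hn
      exact h.vert j hj n hn.1 hn.2
    refine h3.trans ?_
    rw [← Finset.sum_div, ← Finset.mul_sum, Finset.sum_add_distrib]
    have h4 : ∑ n ∈ Ico (512 ^ j) (512 ^ (j + 1)), E n ≤ D := by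
      refine le_trans ?_ (h.sum (512 ^ (j + 1)))
      refine Finset.sum_le_sum_of_subset_of_nonneg ?_ fun n _ _ => h.E0 n
      intro n hn
      rw [Finset.mem_Ico] at hn
      exact Finset.mem_range.2 hn.2
    have h5 : ∑ n ∈ Ico (512 ^ j) (512 ^ (j + 1)), E (n + 1) ≤ D := by
      refine le_trans ?_ (h.sum (512 ^ (j + 1) + 1))
      rw [Finset.sum_range_succ']
      have : ∑ n ∈ Ico (512 ^ j) (512 ^ (j + 1)), E (n + 1)
          ≤ ∑ n ∈ range (512 ^ (j + 1)), E (n + 1) := by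
        refine Finset.sum_le_sum_of_subset_of_nonneg ?_ fun n _ _ => h.E0 (n + 1)
        intro n hn
        rw [Finset.mem_Ico] at hn
        exact Finset.mem_range.2 hn.2
      linarith [h.E0 0]
    refine div_le_div_of_nonneg_right ?_ (by positivity)
    nlinarith
  have h3 : ((Ico (512 ^ j) (512 ^ (j + 1))).card : ℝ) ≤ 512 * 512 ^ j := by
    rw [Nat.card_Ico]
    have : 512 ^ (j + 1) - 512 ^ j ≤ 512 * 512 ^ j := by
      rw [pow_succ]; omega
    exact_mod_cast this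
  calc ((Ico (512 ^ j) (512 ^ (j + 1))).card : ℝ)
        * ∑ n ∈ Ico (512 ^ j) (512 ^ (j + 1)), (Mj f s j n - Mj f s j (n + 1)) ^ 2
      ≤ (512 * 512 ^ j) * (16 * C * D / 2048 ^ j) := by
        refine mul_le_mul h3 h2 (Finset.sum_nonneg fun _ _ => sq_nonneg _) (by positivity)
    _ = 8192 * (C * D) / 4 ^ j := by
        have : (2048 : ℝ) ^ j = 512 ^ j * 4 ^ j := by rw [← mul_pow]; norm_num
        rw [this]
        field_simp
        ring

/-- block averages of the representatives of generation `j` at stage `n` -/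
theorem point_block (j : ℕ) (hj : j0 ≤ j) (n : ℕ) (hn : 512 ^ j ≤ n) (hn' : n ≤ 512 ^ (j + 1))
    (β γ : ℕ) (hβ : β < 8 ^ j) (hγ : γ < 8 ^ j) (hβγ : β ≤ γ) (hγβ : γ ≤ β + 1) (q : ℕ)
    (hq : q ∈ T n) (hqI : q ∈ Ico (β * 512 ^ j) ((β + 2) * 512 ^ j)) :
    (f n q - (∑ x ∈ Ico (γ * 256 ^ j) ((γ + 1) * 256 ^ j), f n (s n j x)) / (256 ^ j : ℕ)) ^ 2
      ≤ C * (e n q + 2 * E n / 256 ^ j) := by
  have hC := h.C0
  have hc0 : 0 < 256 ^ j := by positivity
  have hcard : (Ico (γ * 256 ^ j) ((γ + 1) * 256 ^ j)).card = 256 ^ j := by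
    rw [Nat.card_Ico, Nat.succ_mul]; omega
  refine avg_sq_le (256 ^ j) hc0 _ hcard _ _ _ ?_
  have hsub : Ico (γ * 256 ^ j) ((γ + 1) * 256 ^ j) ⊆ range (2048 ^ j) := by
    intro x hx
    rw [Finset.mem_Ico] at hx
    rw [Finset.mem_range, pow_2048]
    refine hx.2.trans_le ?_
    exact Nat.mul_le_mul_right _ hγ
  have h1 : ∀ x ∈ Ico (γ * 256 ^ j) ((γ + 1) * 256 ^ j), (f n q - f n (s n j x)) ^ 2 ≤
      C * (e n q + e n (s n j x) + E n / 256 ^ j) := by
    intro x hx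
    have hx2 := Finset.mem_range.1 (hsub hx)
    obtain ⟨a1, a2, a3, a4, a5⟩ := h.F2 j hj n hn hn' x hx2
    have hm := repr_block a1 a2
    have hd : x / 256 ^ j = γ := by
      rw [Finset.mem_Ico] at hx
      rw [Nat.div_eq_iff hc0]
      rw [Nat.succ_mul] at hx
      omega
    rw [hd, Finset.mem_Ico] at hm
    have hm2 : s n j x ∈ Ico (β * 512 ^ j) ((β + 2) * 512 ^ j) := by
      rw [Finset.mem_Ico]
      constructor
      · exact (Nat.mul_le_mul_right _ hβγ).trans hm.1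
      · exact hm.2.trans_le (Nat.mul_le_mul_right _ (by omega))
    refine (h.F1 j hj n hn hn' β hβ q hq _ a3 hqI hm2).trans ?_
    refine mul_le_mul_of_nonneg_left ?_ hC
    refine add_le_add le_rfl (div_le_div_of_nonneg_right ?_ (by positivity))
    refine le_trans ?_ (h.toE n ((β + 2) * 512 ^ j))
    refine Finset.sum_le_sum_of_subset_of_nonneg ?_ fun y _ _ => h.e0 n y
    intro y hy
    rw [Finset.mem_Ico] at hy
    exact Finset.mem_range.2 hy.2
  refine (Finset.sum_le_sum h1).trans ?_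
  rw [← Finset.mul_sum, Finset.sum_add_distrib, Finset.sum_add_distrib, Finset.sum_const,
    Finset.sum_const, hcard, nsmul_eq_mul, nsmul_eq_mul]
  have h2 : ∑ x ∈ Ico (γ * 256 ^ j) ((γ + 1) * 256 ^ j), e n (s n j x) ≤ E n :=
    (sum_repr_le (2048 ^ j) (2048 ^ j * 2 ^ j) (2 ^ j) (fun x => s n j x) (by positivity)
      (fun x hx => ⟨(h.F2 j hj n hn hn' x hx).1, (h.F2 j hj n hn hn' x hx).2.1⟩) le_rfl
      (e n) (h.e0 n) _ hsub).trans (h.toE n _)
  have hc1 : (((256 ^ j : ℕ) : ℝ)) = 256 ^ j := by push_cast; rfl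
  rw [hc1]
  have hcp : (0 : ℝ) < 256 ^ j := by positivity
  have e1 : (256 : ℝ) ^ j * (C * (e n q + 2 * E n / 256 ^ j))
      = C * (256 ^ j * e n q + 2 * E n) := by
    field_simp
  rw [e1]
  have e2 : (256 : ℝ) ^ j * (E n / 256 ^ j) = E n := by field_simp
  rw [e2]
  refine mul_le_mul_of_nonneg_left ?_ hC
  linarith

/-- all representatives and good slabs of the window are close to the first block average -/
theorem to_first (j : ℕ) (hj : j0 ≤ j) (n : ℕ) (hn : 512 ^ j ≤ n) (hn' : n ≤ 512 ^ (j + 1)) :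
    ∃ a : ℝ, ∀ q ∈ T n, q < 8 ^ j * 512 ^ j →
      (f n q - a) ^ 2 ≤ C * (2 * e n q + 10 * E n / 4 ^ j) := by
  have hC := h.C0
  have hE := h.E0 n
  set c : ℝ := 256 ^ j with hc
  have hc0 : 0 < c := by rw [hc]; positivity
  set a : ℕ → ℝ := fun γ => (∑ x ∈ Ico (γ * 256 ^ j) ((γ + 1) * 256 ^ j), f n (s n j x))
    / (256 ^ j : ℕ) with ha
  have hcn : 0 < 256 ^ j := by positivity
  -- adjacent blocks
  have hadj : ∀ β, β + 1 < 8 ^ j → (a β - a (β + 1)) ^ 2 ≤ 3 * C * E n / c := by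
    intro β hβ
    have hcard : (Ico ((β + 1) * 256 ^ j) ((β + 1 + 1) * 256 ^ j)).card = 256 ^ j := by
      rw [Nat.card_Ico, Nat.succ_mul (β + 1)]; omega
    refine avg_sq_le (256 ^ j) hcn _ hcard _ _ _ ?_
    have hsub : Ico ((β + 1) * 256 ^ j) ((β + 1 + 1) * 256 ^ j) ⊆ range (2048 ^ j) := by
      intro x hx
      rw [Finset.mem_Ico] at hx
      rw [Finset.mem_range, pow_2048]
      refine hx.2.trans_le ?_
      exact Nat.mul_le_mul_right _ hβ
    have h1 : ∀ x ∈ Ico ((β + 1) * 256 ^ j) ((β + 1 + 1) * 256 ^ j),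
        (a β - f n (s n j x)) ^ 2 ≤ C * (e n (s n j x) + 2 * E n / 256 ^ j) := by
      intro x hx
      have hx2 := Finset.mem_range.1 (hsub hx)
      obtain ⟨a1, a2, a3, a4, a5⟩ := h.F2 j hj n hn hn' x hx2
      have hm := repr_block a1 a2
      have hd : x / 256 ^ j = β + 1 := by
        rw [Finset.mem_Ico] at hx
        rw [Nat.div_eq_iff hcn]
        rw [Nat.succ_mul (β + 1)] at hx
        omega
      rw [hd, Finset.mem_Ico] at hm
      have hm2 : s n j x ∈ Ico (β * 512 ^ j) ((β + 2) * 512 ^ j) := by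
        rw [Finset.mem_Ico]
        constructor
        · exact (Nat.mul_le_mul_right _ (by omega)).trans hm.1
        · exact hm.2.trans_le (Nat.mul_le_mul_right _ (by omega))
      have := h.point_block j hj n hn hn' β β (by omega) (by omega) le_rfl (by omega) _ a3 hm2
      calc (a β - f n (s n j x)) ^ 2 = (f n (s n j x) - a β) ^ 2 := by ring
        _ ≤ _ := this
    refine (Finset.sum_le_sum h1).trans ?_
    rw [← Finset.mul_sum, Finset.sum_add_distrib, Finset.sum_const, hcard, nsmul_eq_mul]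
    have h2 : ∑ x ∈ Ico ((β + 1) * 256 ^ j) ((β + 1 + 1) * 256 ^ j), e n (s n j x) ≤ E n :=
      (sum_repr_le (2048 ^ j) (2048 ^ j * 2 ^ j) (2 ^ j) (fun x => s n j x) (by positivity)
        (fun x hx => ⟨(h.F2 j hj n hn hn' x hx).1, (h.F2 j hj n hn hn' x hx).2.1⟩) le_rfl
        (e n) (h.e0 n) _ hsub).trans (h.toE n _)
    have hc1 : (((256 ^ j : ℕ) : ℝ)) = c := by rw [hc]; push_cast; rfl
    rw [hc1]
    have e2 : c * (2 * E n / 256 ^ j) = 2 * E n := by rw [← hc]; field_simp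
    rw [e2]
    have e3 : c * (3 * C * E n / c) = C * (3 * E n) := by field_simp
    rw [e3]
    refine mul_le_mul_of_nonneg_left ?_ hC
    linarith
  set δ : ℝ := Real.sqrt (3 * C * E n / c) with hδ
  have hδ0 : 0 ≤ δ := Real.sqrt_nonneg _
  have hδ2 : δ ^ 2 = 3 * C * E n / c := Real.sq_sqrt (by positivity)
  have hchain : ∀ β, β < 8 ^ j → |a β - a 0| ≤ β * δ := by
    intro β
    induction β with
    | zero => intro _; simp
    | succ β ih =>
      intro hβ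
      have h1 := ih (by omega)
      have h2 : |a β - a (β + 1)| ≤ δ := Real.abs_le_sqrt (hadj β hβ)
      have h3 : |a (β + 1) - a 0| ≤ |a β - a (β + 1)| + |a β - a 0| := by
        have : a (β + 1) - a 0 = -(a β - a (β + 1)) + (a β - a 0) := by ring
        rw [this]
        refine (abs_add_le _ _).trans ?_
        rw [abs_neg]
      push_cast
      linarith
  refine ⟨a 0, fun q hq hq2 => ?_⟩
  set β := q / 512 ^ j with hβdef
  have hJ : 0 < 512 ^ j := by positivity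
  have hβ : β < 8 ^ j := by
    rw [hβdef, Nat.div_lt_iff_lt_mul hJ]; exact hq2
  have hqI : q ∈ Ico (β * 512 ^ j) ((β + 2) * 512 ^ j) := by
    rw [Finset.mem_Ico]
    constructor
    · exact Nat.div_mul_le_self _ _
    · have : q < (β + 1) * 512 ^ j := by
        rw [← Nat.div_lt_iff_lt_mul hJ]; omega
      exact this.trans_le (Nat.mul_le_mul_right _ (by omega))
  have h1 := h.point_block j hj n hn hn' β β hβ hβ le_rfl (by omega) q hq hqI
  have h2 := hchain β hβ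
  have h3 : (a β - a 0) ^ 2 ≤ 3 * C * E n / 4 ^ j := by
    have h4 : (a β - a 0) ^ 2 ≤ (β * δ) ^ 2 := by
      rw [← sq_abs]
      exact pow_le_pow_left₀ (abs_nonneg _) h2 2
    have h5 : (β : ℝ) ≤ 8 ^ j := by exact_mod_cast hβ.le
    calc (a β - a 0) ^ 2 ≤ (β * δ) ^ 2 := h4
      _ ≤ (8 ^ j * δ) ^ 2 := by gcongr
      _ = (8 ^ j) ^ 2 * (3 * C * E n / c) := by rw [mul_pow, hδ2]
      _ = 3 * C * E n / 4 ^ j := by
        have e1 : c = ((8 : ℝ) ^ j) ^ 2 * 4 ^ j := by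
          rw [hc, ← pow_mul, mul_comm j 2, pow_mul, ← mul_pow]; norm_num
        rw [e1]
        field_simp
  have h5 : (f n q - a 0) ^ 2 ≤ 2 * (f n q - a β) ^ 2 + 2 * (a β - a 0) ^ 2 := by
    nlinarith [sq_nonneg ((f n q - a β) - (a β - a 0))]
  have h6 : 2 * E n / c ≤ 2 * E n / 4 ^ j := by
    refine div_le_div_of_nonneg_left (by positivity) (by positivity) ?_
    rw [hc]
    gcongr
    norm_num
  have h7 : (f n q - a β) ^ 2 ≤ C * (e n q + 2 * E n / c) := h1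
  have h8 : C * (e n q + 2 * E n / c) ≤ C * (e n q + 2 * E n / 4 ^ j) := by gcongr
  have h9 : C * (2 * e n q + 10 * E n / 4 ^ j) = 2 * (C * (e n q + 2 * E n / 4 ^ j))
      + 2 * (3 * C * E n / 4 ^ j) := by ring
  rw [h9]
  linarith

/-- comparison of the average with the value `a` -/
theorem avg_first (i : ℕ) (hi : j0 ≤ i) (n : ℕ) (hn : 512 ^ i ≤ n) (hn' : n ≤ 512 ^ (i + 1))
    (Y : ℕ) (hY : 2048 ^ i * 2 ^ i ≤ Y) (a B : ℝ)
    (ha : ∀ q ∈ T n, q < Y → (f n q - a) ^ 2 ≤ C * (2 * e n q + B)) :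
    (a - Mj f s i n) ^ 2 ≤ C * (2 * E n / 4 ^ i + B) := by
  have hC := h.C0
  have hE := h.E0 n
  unfold Mj
  have hN0 : 0 < 2048 ^ i := by positivity
  have hcast : ((2048 : ℝ) ^ i) = ((2048 ^ i : ℕ) : ℝ) := by push_cast; rfl
  rw [hcast]
  refine avg_sq_le (2048 ^ i) hN0 _ (Finset.card_range _) _ _ _ ?_
  have h1 : ∀ x ∈ range (2048 ^ i), (a - f n (s n i x)) ^ 2 ≤ C * (2 * e n (s n i x) + B) := by
    intro x hx
    have hx' := Finset.mem_range.1 hx
    obtain ⟨a1, a2, a3, a4, a5⟩ := h.F2 i hi n hn hn' x hx'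
    have := ha _ a3 (by
      refine a2.trans_le (le_trans ?_ hY)
      exact Nat.mul_le_mul_right _ hx')
    calc (a - f n (s n i x)) ^ 2 = (f n (s n i x) - a) ^ 2 := by ring
      _ ≤ _ := this
  refine (Finset.sum_le_sum h1).trans ?_
  rw [← Finset.mul_sum, Finset.sum_add_distrib, ← Finset.mul_sum, Finset.sum_const,
    Finset.card_range, nsmul_eq_mul]
  have h2 : ∑ x ∈ range (2048 ^ i), e n (s n i x) ≤ E n :=
    (sum_repr_le (2048 ^ i) (2048 ^ i * 2 ^ i) (2 ^ i) (fun x => s n i x) (by positivity)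
      (fun x hx => ⟨(h.F2 i hi n hn hn' x hx).1, (h.F2 i hi n hn hn' x hx).2.1⟩) le_rfl
      (e n) (h.e0 n) _ subset_rfl).trans (h.toE n _)
  rw [← hcast]
  have e1 : (2048 : ℝ) ^ i * (C * (2 * E n / 4 ^ i + B))
      = C * (2 * E n * 512 ^ i + 2048 ^ i * B) := by
    have : (2048 : ℝ) ^ i = 512 ^ i * 4 ^ i := by rw [← mul_pow]; norm_num
    rw [this]
    field_simp
  rw [e1]
  refine mul_le_mul_of_nonneg_left ?_ hC
  have h3 : (1 : ℝ) ≤ 512 ^ i := one_le_pow₀ (by norm_num)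
  nlinarith

/-- the change of generation -/
theorem horiz (j : ℕ) (hj : j0 ≤ j) :
    (Mj f s j (512 ^ (j + 1)) - Mj f s (j + 1) (512 ^ (j + 1))) ^ 2 ≤ 48 * (C * D) / 4 ^ j := by
  have hC := h.C0
  set n := 512 ^ (j + 1) with hn
  have hE := h.E0 n
  have hED := h.ED n
  obtain ⟨a, ha⟩ := h.to_first (j + 1) (by omega) n le_rfl
    (by rw [hn]; exact Nat.pow_le_pow_right (by norm_num) (by omega))
  have h1 := h.avg_first (j + 1) (by omega) n le_rfl
    (by rw [hn]; exact Nat.pow_le_pow_right (by norm_num) (by omega)) (8 ^ (j + 1) * 512 ^ (j + 1))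
    (by rw [← mul_pow, ← mul_pow]; norm_num) a _ ha
  have h2 := h.avg_first j hj n (by rw [hn]; exact Nat.pow_le_pow_right (by norm_num) (by omega))
    le_rfl (8 ^ (j + 1) * 512 ^ (j + 1))
    (by
      rw [← mul_pow, ← mul_pow]
      exact Nat.pow_le_pow_right (by norm_num) (by omega)) a _ ha
  have h3 : (Mj f s j n - Mj f s (j + 1) n) ^ 2
      ≤ 2 * (a - Mj f s j n) ^ 2 + 2 * (a - Mj f s (j + 1) n) ^ 2 := by
    nlinarith [sq_nonneg ((a - Mj f s j n) + (a - Mj f s (j + 1) n))]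
  refine h3.trans ?_
  have h4 : (4 : ℝ) ^ (j + 1) = 4 * 4 ^ j := by rw [pow_succ]; ring
  rw [h4] at h1 h2
  have h5 : 2 * (C * (2 * E n / 4 ^ j + 10 * E n / (4 * 4 ^ j)))
      + 2 * (C * (2 * E n / (4 * 4 ^ j) + 10 * E n / (4 * 4 ^ j))) ≤ 48 * (C * D) / 4 ^ j := by
    have e1 : 2 * (C * (2 * E n / 4 ^ j + 10 * E n / (4 * 4 ^ j)))
      + 2 * (C * (2 * E n / (4 * 4 ^ j) + 10 * E n / (4 * 4 ^ j)))
      = 15 * (C * E n) / 4 ^ j := by
      field_simp
      ring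
    rw [e1]
    refine div_le_div_of_nonneg_right ?_ (by positivity)
    nlinarith [mul_le_mul_of_nonneg_left hED hC, mul_nonneg hC hE]
  linarith

theorem start (q0 : ℕ) (hq0 : q0 ∈ T (512 ^ j0)) (hq : q0 < 512 ^ j0) :
    (f (512 ^ j0) q0 - Mj f s j0 (512 ^ j0)) ^ 2 ≤ 48 * (C * D) := by
  have hC := h.C0
  set n := 512 ^ j0 with hn
  have hE := h.E0 n
  have hED := h.ED n
  have hle : n ≤ 512 ^ (j0 + 1) := by
    rw [hn]; exact Nat.pow_le_pow_right (by norm_num) (by omega)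
  obtain ⟨a, ha⟩ := h.to_first j0 le_rfl n le_rfl hle
  have h1 := h.avg_first j0 le_rfl n le_rfl hle (8 ^ j0 * 512 ^ j0)
    (by rw [← mul_pow, ← mul_pow]; norm_num) a _ ha
  have h8 : 1 ≤ 8 ^ j0 := Nat.one_le_pow _ _ (by norm_num)
  have h2 := ha q0 hq0 (by rw [← hn]; nlinarith)
  have he : e n q0 ≤ E n := by
    have := h.toE n (q0 + 1)
    rw [Finset.sum_range_succ] at this
    have h3 : 0 ≤ ∑ y ∈ range q0, e n y := Finset.sum_nonneg fun y _ => h.e0 n y
    linarith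
  have h3 : (f n q0 - Mj f s j0 n) ^ 2
      ≤ 2 * (f n q0 - a) ^ 2 + 2 * (a - Mj f s j0 n) ^ 2 := by
    nlinarith [sq_nonneg ((f n q0 - a) - (a - Mj f s j0 n))]
  have h4 : E n / 4 ^ j0 ≤ E n := div_le_self hE (one_le_pow₀ (by norm_num))
  have h5 : C * (2 * e n q0 + 10 * E n / 4 ^ j0) ≤ C * (12 * E n) := by
    refine mul_le_mul_of_nonneg_left ?_ hC
    have : 10 * E n / 4 ^ j0 = 10 * (E n / 4 ^ j0) := by ring
    rw [this]; linarith
  have h6 : C * (2 * E n / 4 ^ j0 + 10 * E n / 4 ^ j0) ≤ C * (12 * E n) := by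
    refine mul_le_mul_of_nonneg_left ?_ hC
    have : 2 * E n / 4 ^ j0 + 10 * E n / 4 ^ j0 = 12 * (E n / 4 ^ j0) := by ring
    rw [this]; linarith
  nlinarith [mul_le_mul_of_nonneg_left hED hC]

/-- **The deterministic conclusion** -/
theorem final (hz : ∃ N, ∀ n, N ≤ n → ∀ q, f n q = 0) (q0 : ℕ) (hq0 : q0 ∈ T (512 ^ j0))
    (hq : q0 < 512 ^ j0) : f (512 ^ j0) q0 ^ 2 ≤ 100000 * (C * D) := by
  have hC := h.C0
  have hD : 0 ≤ D := (h.E0 0).trans (h.ED 0)
  set B : ℝ := Real.sqrt (C * D) with hB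
  have hB0 : 0 ≤ B := Real.sqrt_nonneg _
  have hB2 : B ^ 2 = C * D := Real.sq_sqrt (by positivity)
  have hs : |f (512 ^ j0) q0 - Mj f s j0 (512 ^ j0)| ≤ 7 * B := by
    refine abs_le_of_sq_le_sq ?_ (by positivity)
    have := h.start q0 hq0 hq
    rw [mul_pow, hB2]
    nlinarith [mul_nonneg hC hD]
  have hv : ∀ j, j0 ≤ j → |Mj f s j (512 ^ j) - Mj f s j (512 ^ (j + 1))| ≤ 92 * B / 2 ^ j := by
    intro j hj
    refine abs_le_of_sq_le_sq ?_ (by positivity)
    refine (h.vert_gen j hj).trans ?_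
    rw [div_pow, mul_pow, hB2, ← pow_mul, mul_comm j 2, pow_mul]
    norm_num
    refine div_le_div_of_nonneg_right ?_ (by positivity)
    nlinarith [mul_nonneg hC hD]
  have hh : ∀ j, j0 ≤ j → |Mj f s j (512 ^ (j + 1)) - Mj f s (j + 1) (512 ^ (j + 1))|
      ≤ 8 * B / 2 ^ j := by
    intro j hj
    refine abs_le_of_sq_le_sq ?_ (by positivity)
    refine (h.horiz j hj).trans ?_
    rw [div_pow, mul_pow, hB2, ← pow_mul, mul_comm j 2, pow_mul]
    norm_num
    refine div_le_div_of_nonneg_right ?_ (by positivity)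
    nlinarith [mul_nonneg hC hD]
  have key : ∀ i, |f (512 ^ j0) q0 - Mj f s (j0 + i) (512 ^ (j0 + i))|
      ≤ 7 * B + 200 * B * (1 - 1 / 2 ^ (j0 + i)) := by
    intro i
    induction i with
    | zero =>
      have h1 : (1 : ℝ) / 2 ^ j0 ≤ 1 := by
        rw [div_le_one (by positivity)]
        exact one_le_pow₀ (by norm_num)
      have : 0 ≤ 200 * B * (1 - 1 / 2 ^ j0) := by
        have : 0 ≤ 1 - (1 : ℝ) / 2 ^ j0 := by linarith
        positivity
      simp only [add_zero]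
      linarith
    | succ i ih =>
      have h1 := hv (j0 + i) (by omega)
      have h2 := hh (j0 + i) (by omega)
      have e1 : j0 + (i + 1) = j0 + i + 1 := by ring
      rw [e1]
      set j := j0 + i with hj
      have e2 : f (512 ^ j0) q0 - Mj f s (j + 1) (512 ^ (j + 1))
          = (f (512 ^ j0) q0 - Mj f s j (512 ^ j))
            + ((Mj f s j (512 ^ j) - Mj f s j (512 ^ (j + 1)))
              + (Mj f s j (512 ^ (j + 1)) - Mj f s (j + 1) (512 ^ (j + 1)))) := by ring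
      rw [e2]
      refine (abs_add_le _ _).trans ?_
      have h3 := abs_add_le (Mj f s j (512 ^ j) - Mj f s j (512 ^ (j + 1)))
        (Mj f s j (512 ^ (j + 1)) - Mj f s (j + 1) (512 ^ (j + 1)))
      have h4 : (7 * B + 200 * B * (1 - 1 / 2 ^ j)) + (92 * B / 2 ^ j + 8 * B / 2 ^ j)
          = 7 * B + 200 * B * (1 - 1 / 2 ^ (j + 1)) := by
        rw [pow_succ]
        field_simp
        ring
      linarith
  obtain ⟨N, hN⟩ := hz
  have hlarge : N ≤ 512 ^ (j0 + N) := by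
    have h1 : N < 2 ^ N := Nat.lt_two_pow_self
    calc N ≤ 2 ^ N := h1.le
      _ ≤ 512 ^ N := Nat.pow_le_pow_left (by norm_num) N
      _ ≤ 512 ^ (j0 + N) := Nat.pow_le_pow_right (by norm_num) (by omega)
  have hM : Mj f s (j0 + N) (512 ^ (j0 + N)) = 0 := by
    unfold Mj
    rw [Finset.sum_eq_zero]
    · simp
    · intro x _
      exact hN _ hlarge _
  have hk := key N
  rw [hM, sub_zero] at hk
  have h1 : 200 * B * (1 - 1 / 2 ^ (j0 + N)) ≤ 200 * B := by
    have : (0 : ℝ) ≤ 1 / 2 ^ (j0 + N) := by positivity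
    nlinarith
  have h2 : |f (512 ^ j0) q0| ≤ 207 * B := by linarith
  have h3 : f (512 ^ j0) q0 ^ 2 ≤ (207 * B) ^ 2 := by
    rw [← sq_abs]
    exact pow_le_pow_left₀ (abs_nonneg _) h2 2
  refine h3.trans ?_
  rw [mul_pow, hB2]
  nlinarith [mul_nonneg hC hD]

end CellData

end Pool.Agent.H954.TR
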