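import Pool.Agent.H954.TR.RelU

set_option autoImplicit false

/-! # Thinning by the open columns -/

namespace Pool.Agent.H954.TR

open MeasureTheory ProbabilityTheory Finset
open scoped ENNReal NNReal
open Pool.Agent.Helper98K9.CP Pool.Agent.Helper98K9.CP.GwL Pool.Agent.Helper98K9.CP.TreeL
open Pool.Agent.Helper56K9.CP (ColE P_col meas_col NV Rs_congr_iff sh_congr meas_sh meas_Rs
  desc_finite)

/-- the quadratic form of the pairs with a common ancestor -/
noncomputable def Qf (b K : ℕ) (S : Finset Vt) (t : ℕ) (x : Vt → ℝ) : ℝ := by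
  classical
  exact ∑ w ∈ S, ∑ w' ∈ S,
    if (par b)^[(K + 1) * t] w = (par b)^[(K + 1) * t] w' then x w * x w' else 0

theorem Qf_def (b K : ℕ) (S : Finset Vt) (t : ℕ) (x : Vt → ℝ) [DecidableEq Vt] :
    Qf b K S t x = ∑ w ∈ S, ∑ w' ∈ S,
      if (par b)^[(K + 1) * t] w = (par b)^[(K + 1) * t] w' then x w * x w' else 0 := by
  unfold Qf
  refine Finset.sum_congr rfl fun w _ => Finset.sum_congr rfl fun w' _ => ?_
  by_cases h : (par b)^[(K + 1) * t] w = (par b)^[(K + 1) * t] w'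
  · simp [h]
  · simp [h]

theorem Qf_sq (b K : ℕ) (S : Finset Vt) (t : ℕ) (x : Vt → ℝ) [DecidableEq Vt] :
    Qf b K S t x = ∑ u ∈ S.image ((par b)^[(K + 1) * t]),
      (∑ w ∈ S with (par b)^[(K + 1) * t] w = u, x w) ^ 2 := by
  rw [Qf_def]
  have h0 : ∀ w ∈ S, (par b)^[(K + 1) * t] w ∈ S.image ((par b)^[(K + 1) * t]) :=
    fun w hw => Finset.mem_image_of_mem _ hw
  rw [← Finset.sum_fiberwise_of_maps_to h0]
  refine Finset.sum_congr rfl fun u _ => ?_
  rw [sq, Finset.sum_mul_sum]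
  refine Finset.sum_congr rfl fun w hw => ?_
  rw [← Finset.sum_filter]
  refine Finset.sum_congr ?_ fun _ _ => rfl
  refine Finset.filter_congr fun w' _ => ?_
  rw [(Finset.mem_filter.1 hw).2]
  exact eq_comm

theorem Qf_nonneg (b K : ℕ) (S : Finset Vt) (t : ℕ) (x : Vt → ℝ) : 0 ≤ Qf b K S t x := by
  classical
  rw [Qf_sq]
  exact Finset.sum_nonneg fun _ _ => sq_nonneg _

theorem Qf_par (b K : ℕ) (S : Finset Vt) (t : ℕ) (x y : Vt → ℝ) :
    Qf b K S t (fun w => x w + y w) ≤ 2 * Qf b K S t x + 2 * Qf b K S t y := by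
  classical
  have h1 : Qf b K S t (fun w => x w + y w) + Qf b K S t (fun w => x w - y w)
      = 2 * Qf b K S t x + 2 * Qf b K S t y := by
    rw [Qf_def, Qf_def, Qf_def, Qf_def, Finset.mul_sum, Finset.mul_sum, ← Finset.sum_add_distrib,
      ← Finset.sum_add_distrib]
    refine Finset.sum_congr rfl fun w _ => ?_
    rw [Finset.mul_sum, Finset.mul_sum, ← Finset.sum_add_distrib, ← Finset.sum_add_distrib]
    refine Finset.sum_congr rfl fun w' _ => ?_
    split_ifs <;> ring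
  have h2 := Qf_nonneg b K S t (fun w => x w - y w)
  linarith

theorem Qf_smul (b K : ℕ) (S : Finset Vt) (t : ℕ) (a : ℝ) (x : Vt → ℝ) :
    Qf b K S t (fun w => a * x w) = a ^ 2 * Qf b K S t x := by
  classical
  rw [Qf_def, Qf_def, Finset.mul_sum]
  refine Finset.sum_congr rfl fun w _ => ?_
  rw [Finset.mul_sum]
  refine Finset.sum_congr rfl fun w' _ => ?_
  split_ifs <;> ring

theorem En_eq_Qf (b K : ℕ) (S : Finset Vt) (i : ℕ) :
    En b K S i = ∑ t ∈ range (i + 1), Qf b K S t (fun _ => 1) := by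
  classical
  rw [En_def]
  refine Finset.sum_congr rfl fun t _ => ?_
  rw [Qf_def]
  simp

/-- the conditions on the common set of two slabs -/
def Lk (b K R : ℕ) (C B : ℝ) (i : ℕ) (z : Vt) (ω : Cf) (h h' : ℤ) (S : Finset Vt) : Prop :=
  (∀ w ∈ S, w ∈ Rs b K R (sh h ω) i z ∧ w ∈ Rs b K R (sh h' ω) i z ∧ Col ω w h h') ∧
    B ≤ (S.card : ℝ) ∧ En b K S i ≤ C * (S.card : ℝ) ^ 2

/-- centred column indicator -/
noncomputable def Xc (P : ℝ) (h h' : ℤ) (ω : Cf) (w : Vt) : ℝ :=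
  (ColE w h h').indicator (fun _ => (1 : ℝ)) ω - P

/-- deterministic part of the thinning -/
theorem thin_det {b K : ℕ} {i : ℕ} {z : Vt} {S : Finset Vt}
    (hSz : ∀ w ∈ S, (par b)^[(K + 1) * i] w = z) {P c C m : ℝ} (hP : 0 < P) (hc : 0 < c)
    (hC : 0 ≤ C) (hm : 0 < m)
    (hcard : c * m ^ i ≤ (S.card : ℝ)) (hEn : En b K S i ≤ C * (m ^ i) ^ 2) {h h' : ℤ} {ω : Cf}
    (hY : ∑ t ∈ range (i + 1), Qf b K S t (Xc P h h' ω) ≤ P ^ 2 * (S.card : ℝ) ^ 2 / 4) :
    ∃ S' : Finset Vt, S' ⊆ S ∧ (∀ w ∈ S', Col ω w h h') ∧ P * (c * m ^ i) / 2 ≤ (S'.card : ℝ) ∧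
      En b K S' i ≤ (4 * (2 * C / c ^ 2 + 1 / 2)) * (S'.card : ℝ) ^ 2 := by
  classical
  set S' : Finset Vt := S.filter (fun w => ω ∈ ColE w h h') with hS'
  set X : Vt → ℝ := fun w => (ColE w h h').indicator (fun _ => (1 : ℝ)) ω with hX
  have hX1 : ∀ w, X w = if ω ∈ ColE w h h' then 1 else 0 := fun w => Set.indicator_apply _ _ _
  have hcardS' : (S'.card : ℝ) = ∑ w ∈ S, X w := by
    rw [hS', Finset.card_filter]
    push_cast
    refine Finset.sum_congr rfl fun w _ => ?_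
    rw [hX1]
  have hEnS' : En b K S' i = ∑ t ∈ range (i + 1), Qf b K S t X := by
    rw [En_def]
    refine Finset.sum_congr rfl fun t _ => ?_
    rw [Qf_def, hS', Finset.sum_filter]
    refine Finset.sum_congr rfl fun w _ => ?_
    rw [Finset.sum_filter, hX1]
    by_cases h1 : ω ∈ ColE w h h'
    · rw [if_pos h1, if_pos h1]
      refine Finset.sum_congr rfl fun w' _ => ?_
      rw [hX1]
      by_cases h2 : ω ∈ ColE w' h h'
      · rw [if_pos h2, if_pos h2, one_mul]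
      · rw [if_neg h2, if_neg h2, mul_zero, ite_self]
    · rw [if_neg h1, if_neg h1]
      symm
      refine Finset.sum_eq_zero fun w' _ => ?_
      rw [zero_mul, ite_self]
  -- the root term
  have hroot : ((S'.card : ℝ) - P * S.card) ^ 2 ≤ P ^ 2 * (S.card : ℝ) ^ 2 / 4 := by
    refine le_trans ?_ hY
    have h1 : ((S'.card : ℝ) - P * S.card) ^ 2 = Qf b K S i (Xc P h h' ω) := by
      rw [Qf_def, hcardS']
      have h2 : ∑ w ∈ S, X w - P * S.card = ∑ w ∈ S, Xc P h h' ω w := by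
        simp only [Xc, Finset.sum_sub_distrib, Finset.sum_const, nsmul_eq_mul]
        ring
      rw [h2, sq, Finset.sum_mul_sum]
      refine Finset.sum_congr rfl fun w hw => Finset.sum_congr rfl fun w' hw' => ?_
      rw [if_pos]
      rw [hSz w hw, hSz w' hw']
    rw [h1]
    exact Finset.single_le_sum (f := fun t => Qf b K S t (Xc P h h' ω))
      (fun t _ => Qf_nonneg b K S t _) (Finset.self_mem_range_succ i)
  have hS0 : 0 < (S.card : ℝ) := lt_of_lt_of_le (by positivity) hcard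
  have hhalf : P * S.card / 2 ≤ (S'.card : ℝ) := by
    by_contra hcon
    push Not at hcon
    have h1 : P * S.card / 2 < P * S.card - S'.card := by linarith
    have h2 : (P * S.card / 2) ^ 2 < (P * S.card - S'.card) ^ 2 :=
      pow_lt_pow_left₀ h1 (by positivity) (by norm_num)
    have h3 : (P * (S.card : ℝ) / 2) ^ 2 = P ^ 2 * (S.card : ℝ) ^ 2 / 4 := by ring
    have h4 : (P * (S.card : ℝ) - S'.card) ^ 2 = ((S'.card : ℝ) - P * S.card) ^ 2 := by ring
    linarith
  refine ⟨S', Finset.filter_subset _ _, fun w hw => (Finset.mem_filter.1 hw).2, ?_, ?_⟩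
  · refine le_trans ?_ hhalf
    have : P * (c * m ^ i) ≤ P * S.card := mul_le_mul_of_nonneg_left hcard hP.le
    linarith
  · rw [hEnS']
    have h1 : ∀ t, Qf b K S t X ≤ 2 * Qf b K S t (Xc P h h' ω)
        + 2 * (P ^ 2 * Qf b K S t (fun _ => 1)) := by
      intro t
      have h2 := Qf_par b K S t (Xc P h h' ω) (fun _ => P * 1)
      rw [Qf_smul b K S t P (fun _ => 1)] at h2
      refine le_trans (le_of_eq ?_) h2
      congr 1
      funext w
      simp only [Xc, hX]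
      ring
    have h2 : ∑ t ∈ range (i + 1), Qf b K S t X ≤
        2 * (P ^ 2 * (S.card : ℝ) ^ 2 / 4) + 2 * (P ^ 2 * (C * (m ^ i) ^ 2)) := by
      refine (Finset.sum_le_sum fun t _ => h1 t).trans ?_
      rw [Finset.sum_add_distrib, ← Finset.mul_sum, ← Finset.mul_sum, ← Finset.mul_sum,
        ← En_eq_Qf]
      gcongr
    refine h2.trans ?_
    have h3 : (m ^ i) ^ 2 ≤ (S.card : ℝ) ^ 2 / c ^ 2 := by
      rw [le_div_iff₀ (by positivity)]
      calc (m ^ i) ^ 2 * c ^ 2 = (c * m ^ i) ^ 2 := by ring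
        _ ≤ (S.card : ℝ) ^ 2 := pow_le_pow_left₀ (by positivity) hcard 2
    have h4 : (P * S.card) ^ 2 ≤ 4 * (S'.card : ℝ) ^ 2 := by
      have := pow_le_pow_left₀ (by positivity) hhalf 2
      calc (P * (S.card : ℝ)) ^ 2 = 4 * (P * S.card / 2) ^ 2 := by ring
        _ ≤ 4 * (S'.card : ℝ) ^ 2 := by linarith
    calc 2 * (P ^ 2 * (S.card : ℝ) ^ 2 / 4) + 2 * (P ^ 2 * (C * (m ^ i) ^ 2))
        ≤ 2 * (P ^ 2 * (S.card : ℝ) ^ 2 / 4) + 2 * (P ^ 2 * (C * ((S.card : ℝ) ^ 2 / c ^ 2))) := by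
          gcongr
      _ = (P * S.card) ^ 2 * (2 * C / c ^ 2 + 1 / 2) := by
          field_simp
          ring
      _ ≤ (4 * (S'.card : ℝ) ^ 2) * (2 * C / c ^ 2 + 1 / 2) := by gcongr
      _ = _ := by ring

theorem dep_col (w : Vt) (h h' : ℤ) : Dep {e : Ed | e.2 = true ∧ e.1.1 = w} (ColE w h h') := by
  intro ω ω' h2 h3 t ht ht'
  rw [← h2 ((w, t), true) ⟨rfl, rfl⟩]
  exact h3 t ht ht'

/-- expectation of the thinning error -/
theorem thin_prob (p : ℝ≥0) (hp : p ≤ 1) (hp0 : 0 < p) (b K : ℕ) (i : ℕ) (S : Finset Vt)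
    (hS : 0 < S.card) (h h' : ℤ) (P : ℝ) (hPd : P = (p : ℝ) ^ (h' - h).toNat) :
    (PP Ed p hp).real {ω | P ^ 2 * (S.card : ℝ) ^ 2 / 4
      < ∑ t ∈ range (i + 1), Qf b K S t (Xc P h h' ω)} ≤ 4 * (i + 1) / (P * S.card) := by
  classical
  have hP : 0 < P := by rw [hPd]; exact pow_pos (by exact_mod_cast hp0) _
  have hS' : (0 : ℝ) < S.card := by exact_mod_cast hS
  set μ := PP Ed p hp with hμ
  let I : Vt → Cf → ℝ := fun w => (ColE w h h').indicator (fun _ => (1 : ℝ))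
  have iI : ∀ A : Set Cf, MeasurableSet A → Integrable (A.indicator fun _ => (1 : ℝ)) μ :=
    fun A hA => (integrable_const _).indicator hA
  have vI : ∀ A : Set Cf, MeasurableSet A → ∫ x, A.indicator (fun _ => (1 : ℝ)) x ∂μ = μ.real A := by
    intro A hA; rw [integral_indicator_const (1 : ℝ) hA]; simp
  have prod_eq : ∀ w w' ω, Xc P h h' ω w * Xc P h h' ω w'
      = (ColE w h h' ∩ ColE w' h h').indicator (fun _ => (1 : ℝ)) ω - P * I w ω - P * I w' ω
        + P ^ 2 := by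
    intro w w' ω
    simp only [Xc, I, Set.indicator_apply, Set.mem_inter_iff]
    by_cases h1 : ω ∈ ColE w h h' <;> by_cases h2 : ω ∈ ColE w' h h' <;> simp [h1, h2] <;> ring
  have i1 : ∀ w w', Integrable (fun ω => Xc P h h' ω w * Xc P h h' ω w') μ := by
    intro w w'
    simp only [prod_eq]
    exact (((iI _ ((meas_col w h h').inter (meas_col w' h h'))).sub
      ((iI _ (meas_col w h h')).const_mul P)).sub ((iI _ (meas_col w' h h')).const_mul P)).add
      (integrable_const _)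
  have v1 : ∀ w w', ∫ ω, Xc P h h' ω w * Xc P h h' ω w' ∂μ
      = μ.real (ColE w h h' ∩ ColE w' h h') - P ^ 2 := by
    intro w w'
    simp only [prod_eq]
    have j1 := iI _ ((meas_col w h h').inter (meas_col w' h h'))
    have j2 := (iI _ (meas_col w h h')).const_mul P
    have j3 := (iI _ (meas_col w' h h')).const_mul P
    have e1 : ∫ ω, ((ColE w h h' ∩ ColE w' h h').indicator (fun _ => (1 : ℝ)) ω - P * I w ω
        - P * I w' ω + P ^ 2) ∂μ
        = (∫ ω, ((ColE w h h' ∩ ColE w' h h').indicator (fun _ => (1 : ℝ)) ω - P * I w ω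
        - P * I w' ω) ∂μ) + ∫ _ω, P ^ 2 ∂μ := integral_add ((j1.sub j2).sub j3) (integrable_const _)
    have e2 : ∫ ω, ((ColE w h h' ∩ ColE w' h h').indicator (fun _ => (1 : ℝ)) ω - P * I w ω
        - P * I w' ω) ∂μ = (∫ ω, ((ColE w h h' ∩ ColE w' h h').indicator (fun _ => (1 : ℝ)) ω
          - P * I w ω) ∂μ) - ∫ ω, P * I w' ω ∂μ := integral_sub (j1.sub j2) j3
    have e3 : ∫ ω, ((ColE w h h' ∩ ColE w' h h').indicator (fun _ => (1 : ℝ)) ω
          - P * I w ω) ∂μ = (∫ ω, (ColE w h h' ∩ ColE w' h h').indicator (fun _ => (1 : ℝ)) ω ∂μ)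
          - ∫ ω, P * I w ω ∂μ := integral_sub j1 j2
    rw [e1, e2, e3, vI _ ((meas_col w h h').inter (meas_col w' h h')), integral_const_mul,
      integral_const_mul, integral_const, probReal_univ, one_smul]
    have e4 : ∀ w, ∫ ω, I w ω ∂μ = P := by
      intro w
      show ∫ ω, (ColE w h h').indicator (fun _ => (1 : ℝ)) ω ∂μ = P
      rw [vI _ (meas_col w h h'), hμ, P_col, hPd]
    rw [e4, e4]
    ring
  have v2 : ∀ w w', w ≠ w' → ∫ ω, Xc P h h' ω w * Xc P h h' ω w' ∂μ = 0 := by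
    intro w w' hne
    rw [v1, hμ, ind Ed p hp {e : Ed | e.2 = true ∧ e.1.1 = w} {e : Ed | e.2 = true ∧ e.1.1 = w'}
      _ _ ?_ (dep_col w h h') (dep_col w' h h') (meas_col w h h') (meas_col w' h h'), P_col, P_col,
      ← hPd]
    · ring
    · rw [Set.disjoint_left]
      rintro e ⟨_, he⟩ ⟨_, he'⟩
      exact hne (he.symm.trans he')
  have hP1 : P ≤ 1 := by
    rw [hPd]; exact pow_le_one₀ p.2 (by exact_mod_cast hp)
  have v3 : ∀ w, ∫ ω, Xc P h h' ω w * Xc P h h' ω w ∂μ ≤ P := by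
    intro w
    rw [v1, Set.inter_self, hμ, P_col, ← hPd]
    nlinarith [sq_nonneg P]
  let Y : Cf → ℝ := fun ω => ∑ t ∈ range (i + 1), Qf b K S t (Xc P h h' ω)
  have hY0 : ∀ ω, 0 ≤ Y ω := fun ω => Finset.sum_nonneg fun t _ => Qf_nonneg _ _ _ _ _
  have iQ1 : ∀ t w w', Integrable (fun ω => if (par b)^[(K + 1) * t] w = (par b)^[(K + 1) * t] w'
      then Xc P h h' ω w * Xc P h h' ω w' else 0) μ := by
    intro t w w'
    split_ifs
    · exact i1 w w'
    · exact integrable_zero _ _ _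
  have hYeq : Y = fun ω => ∑ t ∈ range (i + 1), ∑ w ∈ S, ∑ w' ∈ S,
      if (par b)^[(K + 1) * t] w = (par b)^[(K + 1) * t] w'
      then Xc P h h' ω w * Xc P h h' ω w' else 0 := by
    funext ω
    refine Finset.sum_congr rfl fun t _ => ?_
    rw [Qf_def]
  have iY : Integrable Y μ := by
    rw [hYeq]
    exact integrable_finsetSum _ fun t _ => integrable_finsetSum _ fun w _ =>
      integrable_finsetSum _ fun w' _ => iQ1 t w w'
  have eY : ∫ ω, Y ω ∂μ ≤ (i + 1) * S.card * P := by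
    rw [hYeq]
    rw [integral_finsetSum _ fun t _ => integrable_finsetSum _ fun w _ =>
      integrable_finsetSum _ fun w' _ => iQ1 t w w']
    have h1 : ∀ t ∈ range (i + 1), ∫ ω, ∑ w ∈ S, ∑ w' ∈ S,
        (if (par b)^[(K + 1) * t] w = (par b)^[(K + 1) * t] w'
        then Xc P h h' ω w * Xc P h h' ω w' else 0) ∂μ ≤ S.card * P := by
      intro t _
      rw [integral_finsetSum _ fun w _ => integrable_finsetSum _ fun w' _ => iQ1 t w w']
      have h2 : ∀ w ∈ S, ∫ ω, ∑ w' ∈ S, (if (par b)^[(K + 1) * t] w = (par b)^[(K + 1) * t] w'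
          then Xc P h h' ω w * Xc P h h' ω w' else 0) ∂μ ≤ P := by
        intro w hw
        rw [integral_finsetSum _ fun w' _ => iQ1 t w w']
        have h3 : ∀ w' ∈ S, ∫ ω, (if (par b)^[(K + 1) * t] w = (par b)^[(K + 1) * t] w'
          then Xc P h h' ω w * Xc P h h' ω w' else 0) ∂μ ≤ if w' = w then P else 0 := by
          intro w' _
          by_cases hw' : w' = w
          · subst hw'
            simp only [if_true]
            exact v3 w'
          · rw [if_neg hw']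
            by_cases h4 : (par b)^[(K + 1) * t] w = (par b)^[(K + 1) * t] w'
            · simp only [if_pos h4]
              exact (v2 w w' (Ne.symm hw')).le
            · simp only [if_neg h4]
              simp
        refine (Finset.sum_le_sum h3).trans ?_
        rw [Finset.sum_ite_eq' S w, if_pos hw]
      refine (Finset.sum_le_sum h2).trans ?_
      rw [Finset.sum_const, nsmul_eq_mul]
    refine (Finset.sum_le_sum h1).trans ?_
    rw [Finset.sum_const, nsmul_eq_mul, Finset.card_range]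
    push_cast
    linarith [mul_assoc ((i : ℝ) + 1) (S.card : ℝ) P]
  have h1 := mul_meas_ge_le_integral_of_nonneg (Filter.Eventually.of_forall hY0) iY
    (P ^ 2 * (S.card : ℝ) ^ 2 / 4)
  have h2 : μ.real {ω | P ^ 2 * (S.card : ℝ) ^ 2 / 4 < Y ω}
      ≤ μ.real {ω | P ^ 2 * (S.card : ℝ) ^ 2 / 4 ≤ Y ω} :=
    measureReal_mono (fun x (hx : _ < Y x) => hx.le) (measure_ne_top _ _)
  have h3 : P ^ 2 * (S.card : ℝ) ^ 2 / 4 * μ.real {ω | P ^ 2 * (S.card : ℝ) ^ 2 / 4 ≤ Y ω}
      ≤ (i + 1) * S.card * P := h1.trans eY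
  show μ.real {ω | P ^ 2 * (S.card : ℝ) ^ 2 / 4 < Y ω} ≤ _
  refine h2.trans ?_
  rw [le_div_iff₀ (by positivity)]
  have h4 : (P * S.card / 4) * (μ.real {ω | P ^ 2 * (S.card : ℝ) ^ 2 / 4 ≤ Y ω} * (P * S.card))
      ≤ (P * S.card / 4) * (4 * (i + 1)) := by
    calc (P * S.card / 4) * (μ.real {ω | P ^ 2 * (S.card : ℝ) ^ 2 / 4 ≤ Y ω} * (P * S.card))
        = P ^ 2 * (S.card : ℝ) ^ 2 / 4 * μ.real {ω | P ^ 2 * (S.card : ℝ) ^ 2 / 4 ≤ Y ω} := by ring
      _ ≤ (i + 1) * S.card * P := h3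
      _ = _ := by ring
  exact le_of_mul_le_mul_left h4 (by positivity)

/-- **[COLU]** related slabs have a large common set of vertices with open columns and bounded
energy -/
theorem colU {b : ℕ} (hb : 2 ≤ b) (K R : ℕ) (p : ℝ≥0) (hp : p ≤ 1) (hp0 : 0 < p) (c C m : ℝ)
    (hc : 0 < c) (hC : 0 ≤ C) (hm : 0 < m) (i : ℕ) (z : Vt) (h h' : ℤ) :
    (PP Ed p hp).real {ω | (sh h ω, sh h' ω) ∈ U b K R c C m i z ∧
      ¬ ∃ S, Lk b K R (4 * (2 * C / c ^ 2 + 1 / 2)) ((p : ℝ) ^ (h' - h).toNat * (c * m ^ i) / 2)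
        i z ω h h' S} ≤ 4 * (i + 1) / ((p : ℝ) ^ (h' - h).toNat * (c * m ^ i)) := by
  classical
  set P : ℝ := (p : ℝ) ^ (h' - h).toNat with hPd
  have hP : 0 < P := by rw [hPd]; exact pow_pos (by exact_mod_cast hp0) _
  set L : ℤ := z.1 - (K + 1) * i with hL
  have hFfin := desc_finite (by omega : 1 ≤ b) ((K + 1) * i) z
  set F : Finset Vt := hFfin.toFinset with hF
  set A : Cf → Set Vt := fun ω => Rs b K R (sh h ω) i z ∩ Rs b K R (sh h' ω) i z with hA
  have hAF : ∀ ω, A ω ⊆ (F : Set Vt) := by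
    intro ω w hw
    rw [hF, Set.Finite.coe_toFinset]
    exact hw.1.1
  have hAL : ∀ ω, ∀ w ∈ A ω, w.1 = L := by
    intro ω w hw
    have h2 := hw.1.1
    rw [Pool.Agent.Helper56K9.CP.par_iter] at h2
    have h4 := congrArg Prod.fst h2
    simp only at h4
    push_cast at h4
    rw [hL]
    linarith
  have hAdep : ∀ ω ω' : Cf, (∀ e ∈ NV L, ω e = ω' e) → A ω = A ω' := by
    intro ω ω' h1
    simp only [hA]
    rw [Rs_congr_iff (sh_congr h1 h), Rs_congr_iff (sh_congr h1 h')]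
  have hAmem : ∀ w, MeasurableSet {ω | w ∈ A ω} := by
    intro w
    have : {ω | w ∈ A ω} = (sh h) ⁻¹' {ξ | w ∈ Rs b K R ξ i z} ∩
      (sh h') ⁻¹' {ξ | w ∈ Rs b K R ξ i z} := rfl
    rw [this]
    exact (meas_sh h (meas_Rs meas b K R i z w)).inter (meas_sh h' (meas_Rs meas b K R i z w))
  have hAS : ∀ S : Finset Vt, MeasurableSet {ω | A ω = (S : Set Vt)} := by
    intro S
    have : {ω | A ω = (S : Set Vt)} = ⋂ w : Vt, {ω | w ∈ A ω ↔ w ∈ S} := by
      ext ω
      simp [Set.ext_iff]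
    rw [this]
    refine MeasurableSet.iInter fun w => ?_
    by_cases hw : w ∈ S
    · simpa [hw] using hAmem w
    · have h1 : {ω | w ∈ A ω ↔ w ∈ S} = {ω | w ∈ A ω}ᶜ := by
        ext ω
        simp [hw]
      rw [h1]
      exact (hAmem w).compl
  -- good values of the common set
  set G : Finset (Finset Vt) := F.powerset.filter (fun A0 => ∃ S : Finset Vt, S ⊆ A0 ∧
    c * m ^ i ≤ (S.card : ℝ) ∧ En b K S i ≤ C * (m ^ i) ^ 2) with hG
  have hGex : ∀ A0 ∈ G, ∃ S : Finset Vt, S ⊆ A0 ∧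
    c * m ^ i ≤ (S.card : ℝ) ∧ En b K S i ≤ C * (m ^ i) ^ 2 := fun A0 hA0 =>
      (Finset.mem_filter.1 hA0).2
  choose! σ hσ1 hσ2 hσ3 using hGex
  let Bad : Finset Vt → Set Cf := fun S => {ω | P ^ 2 * (S.card : ℝ) ^ 2 / 4
      < ∑ t ∈ range (i + 1), Qf b K S t (Xc P h h' ω)}
  have hsub : {ω | (sh h ω, sh h' ω) ∈ U b K R c C m i z ∧
      ¬ ∃ S, Lk b K R (4 * (2 * C / c ^ 2 + 1 / 2)) (P * (c * m ^ i) / 2) i z ω h h' S} ⊆
      ⋃ A0 ∈ G, ({ω | A ω = (A0 : Set Vt)} ∩ Bad (σ A0)) := by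
    rintro ω ⟨⟨S, h1, h2, h3⟩, h4⟩
    have hfin : (A ω).Finite := F.finite_toSet.subset (hAF ω)
    have hA0 : hfin.toFinset ∈ G := by
      rw [hG, Finset.mem_filter, Finset.mem_powerset]
      refine ⟨?_, S, ?_, h2, h3⟩
      · intro w hw
        rw [Set.Finite.mem_toFinset] at hw
        exact hAF ω hw
      · intro w hw
        rw [Set.Finite.mem_toFinset]
        exact h1 w hw
    rw [Set.mem_iUnion₂]
    refine ⟨hfin.toFinset, hA0, by simp, ?_⟩
    by_contra hnb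
    have hY : ∑ t ∈ range (i + 1), Qf b K (σ hfin.toFinset) t (Xc P h h' ω)
        ≤ P ^ 2 * ((σ hfin.toFinset).card : ℝ) ^ 2 / 4 := not_lt.1 hnb
    have hmem : ∀ w ∈ σ hfin.toFinset, w ∈ A ω := by
      intro w hw
      have := hσ1 _ hA0 hw
      rwa [Set.Finite.mem_toFinset] at this
    obtain ⟨S', g1, g2, g3, g4⟩ := thin_det (z := z) (fun w hw => (hmem w hw).1.1) hP hc hC hm
      (hσ2 _ hA0) (hσ3 _ hA0) hY
    exact h4 ⟨S', fun w hw => ⟨(hmem w (g1 hw)).1, (hmem w (g1 hw)).2, g2 w hw⟩, g3, g4⟩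
  have mX : ∀ w, Measurable (fun ω => Xc P h h' ω w) := fun w =>
    (measurable_const.indicator (meas_col w h h')).sub measurable_const
  have hBadm : ∀ S, MeasurableSet (Bad S) := by
    intro S
    refine measurableSet_lt measurable_const ?_
    refine Finset.measurable_sum _ fun t _ => ?_
    simp only [Qf_def]
    refine Finset.measurable_sum _ fun w _ => Finset.measurable_sum _ fun w' _ => ?_
    split_ifs
    · exact (mX w).mul (mX w')
    · exact measurable_const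
  have hBadd : ∀ S : Finset Vt, Dep {e : Ed | e.2 = true ∧ e.1.1 ∈ S} (Bad S) := by
    intro S ω ω' h1 h2
    have h3 : ∀ w ∈ S, Xc P h h' ω w = Xc P h h' ω' w := by
      intro w hw
      have h4 : ω ∈ ColE w h h' ↔ ω' ∈ ColE w h h' :=
        ⟨dep_col w h h' ω ω' (fun e he => h1 e ⟨he.1, he.2 ▸ hw⟩),
          dep_col w h h' ω' ω (fun e he => (h1 e ⟨he.1, he.2 ▸ hw⟩).symm)⟩
      simp only [Xc, Set.indicator_apply, h4]
    show P ^ 2 * (S.card : ℝ) ^ 2 / 4 < ∑ t ∈ range (i + 1), Qf b K S t (Xc P h h' ω')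
    have h5 : ∀ t, Qf b K S t (Xc P h h' ω') = Qf b K S t (Xc P h h' ω) := by
      intro t
      rw [Qf_def, Qf_def]
      refine Finset.sum_congr rfl fun w hw => Finset.sum_congr rfl fun w' hw' => ?_
      rw [h3 w hw, h3 w' hw']
    simp only [h5]
    exact h2
  set δ : ℝ := 4 * (i + 1) / (P * (c * m ^ i)) with hδ
  have hS : ∀ A0 ∈ G, (PP Ed p hp).real ({ω | A ω = (A0 : Set Vt)} ∩ Bad (σ A0)) ≤
        (PP Ed p hp).real {ω | A ω = (A0 : Set Vt)} * δ := by
    intro A0 hA0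
    by_cases hne : {ω | A ω = (A0 : Set Vt)} = ∅
    · rw [hne]
      simp
    · obtain ⟨ω₀, hω₀⟩ := Set.nonempty_iff_ne_empty.2 hne
      have hSL : ∀ w ∈ σ A0, w.1 = L := by
        intro w hw
        refine hAL ω₀ w ?_
        rw [hω₀]
        exact hσ1 A0 hA0 hw
      have hcard := hσ2 A0 hA0
      have hpos : 0 < ((σ A0).card : ℝ) := lt_of_lt_of_le (by positivity) hcard
      rw [ind Ed p hp (NV L) {e : Ed | e.2 = true ∧ e.1.1 ∈ σ A0} _ _ ?_ ?_ (hBadd (σ A0))
        (hAS A0) (hBadm _)]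
      · refine mul_le_mul_of_nonneg_left ?_ measureReal_nonneg
        refine (thin_prob p hp hp0 b K i (σ A0) (by exact_mod_cast hpos) h h' P hPd).trans ?_
        rw [hδ]
        refine div_le_div_of_nonneg_left (by positivity) (by positivity) ?_
        exact mul_le_mul_of_nonneg_left hcard hP.le
      · rw [Set.disjoint_left]
        rintro e he ⟨he1, he2⟩
        exact he ⟨he1, hSL _ he2⟩
      · intro ω ω' h1 h2
        change A ω' = _
        rw [← hAdep ω ω' h1]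
        exact h2
  have hδ0 : 0 ≤ δ := by rw [hδ]; positivity
  calc (PP Ed p hp).real {ω | (sh h ω, sh h' ω) ∈ U b K R c C m i z ∧
      ¬ ∃ S, Lk b K R (4 * (2 * C / c ^ 2 + 1 / 2)) (P * (c * m ^ i) / 2) i z ω h h' S}
      ≤ (PP Ed p hp).real (⋃ A0 ∈ G, ({ω | A ω = (A0 : Set Vt)} ∩ Bad (σ A0))) :=
        measureReal_mono hsub (measure_ne_top _ _)
    _ ≤ ∑ A0 ∈ G, (PP Ed p hp).real ({ω | A ω = (A0 : Set Vt)} ∩ Bad (σ A0)) :=
          measureReal_biUnion_finset_le _ _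
    _ ≤ ∑ A0 ∈ G, (PP Ed p hp).real {ω | A ω = (A0 : Set Vt)} * δ := Finset.sum_le_sum hS
    _ = (∑ A0 ∈ G, (PP Ed p hp).real {ω | A ω = (A0 : Set Vt)}) * δ := by rw [Finset.sum_mul]
    _ = (PP Ed p hp).real (⋃ A0 ∈ G, {ω | A ω = (A0 : Set Vt)}) * δ := by
          rw [measureReal_biUnion_finset]
          · intro S _ T _ hST
            rw [Function.onFun, Set.disjoint_left]
            intro ω h1 h2
            apply hST
            have h3 : A ω = (S : Set Vt) := h1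
            have h4 : A ω = (T : Set Vt) := h2
            exact Finset.coe_injective (h3.symm.trans h4)
          · intro S _
            exact hAS S
    _ ≤ 1 * δ := mul_le_mul_of_nonneg_right measureReal_le_one hδ0
    _ = δ := one_mul _

end Pool.Agent.H954.TR
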