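import Pool.Agent.H954.TR.Net
import Pool.Agent.H954.TR.Cell

set_option autoImplicit false

/-! # Events of the stages and the deterministic conclusion -/

namespace Pool.Agent.H954.TR

open MeasureTheory ProbabilityTheory Finset
open scoped ENNReal NNReal
open Pool.Agent.Helper98K9.CP Pool.Agent.Helper98K9.CP.GwL Pool.Agent.Helper98K9.CP.TreeL
open Pool.Agent.Helper98K9.CP.CanL (lv rt lk lk_card)

/-! ## sums of energies -/

theorem sum_Ds_le {b : ℕ} {φ : Vx → ℝ} {ω : Cf} {F : Finset Ed} {ι : Type} (k : ℕ)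
    (Y : Finset ι) (A : ι → Set Ed) (B : Set Ed) (h1 : ∀ y ∈ Y, A y ⊆ B)
    (h2 : ∀ e : Ed, ∀ Z : Finset ι, Z ⊆ Y → (∀ y ∈ Z, e ∈ A y) → Z.card ≤ k) :
    ∑ y ∈ Y, Ds b φ ω F (A y) ≤ k * Ds b φ ω F B := by
  classical
  simp only [Ds_def]
  rw [Finset.sum_comm, Finset.mul_sum]
  refine Finset.sum_le_sum fun e _ => ?_
  rw [← Finset.sum_filter, Finset.sum_const, nsmul_eq_mul]
  set Z := Y.filter (fun y => e ∈ A y) with hZ
  have h3 := h2 e Z (Finset.filter_subset _ _) (fun y hy => (Finset.mem_filter.1 hy).2)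
  by_cases hB : e ∈ B
  · rw [if_pos hB]
    refine mul_le_mul_of_nonneg_right ?_ (we_nonneg _ _ _ _)
    exact_mod_cast h3
  · have : Z = ∅ := by
      rw [hZ, Finset.filter_eq_empty_iff]
      intro y hy hy2
      exact hB (h1 y hy hy2)
    rw [this, if_neg hB]
    simp

/-- the height of the slab `q` -/
def hq (R : ℕ) (q : ℕ) : ℤ := (q : ℤ) * (2 * (R : ℤ) + 1)

theorem hq_lt {R q q' : ℕ} (h : q < q') : hq R q + (2 * R + 1) ≤ hq R q' := by
  unfold hq
  have h1 : (q : ℤ) + 1 ≤ q' := by exact_mod_cast h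
  nlinarith [Int.natCast_nonneg R]

theorem hq_unique {R q q' : ℕ} {t : ℤ} (h1 : hq R q - R ≤ t) (h2 : t ≤ hq R q + R)
    (h3 : hq R q' - R ≤ t) (h4 : t ≤ hq R q' + R) : q = q' := by
  rcases lt_trichotomy q q' with h | h | h
  · have := hq_lt (R := R) h; omega
  · exact h
  · have := hq_lt (R := R) h; omega

/-- link edges at height `h` -/
def LE (K M n : ℕ) (h : ℤ) : Set Ed := {e | ((e.1.1, e.1.2 - h), e.2) ∈ lk K M n}

/-- all edges below the root of stage `n` -/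
def GE (b K M n : ℕ) : Set Ed := {e | ∃ j ≤ lv K M n, (par b)^[j] e.1.1 = rt K M n}

/-- all link edges -/
def LKE (K M n : ℕ) : Set Ed := {e | ((e.1.1, 0), e.2) ∈ lk K M n}

theorem mem_lk {K M n : ℕ} {e : Ed} (he : e ∈ lk K M n) :
    e.1.2 = 0 ∧ e.2 = false ∧ (e.1.1 = rt K M n ∨ e.1.1 = rt K M (n + 1) ∨
      ∃ k : ℕ, lv K M n < k ∧ k ≤ lv K M (n + 1) ∧ e.1.1 = ((k : ℤ), 0)) := by
  unfold lk at he
  rw [Finset.mem_union, Finset.mem_insert, Finset.mem_singleton, Finset.mem_image] at he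
  rcases he with (rfl | rfl) | ⟨k, hk, rfl⟩
  · exact ⟨rfl, rfl, Or.inl rfl⟩
  · exact ⟨rfl, rfl, Or.inr (Or.inl rfl)⟩
  · rw [Finset.mem_Ioc] at hk
    exact ⟨rfl, rfl, Or.inr (Or.inr ⟨k, hk.1, hk.2, rfl⟩)⟩

theorem lv_inj {K M n n' : ℕ} (hM : 1 ≤ M) (h : lv K M n = lv K M n') : n = n' := by
  unfold lv at h
  have h3 := Nat.eq_of_mul_eq_mul_left (Nat.succ_pos K) h
  exact Nat.eq_of_mul_eq_mul_left (by omega) h3

theorem lv_mono {K M n n' : ℕ} (h : n ≤ n') : lv K M n ≤ lv K M n' := by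
  unfold lv
  gcongr

theorem lv_lt {K M n n' : ℕ} (hM : 1 ≤ M) (h : n < n') : lv K M n < lv K M n' := by
  refine lt_of_le_of_ne (lv_mono h.le) fun h1 => ?_
  exact h.ne (lv_inj hM h1)

/-- a vertex is below at most one root -/
theorem root_unique {b K M n n' : ℕ} (hb : 2 ≤ b) (hM : 1 ≤ M) {x : Vt} {j j' : ℕ}
    (h1 : (par b)^[j] x = rt K M n) (h2 : (par b)^[j'] x = rt K M n') : n = n' := by
  have key : ∀ {n n' j j' : ℕ}, (par b)^[j] x = rt K M n → (par b)^[j'] x = rt K M n' →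
      n < n' → False := by
    intro n n' j j' h1 h2 hlt
    have hlv := lv_lt (K := K) hM hlt
    rw [TreeL.par_iter] at h1 h2
    have a1 := congrArg Prod.fst h1
    have a2 := congrArg Prod.snd h1
    have b1 := congrArg Prod.fst h2
    have b2 := congrArg Prod.snd h2
    simp only [rt] at a1 a2 b1 b2
    have hj : j < j' := by omega
    have e1 : b ^ j' = b ^ j * b ^ (j' - j) := by rw [← pow_add]; congr 1; omega
    rw [e1, ← Nat.div_div_eq_div_mul, a2] at b2
    have h3 : 1 < b ^ (j' - j) := Nat.one_lt_pow (by omega) (by omega)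
    rw [Nat.div_eq_of_lt h3] at b2
    omega
  rcases lt_trichotomy n n' with h | h | h
  · exact (key h1 h2 h).elim
  · exact h
  · exact (key h2 h1 h).elim

theorem SE_sub_GE {b K M R n : ℕ} {h : ℤ} :
    SE b R ((K + 1) * (M * n)) (rt K M n) h ⊆ GE b K M n := by
  rintro e ⟨h1, _, _⟩
  exact h1

theorem LE_sub_LKE {K M n : ℕ} {h : ℤ} : LE K M n h ⊆ LKE K M n := by
  intro e he
  have he' : ((e.1.1, e.1.2 - h), e.2) ∈ lk K M n := he
  have h1 := (mem_lk he').1
  simp only at h1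
  rw [h1] at he'
  exact he'

theorem GE_sub {b K M n : ℕ} : GE b K M n ⊆ edg b WC := by
  rintro e ⟨j, hj, h1⟩
  rw [TreeL.par_iter] at h1
  have a1 := congrArg Prod.fst h1
  simp only [rt] at a1
  have h2 : 0 ≤ e.1.1.1 := by omega
  refine ⟨h2, ?_⟩
  show 0 ≤ (hd b e).1.1
  unfold hd
  split_ifs
  · exact h2
  · show 0 ≤ (par b e.1.1).1
    unfold par
    simp only
    omega

theorem LKE_sub {b K M n : ℕ} : LKE K M n ⊆ edg b WC := by
  intro e he
  have he' : ((e.1.1, 0), e.2) ∈ lk K M n := he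
  have h2 : 0 ≤ e.1.1.1 := by
    rcases (mem_lk he').2.2 with h | h | ⟨k, _, _, h⟩ <;>
    · simp only at h
      rw [h]
      simp [rt]
  refine ⟨h2, ?_⟩
  show 0 ≤ (hd b e).1.1
  unfold hd
  split_ifs
  · exact h2
  · show 0 ≤ (par b e.1.1).1
    unfold par
    simp only
    omega

/-- total energy of the slabs and links of one stage -/
theorem stage_tot {b K M R : ℕ} {φ : Vx → ℝ} {ω : Cf} {F : Finset Ed} (n Y : ℕ) :
    ∑ y ∈ range Y, (Ds b φ ω F (SE b R ((K + 1) * (M * n)) (rt K M n) (hq R y))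
      + Ds b φ ω F (LE K M n (hq R y))) ≤
      Ds b φ ω F (GE b K M n) + Ds b φ ω F (LKE K M n) := by
  rw [Finset.sum_add_distrib]
  have h1 := sum_Ds_le (b := b) (φ := φ) (ω := ω) (F := F) 1 (range Y)
    (fun y => SE b R ((K + 1) * (M * n)) (rt K M n) (hq R y)) (GE b K M n)
    (fun y _ => SE_sub_GE) (by
      intro e Z _ hZ
      rw [Finset.card_le_one]
      intro y hy y' hy'
      have a1 := hZ y hy
      have a2 := hZ y' hy'
      exact hq_unique a1.2.1 a1.2.2 a2.2.1 a2.2.2)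
  have h2 := sum_Ds_le (b := b) (φ := φ) (ω := ω) (F := F) 1 (range Y)
    (fun y => LE K M n (hq R y)) (LKE K M n)
    (fun y _ => LE_sub_LKE) (by
      intro e Z _ hZ
      rw [Finset.card_le_one]
      intro y hy y' hy'
      have a1 := (mem_lk (hZ y hy)).1
      have a2 := (mem_lk (hZ y' hy')).1
      simp only at a1 a2
      refine hq_unique (R := R) (t := e.1.2) ?_ ?_ ?_ ?_ <;>
      · have := Int.natCast_nonneg R
        omega)
  simp only [Nat.cast_one, one_mul] at h1 h2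
  linarith

/-- total energy of all stages -/
theorem all_tot {b K M : ℕ} (hb : 2 ≤ b) (hM : 1 ≤ M) {φ : Vx → ℝ} {ω : Cf} {F : Finset Ed}
    (N : ℕ) :
    ∑ n ∈ range N, (Ds b φ ω F (GE b K M n) + Ds b φ ω F (LKE K M n)) ≤
      4 * Ds b φ ω F (edg b WC) := by
  classical
  rw [Finset.sum_add_distrib]
  have h1 := sum_Ds_le (b := b) (φ := φ) (ω := ω) (F := F) 1 (range N)
    (fun n => GE b K M n) (edg b WC) (fun y _ => GE_sub) (by
      intro e Z _ hZ
      rw [Finset.card_le_one]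
      intro y hy y' hy'
      obtain ⟨j, _, a1⟩ := hZ y hy
      obtain ⟨j', _, a2⟩ := hZ y' hy'
      exact root_unique hb hM a1 a2)
  have h2 := sum_Ds_le (b := b) (φ := φ) (ω := ω) (F := F) 3 (range N)
    (fun n => LKE K M n) (edg b WC) (fun y _ => LKE_sub) (by
      intro e Z _ hZ
      set Z1 := Z.filter (fun n => ((lv K M n : ℕ) : ℤ) = e.1.1.1) with hZ1
      set Z2 := Z.filter (fun n => ((lv K M (n + 1) : ℕ) : ℤ) = e.1.1.1) with hZ2
      set Z3 := Z.filter (fun n => ((lv K M n : ℕ) : ℤ) < e.1.1.1 ∧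
        e.1.1.1 ≤ ((lv K M (n + 1) : ℕ) : ℤ)) with hZ3
      have hsub : Z ⊆ Z1 ∪ (Z2 ∪ Z3) := by
        intro n hn
        have a1 := (mem_lk (hZ n hn)).2.2
        simp only at a1
        rw [Finset.mem_union, Finset.mem_union, hZ1, hZ2, hZ3, Finset.mem_filter,
          Finset.mem_filter, Finset.mem_filter]
        rcases a1 with h | h | ⟨k, hk1, hk2, h⟩
        · left; exact ⟨hn, by rw [h]; rfl⟩
        · right; left; exact ⟨hn, by rw [h]; rfl⟩
        · right; right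
          refine ⟨hn, ?_, ?_⟩
          · rw [h]
            show ((lv K M n : ℕ) : ℤ) < (k : ℤ)
            exact_mod_cast hk1
          · rw [h]
            show (k : ℤ) ≤ ((lv K M (n + 1) : ℕ) : ℤ)
            exact_mod_cast hk2
      have c1 : Z1.card ≤ 1 := by
        rw [Finset.card_le_one]
        intro y hy y' hy'
        rw [hZ1, Finset.mem_filter] at hy hy'
        have : ((lv K M y : ℕ) : ℤ) = ((lv K M y' : ℕ) : ℤ) := hy.2.trans hy'.2.symm
        exact lv_inj hM (by exact_mod_cast this)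
      have c2 : Z2.card ≤ 1 := by
        rw [Finset.card_le_one]
        intro y hy y' hy'
        rw [hZ2, Finset.mem_filter] at hy hy'
        have : ((lv K M (y + 1) : ℕ) : ℤ) = ((lv K M (y' + 1) : ℕ) : ℤ) := hy.2.trans hy'.2.symm
        have := lv_inj hM (by exact_mod_cast this : lv K M (y + 1) = lv K M (y' + 1))
        omega
      have c3 : Z3.card ≤ 1 := by
        rw [Finset.card_le_one]
        intro y hy y' hy'
        rw [hZ3, Finset.mem_filter] at hy hy'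
        obtain ⟨_, a1, a2⟩ := hy
        obtain ⟨_, b1, b2⟩ := hy'
        have e1 : lv K M y < lv K M (y' + 1) := by exact_mod_cast a1.trans_le b2
        have e2 : lv K M y' < lv K M (y + 1) := by exact_mod_cast b1.trans_le a2
        have e3 : ¬ y' + 1 ≤ y := fun h => absurd (lv_mono (K := K) (M := M) h) (by omega)
        have e4 : ¬ y + 1 ≤ y' := fun h => absurd (lv_mono (K := K) (M := M) h) (by omega)
        omega
      calc Z.card ≤ (Z1 ∪ (Z2 ∪ Z3)).card := Finset.card_le_card hsub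
        _ ≤ Z1.card + (Z2.card + Z3.card) :=
          (Finset.card_union_le _ _).trans (Nat.add_le_add_left (Finset.card_union_le _ _) _)
        _ ≤ 3 := by omega)
  simp only [Nat.cast_one, one_mul] at h1
  push_cast at h2
  linarith

/-- **link between consecutive stages** -/
theorem chain_ineq {b K M n : ℕ} (hb : 2 ≤ b) {φ : Vx → ℝ} {ω : Cf} {F : Finset Ed}
    (hF : ∀ e, e ∉ F → we b φ ω e = 0) {h : ℤ} (hl : ∀ e ∈ lk K M n, sh h ω e = true) :
    (φ (rt K M n, h) - φ (rt K M (n + 1), h)) ^ 2 ≤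
      (3 * ((K + 1) * M + 2) : ℕ) * Ds b φ ω F (LE K M n h) := by
  classical
  have hdiv : 1 / b = 0 := Nat.div_eq_of_lt (by omega)
  have hle : lv K M n ≤ lv K M (n + 1) := lv_mono (by omega)
  have hD := Ds_nonneg b φ ω F (LE K M n h)
  set D := Ds b φ ω F (LE K M n h) with hDdef
  have single : ∀ x : Vt, (((x, 0), false) : Ed) ∈ lk K M n →
      (φ (x, h) - φ (par b x, h)) ^ 2 ≤ D := by
    intro x hx
    have h1 : ω ((x, h), false) = true := by
      have := hl _ hx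
      simpa [sh] using this
    have h2 : (φ (x, h) - φ (par b x, h)) ^ 2 = ∑ e ∈ {(((x, h), false) : Ed)}, we b φ ω e := by
      rw [Finset.sum_singleton]
      unfold we
      rw [if_pos h1]
      simp [hd]
    rw [h2]
    refine sum_le_Ds hF _ fun e he => ?_
    rw [Finset.mem_singleton] at he
    subst he
    show (((x, h - h), false) : Ed) ∈ lk K M n
    rw [sub_self]
    exact hx
  have g1 := single (rt K M n) (by simp [lk])
  have g2 := single (rt K M (n + 1)) (by simp [lk])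
  have p1 : par b (rt K M n) = (((lv K M n + 1 : ℕ) : ℤ), 0) := by
    simp [par, rt, hdiv]
  have p2 : par b (rt K M (n + 1)) = (((lv K M (n + 1) + 1 : ℕ) : ℤ), 0) := by
    simp [par, rt, hdiv]
  rw [p1] at g1
  rw [p2] at g2
  -- the spine
  set g : ℕ → ℝ := fun k => φ (((k : ℤ), 0), h) with hg
  have g3 : (g (lv K M n + 1) - g (lv K M (n + 1) + 1)) ^ 2
      ≤ ((K + 1) * M : ℕ) * D := by
    have h1 := Finset.sum_Ico_sub (fun k => -g k) (show lv K M n + 1 ≤ lv K M (n + 1) + 1 by omega)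
    have h2 : g (lv K M n + 1) - g (lv K M (n + 1) + 1)
        = ∑ k ∈ Ico (lv K M n + 1) (lv K M (n + 1) + 1), (g k - g (k + 1)) := by
      rw [Finset.sum_congr rfl (g := fun k => -g (k + 1) - -g k) (fun k _ => by ring), h1]
      ring
    rw [h2]
    refine sq_sum_le_card_mul_sum_sq.trans ?_
    have hcard : ((Ico (lv K M n + 1) (lv K M (n + 1) + 1)).card : ℝ) ≤ ((K + 1) * M : ℕ) := by
      rw [Nat.card_Ico]
      have : lv K M (n + 1) = lv K M n + (K + 1) * M := by unfold lv; ring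
      exact_mod_cast (by omega : lv K M (n + 1) + 1 - (lv K M n + 1) ≤ (K + 1) * M)
    refine mul_le_mul hcard ?_ (Finset.sum_nonneg fun _ _ => sq_nonneg _) (Nat.cast_nonneg _)
    have h3 : ∀ k ∈ Ico (lv K M n + 1) (lv K M (n + 1) + 1), (g k - g (k + 1)) ^ 2
        = we b φ ω (((((k : ℕ) : ℤ), 0), h), false) := by
      intro k hk
      rw [Finset.mem_Ico] at hk
      have hm : ((((((k : ℕ) : ℤ), 0) : Vt), (0 : ℤ)), false) ∈ lk K M n := by
        unfold lk
        apply Finset.mem_union_right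
        rw [Finset.mem_image]
        exact ⟨k, by rw [Finset.mem_Ioc]; omega, rfl⟩
      have h4 : ω (((((k : ℕ) : ℤ), 0), h), false) = true := by
        have := hl _ hm
        simpa [sh] using this
      unfold we
      rw [if_pos h4]
      simp only [hg, hd, par, Bool.false_eq_true, if_false, Nat.zero_div]
      push_cast
      rfl
    rw [Finset.sum_congr rfl h3]
    have h4 : ∑ k ∈ Ico (lv K M n + 1) (lv K M (n + 1) + 1),
        we b φ ω (((((k : ℕ) : ℤ), 0), h), false)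
        = ∑ e ∈ (Ico (lv K M n + 1) (lv K M (n + 1) + 1)).image
          (fun k : ℕ => ((((((k : ℕ) : ℤ), 0) : Vt), h), false)), we b φ ω e := by
      rw [Finset.sum_image]
      intro x _ y _ hxy
      simpa using hxy
    rw [h4]
    refine sum_le_Ds hF _ fun e he => ?_
    rw [Finset.mem_image] at he
    obtain ⟨k, hk, rfl⟩ := he
    rw [Finset.mem_Ico] at hk
    show (((((k : ℕ) : ℤ), 0), h - h), false) ∈ lk K M n
    rw [sub_self]
    unfold lk
    apply Finset.mem_union_right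
    rw [Finset.mem_image]
    exact ⟨k, by rw [Finset.mem_Ioc]; omega, rfl⟩
  have e0 : φ (rt K M n, h) - φ (rt K M (n + 1), h)
      = (φ (rt K M n, h) - g (lv K M n + 1)) + (g (lv K M n + 1) - g (lv K M (n + 1) + 1))
        - (φ (rt K M (n + 1), h) - g (lv K M (n + 1) + 1)) := by ring
  set x := φ (rt K M n, h) - g (lv K M n + 1) with hx
  set y := g (lv K M n + 1) - g (lv K M (n + 1) + 1) with hy
  set w := φ (rt K M (n + 1), h) - g (lv K M (n + 1) + 1) with hw
  rw [e0]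
  have h1 : (x + y - w) ^ 2 ≤ 3 * (x ^ 2 + y ^ 2 + w ^ 2) := by
    nlinarith [sq_nonneg (x - y), sq_nonneg (x + w), sq_nonneg (y + w)]
  have g1' : x ^ 2 ≤ D := g1
  have g2' : w ^ 2 ≤ D := g2
  push_cast at g3 ⊢
  nlinarith

/-! ## the events -/

section Events

variable (b K R : ℕ) (p : ℝ≥0) (hp : p ≤ 1) (a c C m : ℝ) (M : ℕ)

/-- the relation of stage `n` -/
def Un (n : ℕ) : Set (Cf × Cf) := U b K R c C m (M * n) (rt K M n)

/-- the good slabs of stage `n` -/
def Gn (n : ℕ) : Set Cf := Good p hp a (Un b K R c C m M n)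

/-- good for the stages `n` and `n + 1`, link open -/
def Bn (n : ℕ) : Set Cf :=
  (Gn b K R p hp a c C m M n ∩ Gn b K R p hp a c C m M (n + 1)) ∩
    {ω | ∀ e ∈ lk K M n, ω e = true}

/-- any two good slabs have a common related slab in every cell -/
def EvA (j n : ℕ) : Set Cf :=
  {ω | ∀ β, β < 8 ^ j → ∀ q ∈ Ico (β * 512 ^ j) ((β + 2) * 512 ^ j),
    ∀ q' ∈ Ico (β * 512 ^ j) ((β + 2) * 512 ^ j), q ≠ q' →
    sh (hq R q) ω ∈ Gn b K R p hp a c C m M n → sh (hq R q') ω ∈ Gn b K R p hp a c C m M n →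
    ∀ x ∈ Ico (β * 256 ^ j) ((β + 2) * 256 ^ j), ∃ y ∈ Ico (x * 2 ^ j) ((x + 1) * 2 ^ j),
      y ≠ q ∧ y ≠ q' ∧ (sh (hq R q) ω, sh (hq R y) ω) ∈ Un b K R c C m M n ∧
      (sh (hq R q') ω, sh (hq R y) ω) ∈ Un b K R c C m M n}

/-- related slabs are linked by open columns -/
def EvC (j n : ℕ) : Set Cf :=
  {ω | ∀ q ∈ range ((8 ^ j + 1) * 512 ^ j), ∀ q' ∈ range ((8 ^ j + 1) * 512 ^ j),
    q < q' → q' < q + 2 * 512 ^ j → (sh (hq R q) ω, sh (hq R q') ω) ∈ Un b K R c C m M n →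
    ∃ S, Lk b K R (4 * (2 * C / c ^ 2 + 1 / 2))
      ((p : ℝ) ^ (hq R q' - hq R q).toNat * (c * m ^ (M * n)) / 2) (M * n) (rt K M n) ω
      (hq R q) (hq R q') S}

/-- every cell contains a slab with an open link -/
def EvL (j n : ℕ) : Set Cf :=
  {ω | ∀ x ∈ range (2048 ^ j), ∃ y ∈ Ico (x * 2 ^ j) ((x + 1) * 2 ^ j),
    sh (hq R y) ω ∈ Bn b K R p hp a c C m M n}

/-- the success event -/
def Su (j0 : ℕ) : Set Cf :=
  {ω | ω ∈ Gn b K R p hp a c C m M (512 ^ j0) ∧
    ω ((rt K M (512 ^ j0), 0), false) = true ∧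
    ∀ j, j0 ≤ j → ∀ n, 512 ^ j ≤ n → n ≤ 512 ^ (j + 1) →
      ω ∈ EvA b K R p hp a c C m M j n ∧ ω ∈ EvC b K R p c C m M j n ∧
      ω ∈ EvL b K R p hp a c C m M j n}

variable {b K R p hp a c C m M}

/-- two related slabs of a double block -/
theorem rel_ineq (hb : 2 ≤ b) (hc : 0 < c) (hC : 0 ≤ C) (hp0 : 0 < p) (hm : 0 < m) {j n : ℕ}
    (hbig : ∀ len : ℕ, len ≤ 2 * 512 ^ j * (2 * R + 1) →
      (len : ℝ) / ((p : ℝ) ^ len * (c * m ^ (M * n)) / 2) ≤ 1 / 256 ^ j)
    {ω : Cf} (hω : ω ∈ EvC b K R p c C m M j n) {φ : Vx → ℝ} {F : Finset Ed}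
    (hF : ∀ e, e ∉ F → we b φ ω e = 0) {β : ℕ} (hβ : β < 8 ^ j) {q q' : ℕ}
    (hqI : q ∈ Ico (β * 512 ^ j) ((β + 2) * 512 ^ j))
    (hqI' : q' ∈ Ico (β * 512 ^ j) ((β + 2) * 512 ^ j)) (hne : q ≠ q')
    (hU : (sh (hq R q) ω, sh (hq R q') ω) ∈ Un b K R c C m M n) :
    (φ (rt K M n, hq R q) - φ (rt K M n, hq R q')) ^ 2 ≤
      3 * (4 * (2 * C / c ^ 2 + 1 / 2) * Lt b K R
        * (Ds b φ ω F (SE b R ((K + 1) * (M * n)) (rt K M n) (hq R q))
          + Ds b φ ω F (SE b R ((K + 1) * (M * n)) (rt K M n) (hq R q')))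
        + (∑ y ∈ Ico (β * 512 ^ j) ((β + 2) * 512 ^ j),
          Ds b φ ω F (SE b R ((K + 1) * (M * n)) (rt K M n) (hq R y))) / 256 ^ j) := by
  classical
  -- it is enough to treat `q < q'`
  have key : ∀ q q' : ℕ, q ∈ Ico (β * 512 ^ j) ((β + 2) * 512 ^ j) →
      q' ∈ Ico (β * 512 ^ j) ((β + 2) * 512 ^ j) → q < q' →
      (sh (hq R q) ω, sh (hq R q') ω) ∈ Un b K R c C m M n →
      (φ (rt K M n, hq R q) - φ (rt K M n, hq R q')) ^ 2 ≤
      3 * (4 * (2 * C / c ^ 2 + 1 / 2) * Lt b K R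
        * (Ds b φ ω F (SE b R ((K + 1) * (M * n)) (rt K M n) (hq R q))
          + Ds b φ ω F (SE b R ((K + 1) * (M * n)) (rt K M n) (hq R q')))
        + (∑ y ∈ Ico (β * 512 ^ j) ((β + 2) * 512 ^ j),
          Ds b φ ω F (SE b R ((K + 1) * (M * n)) (rt K M n) (hq R y))) / 256 ^ j) := by
    intro q q' h1 h2 hlt hU
    rw [Finset.mem_Ico] at h1 h2
    have hw : (β + 2) * 512 ^ j ≤ (8 ^ j + 1) * 512 ^ j := Nat.mul_le_mul_right _ (by omega)
    have hw2 : (β + 2) * 512 ^ j = β * 512 ^ j + 2 * 512 ^ j := by ring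
    obtain ⟨S, hS⟩ := hω q (Finset.mem_range.2 (by omega)) q' (Finset.mem_range.2 (by omega)) hlt
      (by omega) hU
    have hlt' := hq_lt (R := R) hlt
    have hle : hq R q ≤ hq R q' := by
      have := Int.natCast_nonneg R
      omega
    set len := (hq R q' - hq R q).toNat with hlen
    have hlenb : len ≤ 2 * 512 ^ j * (2 * R + 1) := by
      have h3 : hq R q' - hq R q = ((q' - q : ℕ) : ℤ) * (2 * (R : ℤ) + 1) := by
        unfold hq
        rw [Nat.cast_sub hlt.le]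
        ring
      have h4 : hq R q' - hq R q = (((q' - q) * (2 * R + 1) : ℕ) : ℤ) := by
        rw [h3]; push_cast; ring
      rw [hlen, h4, Int.toNat_natCast]
      exact Nat.mul_le_mul_right _ (by omega)
    have hp0' : (0 : ℝ) < p := by exact_mod_cast hp0
    have hBpos : 0 < (p : ℝ) ^ len * (c * m ^ (M * n)) / 2 := by positivity
    refine (link_ineq hb hF hBpos hle hS).trans ?_
    have hC2 : (0 : ℝ) ≤ 4 * (2 * C / c ^ 2 + 1 / 2) := by positivity
    have hcol : Ds b φ ω F (CE b ((K + 1) * (M * n)) (rt K M n) (hq R q) (hq R q'))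
        ≤ ∑ y ∈ Ico (β * 512 ^ j) ((β + 2) * 512 ^ j),
          Ds b φ ω F (SE b R ((K + 1) * (M * n)) (rt K M n) (hq R y)) := by
      simp only [Ds_def]
      rw [Finset.sum_comm]
      refine Finset.sum_le_sum fun e _ => ?_
      have hn0 : ∀ y ∈ Ico (β * 512 ^ j) ((β + 2) * 512 ^ j), (0 : ℝ) ≤
          if e ∈ SE b R ((K + 1) * (M * n)) (rt K M n) (hq R y) then we b φ ω e else 0 := by
        intro y _
        split_ifs
        · exact we_nonneg _ _ _ _
        · exact le_rfl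
      by_cases he : e ∈ CE b ((K + 1) * (M * n)) (rt K M n) (hq R q) (hq R q')
      · rw [if_pos he]
        obtain ⟨h3, h4, h5⟩ := he
        -- the slab of `e`
        set H : ℤ := 2 * (R : ℤ) + 1 with hH
        have hHpos : 0 < H := by positivity
        set yz : ℤ := (e.1.2 + R) / H with hyz
        have hy1 : yz * H ≤ e.1.2 + R := Int.ediv_mul_le _ hHpos.ne'
        have hy2 : e.1.2 + R < (yz + 1) * H := Int.lt_ediv_add_one_mul_self _ hHpos
        have hR0 := Int.natCast_nonneg R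
        have hyq : (q : ℤ) ≤ yz := by
          rw [hyz, Int.le_ediv_iff_mul_le hHpos]
          have : (q : ℤ) * H = hq R q := rfl
          rw [this]; omega
        have hyq' : yz ≤ (q' : ℤ) := by
          have h6 : yz * H < ((q' : ℤ) + 1) * H := by
            have : (q' : ℤ) * H = hq R q' := rfl
            rw [add_mul, this, one_mul]
            omega
          have := lt_of_mul_lt_mul_right h6 hHpos.le
          omega
        set y := yz.toNat with hy
        have hycast : (y : ℤ) = yz := Int.toNat_of_nonneg (by omega)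
        have hhy : hq R y = yz * H := by unfold hq; rw [hycast]
        have hmem : y ∈ Ico (β * 512 ^ j) ((β + 2) * 512 ^ j) := by
          rw [Finset.mem_Ico]; omega
        refine le_trans ?_ (Finset.single_le_sum hn0 hmem)
        rw [if_pos]
        refine ⟨h3, ?_, ?_⟩
        · rw [hhy]; omega
        · rw [hhy]
          rw [add_mul, one_mul] at hy2
          omega
      · rw [if_neg he]
        exact Finset.sum_nonneg hn0
    have hcn := Ds_nonneg b φ ω F (CE b ((K + 1) * (M * n)) (rt K M n) (hq R q) (hq R q'))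
    have hb1 := hbig len hlenb
    have hb0 : 0 ≤ (len : ℝ) / ((p : ℝ) ^ len * (c * m ^ (M * n)) / 2) := by positivity
    refine mul_le_mul_of_nonneg_left (add_le_add le_rfl ?_) (by norm_num)
    calc (len : ℝ) / ((p : ℝ) ^ len * (c * m ^ (M * n)) / 2)
          * Ds b φ ω F (CE b ((K + 1) * (M * n)) (rt K M n) (hq R q) (hq R q'))
        ≤ (1 / 256 ^ j) * ∑ y ∈ Ico (β * 512 ^ j) ((β + 2) * 512 ^ j),
          Ds b φ ω F (SE b R ((K + 1) * (M * n)) (rt K M n) (hq R y)) :=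
          mul_le_mul hb1 hcol hcn (by positivity)
      _ = _ := by ring
  rcases lt_or_gt_of_ne hne with h | h
  · exact key q q' hqI hqI' h hU
  · have h1 := key q' q hqI' hqI h (U_symm hU)
    have e1 : (φ (rt K M n, hq R q) - φ (rt K M n, hq R q')) ^ 2
        = (φ (rt K M n, hq R q') - φ (rt K M n, hq R q)) ^ 2 := by ring
    rw [e1, add_comm (Ds b φ ω F (SE b R ((K + 1) * (M * n)) (rt K M n) (hq R q)))]
    exact h1

/-- the constant -/
noncomputable def C3 (b K R : ℕ) (c C : ℝ) (M : ℕ) : ℝ :=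
  6 * (4 * (2 * C / c ^ 2 + 1 / 2) * Lt b K R) + 12 + (3 * ((K + 1) * M + 2) : ℕ)

/-- two good slabs of a double block -/
theorem good_ineq (hb : 2 ≤ b) (hc : 0 < c) (hC : 0 ≤ C) (hp0 : 0 < p) (hm : 0 < m) {j n : ℕ}
    (hbig : ∀ len : ℕ, len ≤ 2 * 512 ^ j * (2 * R + 1) →
      (len : ℝ) / ((p : ℝ) ^ len * (c * m ^ (M * n)) / 2) ≤ 1 / 256 ^ j)
    {ω : Cf} (hωA : ω ∈ EvA b K R p hp a c C m M j n) (hω : ω ∈ EvC b K R p c C m M j n)
    {φ : Vx → ℝ} {F : Finset Ed}
    (hF : ∀ e, e ∉ F → we b φ ω e = 0) {β : ℕ} (hβ : β < 8 ^ j) {q q' : ℕ}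
    (hqI : q ∈ Ico (β * 512 ^ j) ((β + 2) * 512 ^ j))
    (hqI' : q' ∈ Ico (β * 512 ^ j) ((β + 2) * 512 ^ j))
    (hqG : sh (hq R q) ω ∈ Gn b K R p hp a c C m M n)
    (hqG' : sh (hq R q') ω ∈ Gn b K R p hp a c C m M n) :
    (φ (rt K M n, hq R q) - φ (rt K M n, hq R q')) ^ 2 ≤
      C3 b K R c C M *
        (Ds b φ ω F (SE b R ((K + 1) * (M * n)) (rt K M n) (hq R q))
          + Ds b φ ω F (SE b R ((K + 1) * (M * n)) (rt K M n) (hq R q'))
        + (∑ y ∈ Ico (β * 512 ^ j) ((β + 2) * 512 ^ j),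
          Ds b φ ω F (SE b R ((K + 1) * (M * n)) (rt K M n) (hq R y))) / 256 ^ j) := by
  classical
  set e : ℕ → ℝ := fun y => Ds b φ ω F (SE b R ((K + 1) * (M * n)) (rt K M n) (hq R y)) with he
  have he0 : ∀ y, 0 ≤ e y := fun y => Ds_nonneg _ _ _ _ _
  set EI := ∑ y ∈ Ico (β * 512 ^ j) ((β + 2) * 512 ^ j), e y with hEI
  have hEI0 : 0 ≤ EI := Finset.sum_nonneg fun y _ => he0 y
  set A : ℝ := 4 * (2 * C / c ^ 2 + 1 / 2) * Lt b K R with hA
  have hA0 : 0 ≤ A := by rw [hA]; positivity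
  set N : ℝ := 256 ^ j with hN
  have hN0 : 0 < N := by rw [hN]; positivity
  have hC3 : C3 b K R c C M = 6 * A + 12 + (3 * ((K + 1) * M + 2) : ℕ) := rfl
  have hLk0 : (0 : ℝ) ≤ (3 * ((K + 1) * M + 2) : ℕ) := Nat.cast_nonneg _
  have hC30 : 0 ≤ C3 b K R c C M := by rw [hC3]; linarith
  by_cases hqq : q = q'
  · have h0 := he0 q'
    have h1 : 0 ≤ EI / N := div_nonneg hEI0 hN0.le
    have h2 : (φ (rt K M n, hq R q) - φ (rt K M n, hq R q')) ^ 2 = 0 := by
      rw [hqq, sub_self]; norm_num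
    rw [h2, hqq]
    have h3 : 0 ≤ e q' + e q' + EI / N := add_nonneg (add_nonneg h0 h0) h1
    exact mul_nonneg hC30 h3
  have hex := hωA β hβ q hqI q' hqI' hqq hqG hqG'
  choose! y hy1 hy2 hy3 hy4 hy5 using hex
  set f : ℕ → ℝ := fun q => φ (rt K M n, hq R q) with hf
  -- the cells are in the double block
  have hcell : ∀ x ∈ Ico (β * 256 ^ j) ((β + 2) * 256 ^ j),
      y x ∈ Ico (β * 512 ^ j) ((β + 2) * 512 ^ j) := by
    intro x hx
    have h1 := hy1 x hx
    rw [Finset.mem_Ico] at hx h1 ⊢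
    rw [pow_512]
    constructor
    · calc β * (256 ^ j * 2 ^ j) = (β * 256 ^ j) * 2 ^ j := by ring
        _ ≤ x * 2 ^ j := Nat.mul_le_mul_right _ hx.1
        _ ≤ y x := h1.1
    · calc y x < (x + 1) * 2 ^ j := h1.2
        _ ≤ ((β + 2) * 256 ^ j) * 2 ^ j := Nat.mul_le_mul_right _ hx.2
        _ = _ := by ring
  have h1 : ∀ x ∈ Ico (β * 256 ^ j) ((β + 2) * 256 ^ j), (f q - f q') ^ 2 ≤
      6 * A * (e q + e q') + 12 * A * e (y x) + 12 * (EI / N) := by
    intro x hx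
    have g1 := rel_ineq hb hc hC hp0 hm hbig hω hF hβ hqI (hcell x hx) (Ne.symm (hy2 x hx))
      (hy4 x hx)
    have g2 := rel_ineq hb hc hC hp0 hm hbig hω hF hβ hqI' (hcell x hx) (Ne.symm (hy3 x hx))
      (hy5 x hx)
    have g3 : (f q - f q') ^ 2 ≤ 2 * (f q - f (y x)) ^ 2 + 2 * (f q' - f (y x)) ^ 2 := by
      nlinarith [sq_nonneg ((f q - f (y x)) + (f q' - f (y x)))]
    have g1' : (f q - f (y x)) ^ 2 ≤ 3 * (A * (e q + e (y x)) + EI / N) := g1
    have g2' : (f q' - f (y x)) ^ 2 ≤ 3 * (A * (e q' + e (y x)) + EI / N) := g2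
    nlinarith
  have h2 := Finset.sum_le_sum h1
  have hcard : (Ico (β * 256 ^ j) ((β + 2) * 256 ^ j)).card = 2 * 256 ^ j := by
    rw [Nat.card_Ico]
    have : (β + 2) * 256 ^ j = β * 256 ^ j + 2 * 256 ^ j := by ring
    omega
  rw [Finset.sum_const, Finset.sum_add_distrib, Finset.sum_add_distrib, Finset.sum_const,
    Finset.sum_const, hcard, ← Finset.mul_sum, nsmul_eq_mul, nsmul_eq_mul, nsmul_eq_mul] at h2
  have hcast : ((2 * 256 ^ j : ℕ) : ℝ) = 2 * N := by rw [hN]; push_cast; ring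
  rw [hcast] at h2
  -- distinct cells
  have h3 : ∑ x ∈ Ico (β * 256 ^ j) ((β + 2) * 256 ^ j), e (y x) ≤ EI := by
    have hinj : Set.InjOn y (Ico (β * 256 ^ j) ((β + 2) * 256 ^ j) : Set ℕ) := by
      intro x hx x' hx' hxx
      have a1 := Finset.mem_Ico.1 (hy1 x hx)
      have a2 := Finset.mem_Ico.1 (hy1 x' hx')
      by_contra hne
      rcases Nat.lt_or_gt_of_ne hne with h | h
      · have h2 : (x + 1) * 2 ^ j ≤ x' * 2 ^ j := Nat.mul_le_mul_right _ h
        omega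
      · have h2 : (x' + 1) * 2 ^ j ≤ x * 2 ^ j := Nat.mul_le_mul_right _ h
        omega
    rw [← Finset.sum_image (f := e) hinj]
    refine Finset.sum_le_sum_of_subset_of_nonneg ?_ fun y _ _ => he0 y
    intro t ht
    obtain ⟨x, hx, rfl⟩ := Finset.mem_image.1 ht
    exact hcell x hx
  have h4 : 2 * N * (f q - f q') ^ 2 ≤ 2 * N * (6 * A * (e q + e q') + (6 * A + 12) * (EI / N)) := by
    have e1 : 2 * N * (12 * (EI / N)) = 24 * EI := by field_simp; ring
    have e2 : 2 * N * (6 * A * (e q + e q') + (6 * A + 12) * (EI / N))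
        = 2 * N * (6 * A * (e q + e q')) + 12 * A * EI + 24 * EI := by
      field_simp
      ring
    rw [e2]
    rw [e1] at h2
    have h5 : 12 * A * ∑ x ∈ Ico (β * 256 ^ j) ((β + 2) * 256 ^ j), e (y x) ≤ 12 * A * EI :=
      mul_le_mul_of_nonneg_left h3 (by positivity)
    linarith
  have h5 : (f q - f q') ^ 2 ≤ 6 * A * (e q + e q') + (6 * A + 12) * (EI / N) :=
    le_of_mul_le_mul_left h4 (by positivity)
  show (f q - f q') ^ 2 ≤ C3 b K R c C M * (e q + e q' + EI / N)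
  refine h5.trans ?_
  rw [hC3]
  have a1 := he0 q
  have a2 := he0 q'
  have h6 : 0 ≤ EI / N := div_nonneg hEI0 hN0.le
  have h7 := mul_nonneg hLk0 a1
  have h8 := mul_nonneg hLk0 a2
  have h9 := mul_nonneg hLk0 h6
  generalize ((3 * ((K + 1) * M + 2) : ℕ) : ℝ) = L at *
  generalize EI / N = T at *
  generalize e q = u at *
  generalize e q' = v at *
  nlinarith [mul_nonneg hA0 a1, mul_nonneg hA0 a2, mul_nonneg hA0 h6]

/-- **the deterministic conclusion** for the success event -/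
theorem det (hb : 2 ≤ b) (hc : 0 < c) (hC : 0 ≤ C) (hp0 : 0 < p) (hm : 0 < m) (hM : 1 ≤ M)
    {j0 : ℕ} (hbig : ∀ j, j0 ≤ j → ∀ n, 512 ^ j ≤ n → ∀ len : ℕ,
      len ≤ 2 * 512 ^ j * (2 * R + 1) →
      (len : ℝ) / ((p : ℝ) ^ len * (c * m ^ (M * n)) / 2) ≤ 1 / 256 ^ j)
    {ω : Cf} (hω : ω ∈ Su b K R p hp a c C m M j0) {φ : Vx → ℝ}
    (hφ : (Function.support φ).Finite) {F : Finset Ed}
    (hF : ∀ e, e ∉ F → we b φ ω e = 0) :
    φ (par b (rt K M (512 ^ j0)), 0) ^ 2 ≤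
      (2 + 800000 * C3 b K R c C M) * Ds b φ ω F (edg b WC) := by
  classical
  obtain ⟨hS1, hS2, hS3⟩ := hω
  have hex : ∀ n j x : ℕ, (j0 ≤ j ∧ 512 ^ j ≤ n ∧ n ≤ 512 ^ (j + 1) ∧ x < 2048 ^ j) →
      ∃ y ∈ Ico (x * 2 ^ j) ((x + 1) * 2 ^ j), sh (hq R y) ω ∈ Bn b K R p hp a c C m M n := by
    rintro n j x ⟨h1, h2, h3, h4⟩
    exact (hS3 j h1 n h2 h3).2.2 x (Finset.mem_range.2 h4)
  choose! s hs1 hs2 using hex
  set D : ℝ := 4 * Ds b φ ω F (edg b WC) with hD
  have hDs0 := Ds_nonneg b φ ω F (edg b WC)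
  have hC30 : 0 ≤ C3 b K R c C M := by
    unfold C3
    positivity
  have hCL : ((3 * ((K + 1) * M + 2) : ℕ) : ℝ) ≤ C3 b K R c C M := by
    unfold C3
    have : (0 : ℝ) ≤ 6 * (4 * (2 * C / c ^ 2 + 1 / 2) * Lt b K R) + 12 := by positivity
    linarith
  have hcd : CellData (C3 b K R c C M) D j0 (fun n q => φ (rt K M n, hq R q))
      (fun n q => Ds b φ ω F (SE b R ((K + 1) * (M * n)) (rt K M n) (hq R q)))
      (fun n q => Ds b φ ω F (LE K M n (hq R q)))
      (fun n => {q | sh (hq R q) ω ∈ Gn b K R p hp a c C m M n}) s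
      (fun n => Ds b φ ω F (GE b K M n) + Ds b φ ω F (LKE K M n)) := by
    refine ⟨hC30, fun n y => Ds_nonneg _ _ _ _ _, fun n y => Ds_nonneg _ _ _ _ _,
      fun n Y => stage_tot n Y, fun N => all_tot hb hM N, ?_, ?_⟩
    · intro j hj n hn hn' β hβ q hqG q' hqG' hqI hqI'
      obtain ⟨h1, h2, _⟩ := hS3 j hj n hn hn'
      exact good_ineq hb hc hC hp0 hm (hbig j hj n hn) h1 h2 hF hβ hqI hqI' hqG hqG'
    · intro j hj n hn hn' x hx
      have h1 := hs1 n j x ⟨hj, hn, hn', hx⟩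
      have h2 := hs2 n j x ⟨hj, hn, hn', hx⟩
      rw [Finset.mem_Ico] at h1
      refine ⟨h1.1, h1.2, h2.1.1, h2.1.2, ?_⟩
      refine (chain_ineq hb hF h2.2).trans ?_
      exact mul_le_mul_of_nonneg_right hCL (Ds_nonneg _ _ _ _ _)
  -- the test function vanishes at high levels
  have hz : ∃ N, ∀ n, N ≤ n → ∀ q, φ (rt K M n, hq R q) = 0 := by
    obtain ⟨B, hB⟩ := (hφ.image (fun x : Vx => x.1.1)).bddAbove
    refine ⟨(B + 1).toNat, fun n hn q => ?_⟩
    by_contra hne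
    have h1 : (rt K M n).1 ≤ B := hB ⟨(rt K M n, hq R q), hne, rfl⟩
    have h2 : ((lv K M n : ℕ) : ℤ) ≤ B := h1
    have h3 : n ≤ lv K M n := by
      unfold lv
      have h4 : 1 ≤ (K + 1) * M := Nat.mul_pos (Nat.succ_pos K) hM
      calc n = 1 * n := (one_mul n).symm
        _ ≤ (K + 1) * M * n := Nat.mul_le_mul_right _ h4
        _ = _ := by ring
    have h4 : B + 1 ≤ ((B + 1).toNat : ℤ) := Int.self_le_toNat _
    omega
  have h0 : (0 : ℕ) ∈ {q : ℕ | sh (hq R q) ω ∈ Gn b K R p hp a c C m M (512 ^ j0)} := by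
    show sh (hq R 0) ω ∈ Gn b K R p hp a c C m M (512 ^ j0)
    have : sh (hq R 0) ω = ω := by
      unfold sh hq
      simp
    rw [this]
    exact hS1
  have h1 := hcd.final hz 0 h0 (by positivity)
  have h2 : hq R 0 = 0 := by simp [hq]
  simp only [h2] at h1
  -- the first edge
  have h3 : (φ (rt K M (512 ^ j0), 0) - φ (par b (rt K M (512 ^ j0)), 0)) ^ 2
      ≤ Ds b φ ω F (edg b WC) := by
    have h4 : (φ (rt K M (512 ^ j0), 0) - φ (par b (rt K M (512 ^ j0)), 0)) ^ 2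
        = ∑ e ∈ {(((rt K M (512 ^ j0), 0), false) : Ed)}, we b φ ω e := by
      rw [Finset.sum_singleton]
      unfold we
      rw [if_pos hS2]
      simp [hd]
    rw [h4]
    refine sum_le_Ds hF _ fun e he => ?_
    rw [Finset.mem_singleton] at he
    subst he
    refine GE_sub (K := K) (M := M) (n := 512 ^ j0) ⟨0, Nat.zero_le _, rfl⟩
  have h4 : φ (par b (rt K M (512 ^ j0)), 0) ^ 2 ≤
      2 * (φ (rt K M (512 ^ j0), 0) - φ (par b (rt K M (512 ^ j0)), 0)) ^ 2
      + 2 * φ (rt K M (512 ^ j0), 0) ^ 2 := by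
    nlinarith [sq_nonneg ((φ (rt K M (512 ^ j0), 0) - φ (par b (rt K M (512 ^ j0)), 0))
      - (-(φ (rt K M (512 ^ j0), 0)) + 0)),
      sq_nonneg ((φ (rt K M (512 ^ j0), 0) - φ (par b (rt K M (512 ^ j0)), 0))
      + φ (rt K M (512 ^ j0), 0)), sq_nonneg ((φ (rt K M (512 ^ j0), 0)
      - φ (par b (rt K M (512 ^ j0)), 0)) - φ (rt K M (512 ^ j0), 0))]
  rw [hD] at h1
  nlinarith [mul_nonneg hC30 hDs0]

end Events

end Pool.Agent.H954.TR
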