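import Mathlib

set_option autoImplicit false

/-! # Simple random walk on a locally finite graph and the capacity criterion -/

namespace Pool.Agent.H954.TR

open Classical in
/-- The law at time `n` of the simple random walk on `H` started at `x`: at every step the walk
moves from its position `z` to a neighbour of `z` chosen uniformly at random. -/
noncomputable def srw {V : Type} (H : SimpleGraph V) (x : V) : ℕ → V → ℝ
  | 0, y => if y = x then 1 else 0
  | n + 1, y => ∑ᶠ z ∈ H.neighborSet y, srw H x n z / ((H.neighborSet z).ncard : ℝ)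

/-- The simple random walk on `H` started at `x` is transient: the expected number of visits to
`x` is finite. -/
def Transient {V : Type} (H : SimpleGraph V) (x : V) : Prop :=
  Summable fun n : ℕ => srw H x n x

section

variable {V : Type} (H : SimpleGraph V) (hfin : ∀ x, (H.neighborSet x).Finite) (x : V)

include hfin in
theorem srw_succ (n : ℕ) (y : V) :
    srw H x (n + 1) y
      = ∑ z ∈ (hfin y).toFinset, srw H x n z / ((H.neighborSet z).ncard : ℝ) := by
  show (∑ᶠ z ∈ H.neighborSet y, srw H x n z / ((H.neighborSet z).ncard : ℝ)) = _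
  rw [finsum_mem_eq_finite_toFinset_sum _ (hfin y)]

include hfin in
theorem srw_nonneg (n : ℕ) (y : V) : 0 ≤ srw H x n y := by
  classical
  induction n generalizing y with
  | zero =>
    show (0 : ℝ) ≤ if y = x then 1 else 0
    split_ifs <;> norm_num
  | succ n ih =>
    rw [srw_succ H hfin]
    exact Finset.sum_nonneg fun z _ => div_nonneg (ih z) (Nat.cast_nonneg _)

include hfin in
theorem srw_supp (n : ℕ) : (Function.support (srw H x n)).Finite := by
  classical
  induction n with
  | zero =>
    refine (Set.finite_singleton x).subset ?_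
    intro y hy
    by_contra h
    exact hy (if_neg h)
  | succ n ih =>
    refine (Set.Finite.biUnion ih fun z _ => hfin z).subset ?_
    intro y hy
    rw [Function.mem_support, srw_succ H hfin] at hy
    obtain ⟨z, hz, hz2⟩ := Finset.exists_ne_zero_of_sum_ne_zero hy
    rw [Set.Finite.mem_toFinset] at hz
    refine Set.mem_biUnion (x := z) ?_ ?_
    · intro h
      exact hz2 (by rw [h, zero_div])
    · exact SimpleGraph.Adj.symm hz

include hfin in
/-- the energy of a finitely supported function -/
theorem energy_le (φ : V → ℝ) (S : Finset V) (hS : ∀ y, y ∉ S → φ y = 0)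
    (P : Finset (V × V)) (hP : ∀ q ∈ P, H.Adj q.1 q.2) :
    ∑ q ∈ P, (φ q.1 - φ q.2) ^ 2 ≤
      2 * ∑ y ∈ S, φ y * (((H.neighborSet y).ncard : ℝ) * φ y
        - ∑ z ∈ (hfin y).toFinset, φ z) := by
  classical
  set A : Finset V := S ∪ S.biUnion (fun y => (hfin y).toFinset) with hA
  have hSA : S ⊆ A := Finset.subset_union_left
  have hNA : ∀ y ∈ S, (hfin y).toFinset ⊆ A := fun y hy =>
    (Finset.subset_biUnion_of_mem (fun y => (hfin y).toFinset) hy).trans Finset.subset_union_right
  set a : V → V → ℝ := fun y z => if H.Adj y z then 1 else 0 with ha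
  have ha0 : ∀ y z, 0 ≤ a y z := fun y z => by simp only [ha]; split_ifs <;> norm_num
  have hsym : ∀ y z, a y z = a z y := fun y z => by simp only [ha, H.adj_comm]
  have h1 : ∑ q ∈ P, (φ q.1 - φ q.2) ^ 2 ≤ ∑ q ∈ A ×ˢ A, a q.1 q.2 * (φ q.1 - φ q.2) ^ 2 := by
    have e1 : ∑ q ∈ P, (φ q.1 - φ q.2) ^ 2
        = ∑ q ∈ P with q ∈ A ×ˢ A, (φ q.1 - φ q.2) ^ 2 := by
      symm
      refine Finset.sum_subset (Finset.filter_subset _ _) ?_
      intro q hq hq2
      rw [Finset.mem_filter, not_and] at hq2
      have hq3 := hq2 hq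
      have hadj := hP q hq
      have h1 : φ q.1 = 0 := by
        by_contra hne
        have h2 : q.1 ∈ S := by
          by_contra h3; exact hne (hS _ h3)
        refine hq3 (Finset.mem_product.2 ⟨hSA h2, hNA _ h2 ?_⟩)
        rw [Set.Finite.mem_toFinset]; exact hadj
      have h2 : φ q.2 = 0 := by
        by_contra hne
        have h2 : q.2 ∈ S := by
          by_contra h3; exact hne (hS _ h3)
        refine hq3 (Finset.mem_product.2 ⟨hNA _ h2 ?_, hSA h2⟩)
        rw [Set.Finite.mem_toFinset]; exact hadj.symm
      rw [h1, h2]; ring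
    rw [e1]
    calc ∑ q ∈ P with q ∈ A ×ˢ A, (φ q.1 - φ q.2) ^ 2
        = ∑ q ∈ P with q ∈ A ×ˢ A, a q.1 q.2 * (φ q.1 - φ q.2) ^ 2 := by
          refine Finset.sum_congr rfl fun q hq => ?_
          have := hP q (Finset.mem_filter.1 hq).1
          simp only [ha, this, if_true, one_mul]
      _ ≤ _ := by
          refine Finset.sum_le_sum_of_subset_of_nonneg ?_ ?_
          · intro q hq; exact (Finset.mem_filter.1 hq).2
          · intro q _ _; exact mul_nonneg (ha0 _ _) (sq_nonneg _)
  refine h1.trans (le_of_eq ?_)
  rw [Finset.sum_product]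
  have h2 : ∀ y, ∑ z ∈ A, a y z * (φ y - φ z) ^ 2
      = φ y ^ 2 * ∑ z ∈ A, a y z + ∑ z ∈ A, a y z * φ z ^ 2 - 2 * (φ y * ∑ z ∈ A, a y z * φ z) := by
    intro y
    rw [Finset.mul_sum, Finset.mul_sum, Finset.mul_sum, ← Finset.sum_add_distrib,
      ← Finset.sum_sub_distrib]
    refine Finset.sum_congr rfl fun z _ => ?_
    ring
  simp only [h2, Finset.sum_add_distrib, Finset.sum_sub_distrib]
  have h3 : ∑ y ∈ A, ∑ z ∈ A, a y z * φ z ^ 2 = ∑ y ∈ A, φ y ^ 2 * ∑ z ∈ A, a y z := by
    rw [Finset.sum_comm]
    refine Finset.sum_congr rfl fun y _ => ?_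
    rw [Finset.mul_sum]
    refine Finset.sum_congr rfl fun z _ => ?_
    rw [hsym, mul_comm]
  rw [h3]
  have h4 : ∀ f : V → ℝ, (∀ y, y ∉ S → f y = 0) → ∑ y ∈ A, f y = ∑ y ∈ S, f y := by
    intro f hf
    symm
    exact Finset.sum_subset hSA fun y _ hy => hf y hy
  rw [h4 (fun y => φ y ^ 2 * ∑ z ∈ A, a y z) (fun y hy => by simp only [hS y hy]; ring),
    h4 (fun y => 2 * (φ y * ∑ z ∈ A, a y z * φ z)) (fun y hy => by simp only [hS y hy]; ring)]
  rw [← Finset.sum_add_distrib, ← Finset.sum_sub_distrib, Finset.mul_sum]
  refine Finset.sum_congr rfl fun y hy => ?_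
  have h5 : ∑ z ∈ A, a y z = ((H.neighborSet y).ncard : ℝ) := by
    rw [Set.ncard_eq_toFinset_card _ (hfin y), Finset.card_eq_sum_ones]
    push_cast
    symm
    rw [← Finset.sum_subset (hNA y hy) (f := fun z => a y z)]
    · refine Finset.sum_congr rfl fun z hz => ?_
      rw [Set.Finite.mem_toFinset, SimpleGraph.mem_neighborSet] at hz
      simp only [ha]
      rw [if_pos hz]
    · intro z _ hz
      rw [Set.Finite.mem_toFinset, SimpleGraph.mem_neighborSet] at hz
      simp only [ha]
      rw [if_neg hz]
  have h6 : ∑ z ∈ A, a y z * φ z = ∑ z ∈ (hfin y).toFinset, φ z := by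
    rw [← Finset.sum_subset (hNA y hy) (f := fun z => a y z * φ z)]
    · refine Finset.sum_congr rfl fun z hz => ?_
      rw [Set.Finite.mem_toFinset, SimpleGraph.mem_neighborSet] at hz
      simp only [ha]
      rw [if_pos hz, one_mul]
    · intro z _ hz
      rw [Set.Finite.mem_toFinset, SimpleGraph.mem_neighborSet] at hz
      simp only [ha]
      rw [if_neg hz, zero_mul]
  rw [h5, h6]
  ring

include hfin in
/-- **Capacity criterion**: if `φ(x)² ≤ C D` for every finitely supported `φ` of Dirichlet energy
at most `D`, then the simple random walk started at `x` is transient. -/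
theorem transient_of_cap (C : ℝ)
    (hC : ∀ φ : V → ℝ, (Function.support φ).Finite → ∀ D : ℝ,
      (∀ P : Finset (V × V), (∀ q ∈ P, H.Adj q.1 q.2) → ∑ q ∈ P, (φ q.1 - φ q.2) ^ 2 ≤ D) →
      φ x ^ 2 ≤ C * D) : Transient H x := by
  classical
  unfold Transient
  set dg : V → ℝ := fun z => ((H.neighborSet z).ncard : ℝ) with hdg
  have hu0 := srw_nonneg H hfin x
  by_cases hx : (H.neighborSet x).ncard = 0
  · refine summable_of_ne_finset_zero (s := {0}) ?_
    intro n hn
    rw [Finset.mem_singleton] at hn
    obtain ⟨k, rfl⟩ := Nat.exists_eq_succ_of_ne_zero hn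
    rw [Nat.succ_eq_add_one, srw_succ H hfin]
    have : (hfin x).toFinset = ∅ := by
      rw [Set.ncard_eq_toFinset_card _ (hfin x), Finset.card_eq_zero] at hx
      exact hx
    rw [this, Finset.sum_empty]
  have hdx : 0 < dg x := by
    simp only [hdg]
    exact_mod_cast Nat.pos_of_ne_zero hx
  -- vertices of degree 0 are never visited
  have hz : ∀ n y, dg y = 0 → srw H x n y = 0 := by
    intro n y hy
    cases n with
    | zero =>
      have : y ≠ x := by
        rintro rfl
        exact hdx.ne' hy
      exact if_neg this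
    | succ n =>
      rw [srw_succ H hfin]
      have : (hfin y).toFinset = ∅ := by
        have h1 : (H.neighborSet y).ncard = 0 := by
          simp only [hdg] at hy
          exact_mod_cast hy
        rw [Set.ncard_eq_toFinset_card _ (hfin y), Finset.card_eq_zero] at h1
        exact h1
      rw [this, Finset.sum_empty]
  set g : ℕ → V → ℝ := fun N y => ∑ n ∈ Finset.range N, srw H x n y / dg y with hg
  have hg0 : ∀ N y, 0 ≤ g N y := fun N y =>
    Finset.sum_nonneg fun n _ => div_nonneg (hu0 n y) (Nat.cast_nonneg _)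
  have hgd : ∀ N y, dg y * g N y = ∑ n ∈ Finset.range N, srw H x n y := by
    intro N y
    simp only [hg]
    rw [Finset.mul_sum]
    refine Finset.sum_congr rfl fun n _ => ?_
    by_cases hy : dg y = 0
    · rw [hz n y hy, hy]; simp
    · field_simp
  have hgn : ∀ N y, ∑ z ∈ (hfin y).toFinset, g N z = ∑ n ∈ Finset.range N, srw H x (n + 1) y := by
    intro N y
    simp only [hg]
    rw [Finset.sum_comm]
    refine Finset.sum_congr rfl fun n _ => ?_
    rw [srw_succ H hfin]
  have hlap : ∀ N y, dg y * g N y - ∑ z ∈ (hfin y).toFinset, g N z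
      = srw H x 0 y - srw H x N y := by
    intro N y
    rw [hgd, hgn, ← Finset.sum_sub_distrib]
    exact Finset.sum_range_sub' (fun n => srw H x n y) N
  have hsupp : ∀ N, (Function.support (g N)).Finite := by
    intro N
    refine (Set.Finite.biUnion (Finset.range N).finite_toSet
      fun n _ => srw_supp H hfin x n).subset ?_
    intro y hy
    obtain ⟨n, hn, hn2⟩ := Finset.exists_ne_zero_of_sum_ne_zero hy
    refine Set.mem_biUnion (x := n) hn ?_
    intro h
    exact hn2 (by rw [h, zero_div])
  have hgx : ∀ N, g N x ≤ 2 * |C| := by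
    intro N
    have hE := hC (g N) (hsupp N) (2 * g N x) (fun P hP => by
      have h1 := energy_le H hfin (g N) (hsupp N).toFinset
        (fun y hy => by
          rw [Set.Finite.mem_toFinset, Function.mem_support, not_not] at hy
          exact hy) P hP
      refine h1.trans (mul_le_mul_of_nonneg_left ?_ (by norm_num))
      calc ∑ y ∈ (hsupp N).toFinset, g N y * (((H.neighborSet y).ncard : ℝ) * g N y
            - ∑ z ∈ (hfin y).toFinset, g N z)
          ≤ ∑ y ∈ (hsupp N).toFinset, (if y = x then g N x else 0) := by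
            refine Finset.sum_le_sum fun y _ => ?_
            have h2 := hlap N y
            simp only [hdg] at h2
            rw [h2]
            have h3 : srw H x 0 y = if y = x then 1 else 0 := rfl
            rw [h3]
            split_ifs with h4
            · subst h4
              nlinarith [hg0 N y, hu0 N y]
            · nlinarith [hg0 N y, hu0 N y, mul_nonneg (hg0 N y) (hu0 N y)]
        _ ≤ g N x := by
            rw [Finset.sum_ite_eq']
            split_ifs
            · exact le_rfl
            · exact hg0 N x)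
    rcases (hg0 N x).eq_or_lt with h | h
    · rw [← h]; positivity
    · have h5 : g N x * g N x ≤ (2 * |C|) * g N x := by
        calc g N x * g N x = g N x ^ 2 := by ring
          _ ≤ C * (2 * g N x) := hE
          _ ≤ |C| * (2 * g N x) := mul_le_mul_of_nonneg_right (le_abs_self C) (by positivity)
          _ = _ := by ring
      exact le_of_mul_le_mul_right h5 h
  refine summable_of_sum_range_le (c := dg x * (2 * |C|)) (fun n => hu0 n x) ?_
  intro N
  rw [← hgd]
  exact mul_le_mul_of_nonneg_left (hgx N) hdx.le

end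

end Pool.Agent.H954.TR
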