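import Pool.Agent.H954.TR.Zero
import Pool.Agent.H954.TR.Walk
import Pool.Agent.Results.MP_3f1d68_pr.CanopyLineEqHalfLine

set_option autoImplicit false

/-! # Transfer to the graph and conclusion -/

namespace Pool.Agent.H954.TR

open MeasureTheory ProbabilityTheory Finset Filter
open scoped ENNReal NNReal
open Pool.Agent.Helper98K9.CP Pool.Agent.Helper98K9.CP.GwL Pool.Agent.Helper98K9.CP.TreeL
open Pool.Agent.Helper98K9.CP.CanL (lv rt lk lk_card)
open Pool.Agent.Results.MP_3f1d68_pr.CanopyLineEqHalfLine (tauZ emb_canopyZ Percolates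
  percolates_emb)

/-- the capacity inequality at `x` -/
def Cap (b : ℕ) (ω : Cf) (x : Vx) : Prop :=
  ∃ c : ℝ, 0 ≤ c ∧ ∀ φ : Vx → ℝ, (Function.support φ).Finite → ∀ F : Finset Ed,
    (∀ e, e ∉ F → we b φ ω e = 0) → φ x ^ 2 ≤ c * Ds b φ ω F (edg b WC)

/-- shift of an edge -/
def sE (h : ℤ) (e : Ed) : Ed := ((e.1.1, e.1.2 + h), e.2)

theorem sE_inj (h : ℤ) : Function.Injective (sE h) := by
  rintro ⟨⟨y, s⟩, c'⟩ ⟨⟨y', s'⟩, c''⟩ h1
  simp only [sE, Prod.mk.injEq] at h1
  obtain ⟨⟨rfl, h2⟩, rfl⟩ := h1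
  have : s = s' := by linarith
  rw [this]

theorem hd_sE (b : ℕ) (h : ℤ) (e : Ed) : hd b (sE h e) = ((hd b e).1, (hd b e).2 + h) := by
  obtain ⟨⟨y, s⟩, c⟩ := e
  cases c
  · simp [hd, sE]
  · simp only [hd, sE, if_true, Prod.mk.injEq, true_and]
    ring

theorem we_shift (b : ℕ) (φ : Vx → ℝ) (ω : Cf) (h : ℤ) (e : Ed) :
    we b (fun y => φ (y.1, y.2 + h)) (sh h ω) e = we b φ ω (sE h e) := by
  unfold we
  rw [hd_sE]
  rfl

theorem edg_sE (b : ℕ) (h : ℤ) (e : Ed) : sE h e ∈ edg b WC ↔ e ∈ edg b WC := by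
  unfold edg
  simp only [Set.mem_ofPred_eq]
  rw [hd_sE]
  rfl

theorem cap_shift {b : ℕ} {ω : Cf} {h t : ℤ} {u : Vt} (hc : Cap b (sh h ω) (u, t)) :
    Cap b ω (u, t + h) := by
  classical
  obtain ⟨c, hc0, hc⟩ := hc
  refine ⟨c, hc0, fun φ hφ F hF => ?_⟩
  have hsE : ∀ e, sE h (sE (-h) e) = e := by
    intro e
    simp [sE]
  have hsE' : ∀ e, sE (-h) (sE h e) = e := by
    intro e
    simp [sE]
  have h1 := hc (fun y => φ (y.1, y.2 + h)) ?_ (F.image (sE (-h))) ?_
  · refine h1.trans (le_of_eq ?_)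
    congr 1
    rw [Ds_def, Ds_def, Finset.sum_image (fun x _ y _ hxy => sE_inj _ hxy)]
    refine Finset.sum_congr rfl fun e _ => ?_
    rw [we_shift, hsE]
    have h2 : sE (-h) e ∈ edg b WC ↔ e ∈ edg b WC := edg_sE b (-h) e
    by_cases h3 : e ∈ edg b WC
    · rw [if_pos h3, if_pos (h2.2 h3)]
    · rw [if_neg h3, if_neg fun h4 => h3 (h2.1 h4)]
  · have hinj : Function.Injective (fun y : Vx => ((y.1, y.2 + h) : Vx)) := by
      intro y y' hy
      simp only [Prod.mk.injEq] at hy
      exact Prod.ext hy.1 (by linarith [hy.2])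
    exact hφ.preimage hinj.injOn
  · intro e he
    rw [we_shift]
    refine hF _ fun h2 => he ?_
    rw [Finset.mem_image]
    exact ⟨_, h2, hsE' e⟩

theorem cap_adj {b : ℕ} {ω : Cf} {x y : Vx} (hxy : (og b ω WC).Adj x y) (hc : Cap b ω y) :
    Cap b ω x := by
  classical
  obtain ⟨c, hc0, hc⟩ := hc
  refine ⟨2 + 2 * c, by positivity, fun φ hφ F hF => ?_⟩
  have h1 := hc φ hφ F hF
  have h2 : (φ x - φ y) ^ 2 ≤ Ds b φ ω F (edg b WC) := by
    obtain ⟨_, hx, hy, c', ⟨h3, h4⟩ | ⟨h3, h4⟩⟩ := hxy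
    · have h5 : (φ x - φ y) ^ 2 = ∑ e ∈ {((x, c') : Ed)}, we b φ ω e := by
        rw [Finset.sum_singleton]
        unfold we
        rw [if_pos h4, h3]
      rw [h5]
      refine sum_le_Ds hF _ fun e he => ?_
      rw [Finset.mem_singleton] at he
      subst he
      exact ⟨hx, by rw [h3]; exact hy⟩
    · have h5 : (φ x - φ y) ^ 2 = ∑ e ∈ {((y, c') : Ed)}, we b φ ω e := by
        rw [Finset.sum_singleton]
        unfold we
        rw [if_pos h4, h3]
        ring
      rw [h5]
      refine sum_le_Ds hF _ fun e he => ?_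
      rw [Finset.mem_singleton] at he
      subst he
      exact ⟨hy, by rw [h3]; exact hx⟩
  have h3 : φ x ^ 2 ≤ 2 * (φ x - φ y) ^ 2 + 2 * φ y ^ 2 := by
    nlinarith [sq_nonneg (φ x - 2 * φ y)]
  nlinarith

theorem cap_conn {b : ℕ} {ω : Cf} {x y : Vx} (hxy : Cn b ω WC x y) (hc : Cap b ω y) :
    Cap b ω x := by
  have h1 : Relation.ReflTransGen (og b ω WC).Adj x y :=
    (SimpleGraph.reachable_iff_reflTransGen _ _).1 hxy
  induction h1 using Relation.ReflTransGen.head_induction_on with
  | refl => exact hc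
  | head h2 h3 ih =>
    exact cap_adj h2 (ih ((SimpleGraph.reachable_iff_reflTransGen _ _).2 h3))

/-- **almost every infinite cluster satisfies the capacity inequality** -/
theorem ae_cap {b : ℕ} (hb : 2 ≤ b) (K R : ℕ) (p : ℝ≥0) (hp : p ≤ 1)
    (hmu : 1 < mu b K R p hp) (x : Vx) (hx : x ∈ WC) :
    ∀ᵐ ω ∂(PP Ed p hp), (cl b ω WC x).Infinite → Cap b ω x := by
  obtain ⟨a, c, C, M, c1, J, ha0, hc, hC, hM, hc1, hU, hmain⟩ := main_params hb K R p hp hmu
  set m := mu b K R p hp with hm
  have hm0 : 0 < m := by linarith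
  have hp0 : 0 < p := by
    rcases eq_or_lt_of_le (zero_le : (0 : ℝ≥0) ≤ p) with h | h
    · exfalso
      have h0 : (p : ℝ) = 0 := by rw [← h]; simp
      have h1 : m = 0 := by
        rw [hm]
        unfold mu
        rw [h0]
        simp
      linarith
    · exact h
  have hN : ∀ j, j ≤ lv K M (512 ^ j) := by
    intro j
    have h1 : j ≤ 512 ^ j := (Nat.lt_pow_self (by norm_num)).le
    refine h1.trans ?_
    unfold lv
    have h4 : 1 ≤ (K + 1) * M := Nat.mul_pos (Nat.succ_pos K) hM
    calc 512 ^ j = 1 * 512 ^ j := (one_mul _).symm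
      _ ≤ (K + 1) * M * 512 ^ j := Nat.mul_le_mul_right _ h4
      _ = _ := by ring
  have h1 := zero_one hb p hp x hx c1 hc1 J (fun j => lv K M (512 ^ j)) hN
    (fun j => Su b K R p hp a c C m M j) (fun j => meas_Su hb j) (fun j => dep_Su hb j)
    (fun j hj => (hmain j hj).1)
  filter_upwards [h1] with ω hω hinf
  obtain ⟨j, hj, hxB, h, hR, hS⟩ := hω hinf
  have hbig := (hmain j hj).2
  have hdiv : 1 / b = 0 := Nat.div_eq_of_lt (by omega)
  have hpar : par b (rt K M (512 ^ j)) = par b (((lv K M (512 ^ j) : ℕ) : ℤ), 0) := by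
    simp [par, rt, hdiv]
  have hcap : Cap b (sh h ω) (par b (rt K M (512 ^ j)), 0) := by
    refine ⟨2 + 800000 * C3 b K R c C M, ?_, fun φ hφ F hF => ?_⟩
    · unfold C3
      positivity
    · exact det hb hc hC hp0 hm0 hM hbig hS hφ hF
  have hcap2 := cap_shift hcap
  rw [zero_add, hpar] at hcap2
  have hsub : {y : Vx | y.1 ∈ BN b (lv K M (512 ^ j))} ⊆ WC := fun y hy => hy.1
  have hvW : (((((lv K M (512 ^ j) : ℕ) : ℤ), 0), h) : Vx) ∈ WC := Int.natCast_nonneg _
  refine cap_conn ?_ hcap2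
  refine (Cn.mono hsub (fun _ _ h => h) hR.1).trans ?_
  have he : ((((((lv K M (512 ^ j) : ℕ) : ℤ), 0), h), false) : Ed) ∈ edg b WC := by
    refine ⟨hvW, ?_⟩
    show (0 : ℤ) ≤ (hd b ((((((lv K M (512 ^ j) : ℕ) : ℤ), 0), h), false) : Ed)).1.1
    simp only [hd, par, Bool.false_eq_true, if_false]
    positivity
  have h2 := Cn.edge he hR.2
  simpa [hd] using h2

/-! ## the graph -/

theorem fin_nbr {b : ℕ} (hb : 2 ≤ b) (ω : Cf) (W : Set Vx) (u : Vx) :
    {v | (og b ω W).Adj u v}.Finite := by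
  have h1 : {v : Vx | (og b ω W).Adj u v} ⊆
      (Set.range fun c : Bool => hd b (u, c)) ∪
        (({x : Vt | (par b)^[1] x = u.1} ×ˢ {u.2}) ∪ {(u.1, u.2 - 1)}) := by
    rintro v ⟨_, _, _, c, ⟨h3, _⟩ | ⟨h3, _⟩⟩
    · left; exact ⟨c, h3⟩
    · right
      cases c with
      | false =>
        left
        simp only [hd, Bool.false_eq_true, if_false] at h3
        rw [← h3]
        exact ⟨rfl, rfl⟩
      | true =>
        right
        simp only [hd, if_true] at h3
        rw [← h3]
        simp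
  refine Set.Finite.subset ?_ h1
  refine (Set.finite_range _).union (Set.Finite.union ?_ (Set.finite_singleton _))
  exact (Pool.Agent.Helper56K9.CP.desc_finite (by omega : 1 ≤ b) 1 u.1).prod
    (Set.finite_singleton _)

theorem fin_hd {b : ℕ} (hb : 2 ≤ b) (u : Vx) : {e : Ed | hd b e = u}.Finite := by
  have h1 : {e : Ed | hd b e = u} ⊆
      (({x : Vt | (par b)^[1] x = u.1} ×ˢ {u.2}) ∪ {(u.1, u.2 - 1)}) ×ˢ (Set.univ : Set Bool) := by
    rintro ⟨⟨y, s⟩, c⟩ h3
    refine ⟨?_, Set.mem_univ _⟩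
    have h4 : hd b ((y, s), c) = u := h3
    cases c with
    | false =>
      left
      simp only [hd, Bool.false_eq_true, if_false] at h4
      rw [← h4]
      exact ⟨rfl, rfl⟩
    | true =>
      right
      simp only [hd, if_true] at h4
      rw [← h4]
      simp
  refine Set.Finite.subset ?_ h1
  refine Set.Finite.prod (Set.Finite.union ?_ (Set.finite_singleton _)) Set.finite_univ
  exact (Pool.Agent.Helper56K9.CP.desc_finite (by omega : 1 ≤ b) 1 u.1).prod
    (Set.finite_singleton _)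

theorem lf_opn {b : ℕ} (hb : 2 ≤ b) {V : Type} {G : SimpleGraph V} {g : V → Vx} {W : Set Vx}
    (h : Emb b G g W) (η : G.edgeSet → Bool) (x : V) :
    ((opn G η).neighborSet x).Finite ∧ (G.neighborSet x).Finite := by
  have h2 : (G.neighborSet x).Finite := by
    have h3 := (fin_nbr hb (fun _ => true) W (g x)).preimage (f := g) h.inj.injOn
    refine h3.subset ?_
    intro y hy
    have hy' : G.Adj x y := hy
    show (og b (fun _ => true) W).Adj (g x) (g y)
    have hW : ∀ x, g x ∈ W := fun x => h.rng ▸ ⟨x, rfl⟩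
    obtain ⟨c, hc⟩ := (h.adj x y).1 hy'
    refine ⟨fun hh => hy'.ne (h.inj hh), hW x, hW y, c, ?_⟩
    rcases hc with hc | hc
    · exact Or.inl ⟨hc, rfl⟩
    · exact Or.inr ⟨hc, rfl⟩
  exact ⟨h2.subset fun y hy => hy.1, h2⟩

/-- **from the capacity inequality to transience** -/
theorem cap_transient {b : ℕ} (hb : 2 ≤ b) {V : Type} {G : SimpleGraph V} {g : V → Vx}
    (h : Emb b G g WC) (ω : Cf) (x : V) (hc : Cap b ω (g x)) :
    Transient (opn G (h.cfg ω)) x := by
  classical
  obtain ⟨c, hc0, hc⟩ := hc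
  refine transient_of_cap (opn G (h.cfg ω)) (fun y => (lf_opn hb h _ y).1) x c ?_
  intro ψ hψ D hD
  set φ : Vx → ℝ := Function.extend g ψ 0 with hφ
  have hφg : ∀ v, φ (g v) = ψ v := fun v => h.inj.extend_apply ψ 0 v
  have hsupp : (Function.support φ).Finite := by
    refine (hψ.image g).subset ?_
    intro y hy
    by_cases hyr : ∃ v, g v = y
    · obtain ⟨v, rfl⟩ := hyr
      refine ⟨v, ?_, rfl⟩
      rw [Function.mem_support, hφg] at hy
      exact hy
    · exfalso
      apply hy
      rw [hφ, Function.extend_apply' _ _ _ hyr]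
      rfl
  have hfinE : {e : Ed | we b φ ω e ≠ 0}.Finite := by
    have h1 : {e : Ed | we b φ ω e ≠ 0} ⊆ (Function.support φ ×ˢ (Set.univ : Set Bool)) ∪
        ⋃ u ∈ Function.support φ, {e : Ed | hd b e = u} := by
      intro e he
      by_cases h1 : φ e.1 = 0
      · by_cases h2 : φ (hd b e) = 0
        · exfalso
          apply he
          unfold we
          rw [h1, h2]
          simp
        · right
          exact Set.mem_biUnion (x := hd b e) h2 rfl
      · left
        exact ⟨h1, Set.mem_univ _⟩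
    refine Set.Finite.subset ?_ h1
    exact (hsupp.prod Set.finite_univ).union (Set.Finite.biUnion hsupp fun u _ => fin_hd hb u)
  have hF : ∀ e, e ∉ hfinE.toFinset → we b φ ω e = 0 := by
    intro e he
    rw [Set.Finite.mem_toFinset, Set.mem_ofPred_eq, not_not] at he
    exact he
  have h1 := hc φ hsupp hfinE.toFinset hF
  rw [hφg] at h1
  refine h1.trans (mul_le_mul_of_nonneg_left ?_ hc0)
  -- the energy
  have hrng : ∀ y ∈ WC, ∃ v, g v = y := by
    intro y hy
    rw [← h.rng] at hy
    exact hy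
  have : Nonempty V := ⟨x⟩
  choose! gi hgi using hrng
  set F1 := hfinE.toFinset.filter (fun e => e ∈ edg b WC ∧ ω e = true) with hF1
  have h2 : Ds b φ ω hfinE.toFinset (edg b WC) = ∑ e ∈ F1, we b φ ω e := by
    rw [Ds_def, hF1, Finset.sum_filter]
    refine Finset.sum_congr rfl fun e _ => ?_
    by_cases h3 : e ∈ edg b WC
    · rw [if_pos h3]
      by_cases h4 : ω e = true
      · rw [if_pos ⟨h3, h4⟩]
      · rw [if_neg fun h5 => h4 h5.2]
        unfold we
        rw [if_neg h4]
    · rw [if_neg h3, if_neg fun h5 => h3 h5.1]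
  set P : Finset (V × V) := F1.image (fun e => (gi e.1, gi (hd b e))) with hP
  have hmem : ∀ e ∈ F1, e.1 ∈ WC ∧ hd b e ∈ WC ∧ e ∈ edg b WC ∧ ω e = true := by
    intro e he
    rw [hF1, Finset.mem_filter] at he
    exact ⟨he.2.1.1, he.2.1.2, he.2.1, he.2.2⟩
  have h3 := hD P ?_
  · rw [hP, Finset.sum_image] at h3
    · rw [h2]
      refine le_trans (le_of_eq ?_) h3
      refine Finset.sum_congr rfl fun e he => ?_
      obtain ⟨m1, m2, m3, m4⟩ := hmem e he
      unfold we
      rw [if_pos m4]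
      simp only
      rw [← hφg (gi e.1), ← hφg (gi (hd b e)), hgi _ m1, hgi _ m2]
    · intro e he e' he' hee
      obtain ⟨m1, m2, _, _⟩ := hmem e he
      obtain ⟨m1', m2', _, _⟩ := hmem e' he'
      simp only [Prod.mk.injEq] at hee
      refine hd_inj b ?_ ?_
      · rw [← hgi _ m1, ← hgi _ m1', hee.1]
      · rw [← hgi _ m2, ← hgi _ m2', hee.2]
  · intro q hq
    rw [hP, Finset.mem_image] at hq
    obtain ⟨e, he, rfl⟩ := hq
    obtain ⟨m1, m2, m3, m4⟩ := hmem e he
    rw [h.adj_iff]
    simp only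
    rw [hgi _ m1, hgi _ m2]
    exact og_adj m3 m4

/-! ## measurability of transience -/

section MeasT

variable {V : Type} [Countable V] (G : SimpleGraph V) (hG : ∀ x, (G.neighborSet x).Finite)

omit [Countable V] in
include hG in
theorem meas_deg (z : V) :
    Measurable fun η : G.edgeSet → Bool => (((opn G η).neighborSet z).ncard : ℝ) := by
  classical
  have h1 : ∀ η : G.edgeSet → Bool, (((opn G η).neighborSet z).ncard : ℝ)
      = ∑ u ∈ (hG z).toFinset, if (opn G η).Adj z u then (1 : ℝ) else 0 := by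
    intro η
    have h2 : (opn G η).neighborSet z
        = (((hG z).toFinset.filter fun u => (opn G η).Adj z u : Finset V) : Set V) := by
      ext u
      rw [Finset.coe_filter]
      simp only [Set.Finite.mem_toFinset, SimpleGraph.mem_neighborSet, Set.mem_ofPred_eq]
      exact ⟨fun h => ⟨h.1, h⟩, fun h => h.2⟩
    rw [h2, Set.ncard_coe_finset, Finset.card_filter]
    push_cast
    rfl
  simp only [h1]
  refine Finset.measurable_sum _ fun u _ => ?_
  exact Measurable.ite (measG_adj G z u) measurable_const measurable_const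

omit [Countable V] in
include hG in
theorem meas_srw (x : V) (n : ℕ) (y : V) :
    Measurable fun η : G.edgeSet → Bool => srw (opn G η) x n y := by
  classical
  induction n generalizing y with
  | zero => exact measurable_const
  | succ n ih =>
    have hfin : ∀ η : G.edgeSet → Bool, ∀ y, ((opn G η).neighborSet y).Finite :=
      fun η y => (hG y).subset fun z hz => hz.1
    have h1 : ∀ η : G.edgeSet → Bool, srw (opn G η) x (n + 1) y
        = ∑ z ∈ (hG y).toFinset, if (opn G η).Adj y z then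
          srw (opn G η) x n z / (((opn G η).neighborSet z).ncard : ℝ) else 0 := by
      intro η
      rw [srw_succ (opn G η) (hfin η), ← Finset.sum_filter]
      refine Finset.sum_congr ?_ fun _ _ => rfl
      ext z
      simp only [Set.Finite.mem_toFinset, Finset.mem_filter, SimpleGraph.mem_neighborSet]
      exact ⟨fun h => ⟨h.1, h⟩, fun h => h.2⟩
    simp only [h1]
    refine Finset.measurable_sum _ fun z _ => ?_
    exact Measurable.ite (measG_adj G y z) ((ih z).div (meas_deg G hG z)) measurable_const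

omit [Countable V] in
include hG in
theorem meas_transient (x : V) :
    MeasurableSet {η : G.edgeSet → Bool | Transient (opn G η) x} := by
  have hfin : ∀ η : G.edgeSet → Bool, ∀ y, ((opn G η).neighborSet y).Finite :=
    fun η y => (hG y).subset fun z hz => hz.1
  have h1 : {η : G.edgeSet → Bool | Transient (opn G η) x}
      = ⋃ B : ℕ, ⋂ N : ℕ, {η | ∑ n ∈ range N, srw (opn G η) x n x ≤ B} := by
    ext η
    simp only [Set.mem_iUnion, Set.mem_iInter, Set.mem_ofPred_eq]
    constructor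
    · intro h
      refine ⟨⌈∑' n, srw (opn G η) x n x⌉₊, fun N => ?_⟩
      exact (h.sum_le_tsum _ fun n _ => srw_nonneg _ (hfin η) x n x).trans (Nat.le_ceil _)
    · rintro ⟨B, hB⟩
      exact summable_of_sum_range_le (fun n => srw_nonneg _ (hfin η) x n x) hB
  rw [h1]
  refine MeasurableSet.iUnion fun B => MeasurableSet.iInter fun N => ?_
  exact measurableSet_le (Finset.measurable_sum _ fun n _ => meas_srw G hG x n x)
    measurable_const

end MeasT

/-! ## conclusion -/

/-- the criterion from percolation -/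
theorem perc_mu {b : ℕ} (hb : 2 ≤ b) (p : ℝ≥0) (hp : p ≤ 1) (x : Vx)
    (hx : 0 < (PP Ed p hp).real {ω | (cl b ω WC x).Infinite}) :
    ∃ K R, 1 < mu b K R p hp := by
  have hp0 : 0 < p := by
    rcases eq_or_lt_of_le (zero_le : (0 : ℝ≥0) ≤ p) with h | h
    · exfalso
      subst h
      rw [FinL.zero x hp] at hx
      exact lt_irrefl _ hx
    · exact h
  obtain ⟨a, n, hn, h1⟩ := tauZ reidx har meas AllL.bk' b hb p hp hp0 x hx
  obtain ⟨M, R, hM, h2⟩ := fina b hb p hp a n h1
  obtain ⟨K, hK⟩ := AllL.chain' b hb p hp hp0 M R a n hn hM h2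
  exact ⟨K, R, hK⟩

/-- the statement in the coded model -/
theorem model_cap {b : ℕ} (hb : 2 ≤ b) (p : ℝ≥0) (hp : p ≤ 1) (x : Vx) (hx : x ∈ WC) :
    ∀ᵐ ω ∂(PP Ed p hp), (cl b ω WC x).Infinite → Cap b ω x := by
  by_cases h0 : 0 < (PP Ed p hp).real {ω | (cl b ω WC x).Infinite}
  · obtain ⟨K, R, hmu⟩ := perc_mu hb p hp x h0
    exact ae_cap hb K R p hp hmu x hx
  · have h1 : (PP Ed p hp).real {ω | (cl b ω WC x).Infinite} = 0 :=
      le_antisymm (not_lt.1 h0) measureReal_nonneg
    have h2 : PP Ed p hp {ω | (cl b ω WC x).Infinite} = 0 := by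
      rw [Measure.real, ENNReal.toReal_eq_zero_iff] at h1
      rcases h1 with h | h
      · exact h
      · exact absurd h (measure_ne_top _ _)
    have h3 : ∀ᵐ ω ∂(PP Ed p hp), ¬ (cl b ω WC x).Infinite := by
      rw [ae_iff]
      simpa using h2
    filter_upwards [h3] with ω hω hinf
    exact absurd hinf hω

/-- the statement for an embedded graph -/
theorem emb_transient {b : ℕ} (hb : 2 ≤ b) {V : Type} [Countable V] {G : SimpleGraph V}
    {g : V → Vx} (h : Emb b G g WC) (p : ℝ≥0) :
    ∀ᵐ η ∂(perc G p), ∀ x, InfCl G η x → Transient (opn G η) x := by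
  rw [ae_all_iff]
  intro x
  have hG : ∀ y, (G.neighborSet y).Finite := fun y => (lf_opn hb h (fun _ => true) y).2
  have hm : MeasurableSet {η : G.edgeSet → Bool | InfCl G η x → Transient (opn G η) x} := by
    have h1 : {η : G.edgeSet → Bool | InfCl G η x → Transient (opn G η) x}
        = {η | InfCl G η x}ᶜ ∪ {η | Transient (opn G η) x} := by
      ext η
      simp only [Set.mem_ofPred_eq, Set.mem_union, Set.mem_compl_iff]
      tauto
    rw [h1]
    exact (measG_inf G x).compl.union (meas_transient G hG x)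
  rw [← (h.mp reidx p).map_eq, ae_map_iff (h.mp reidx p).measurable.aemeasurable hm]
  have hxW : g x ∈ WC := h.rng ▸ ⟨x, rfl⟩
  filter_upwards [model_cap hb (min p 1) (min_le_right p 1) (g x) hxW] with ω hω hinf
  exact cap_transient hb h ω x (hω ((h.inf_iff ω x).1 hinf))

/-- composition of an embedding with an isomorphism -/
theorem emb_comp {b : ℕ} {V V' : Type} {G : SimpleGraph V} {G' : SimpleGraph V'} {g : V' → Vx}
    {W : Set Vx} (h : Emb b G' g W) (f : G ≃g G') : Emb b G (g ∘ f) W where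
  inj := h.inj.comp f.injective
  rng := by
    rw [Set.range_comp, f.surjective.range_eq, Set.image_univ]
    exact h.rng
  adj x y := by
    rw [← f.map_adj_iff]
    exact h.adj (f x) (f y)

end Pool.Agent.H954.TR
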