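import Pool.Agent.H954.TR.ColU

set_option autoImplicit false

/-! # Dirichlet form inequalities for linked slabs -/

namespace Pool.Agent.H954.TR

open MeasureTheory ProbabilityTheory Finset
open scoped ENNReal NNReal
open Pool.Agent.Helper98K9.CP Pool.Agent.Helper98K9.CP.GwL Pool.Agent.Helper98K9.CP.TreeL
open Pool.Agent.Helper56K9.CP (edg_finite Blk_finite)

/-- the energy of an edge -/
noncomputable def we (b : ℕ) (φ : Vx → ℝ) (ω : Cf) (e : Ed) : ℝ :=
  if ω e = true then (φ e.1 - φ (hd b e)) ^ 2 else 0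

theorem we_nonneg (b : ℕ) (φ : Vx → ℝ) (ω : Cf) (e : Ed) : 0 ≤ we b φ ω e := by
  unfold we; split_ifs <;> positivity

/-- the energy of the edges of `F` in the set `S` -/
noncomputable def Ds (b : ℕ) (φ : Vx → ℝ) (ω : Cf) (F : Finset Ed) (S : Set Ed) : ℝ := by
  classical
  exact ∑ e ∈ F, if e ∈ S then we b φ ω e else 0

theorem Ds_def (b : ℕ) (φ : Vx → ℝ) (ω : Cf) (F : Finset Ed) (S : Set Ed)
    [DecidablePred (· ∈ S)] :
    Ds b φ ω F S = ∑ e ∈ F, if e ∈ S then we b φ ω e else 0 := by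
  unfold Ds
  refine Finset.sum_congr rfl fun e _ => ?_
  by_cases h : e ∈ S <;> simp [h]

theorem Ds_nonneg (b : ℕ) (φ : Vx → ℝ) (ω : Cf) (F : Finset Ed) (S : Set Ed) :
    0 ≤ Ds b φ ω F S := by
  classical
  rw [Ds_def]
  refine Finset.sum_nonneg fun e _ => ?_
  split_ifs
  · exact we_nonneg _ _ _ _
  · exact le_rfl

theorem Ds_mono {b : ℕ} {φ : Vx → ℝ} {ω : Cf} {F : Finset Ed} {S S' : Set Ed} (h : S ⊆ S') :
    Ds b φ ω F S ≤ Ds b φ ω F S' := by
  classical
  rw [Ds_def, Ds_def]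
  refine Finset.sum_le_sum fun e _ => ?_
  by_cases h1 : e ∈ S
  · rw [if_pos h1, if_pos (h h1)]
  · rw [if_neg h1]
    split_ifs
    · exact we_nonneg _ _ _ _
    · exact le_rfl

/-- a sum over a finite set of edges in `S` -/
theorem sum_le_Ds {b : ℕ} {φ : Vx → ℝ} {ω : Cf} {F : Finset Ed}
    (hF : ∀ e, e ∉ F → we b φ ω e = 0) {S : Set Ed} (A : Finset Ed) (hA : ∀ e ∈ A, e ∈ S) :
    ∑ e ∈ A, we b φ ω e ≤ Ds b φ ω F S := by
  classical
  rw [Ds_def]
  have h1 : ∑ e ∈ A, we b φ ω e = ∑ e ∈ A ∩ F, we b φ ω e := by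
    symm
    refine Finset.sum_subset Finset.inter_subset_left ?_
    intro e he he2
    refine hF e fun h => he2 (Finset.mem_inter.2 ⟨he, h⟩)
  rw [h1, ← Finset.sum_filter]
  refine Finset.sum_le_sum_of_subset_of_nonneg ?_ fun e _ _ => we_nonneg _ _ _ _
  intro e he
  rw [Finset.mem_inter] at he
  exact Finset.mem_filter.2 ⟨he.2, hA e he.1⟩

/-- total variation bound along an open connection -/
theorem tv_bound {b : ℕ} (φ : Vx → ℝ) (ω : Cf) {W : Set Vx} (hW : W.Finite) {x y : Vx}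
    (h : Cn b ω W x y) :
    |φ x - φ y| ≤ ∑ e ∈ (edg_finite (b := b) hW).toFinset,
      (if ω e = true then |φ e.1 - φ (hd b e)| else 0) := by
  classical
  set EW := (edg_finite (b := b) hW).toFinset with hEW
  -- it is enough to treat `φ x ≤ φ y`
  have key : ∀ x y : Vx, Cn b ω W x y → φ x ≤ φ y → φ y - φ x ≤ ∑ e ∈ EW,
      (if ω e = true then |φ e.1 - φ (hd b e)| else 0) := by
    intro x y h hxy
    have hcov : Set.Ioo (φ x) (φ y) ⊆ ⋃ e ∈ EW.filter (fun e => ω e = true),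
        Set.uIcc (φ e.1) (φ (hd b e)) := by
      intro r hr
      by_contra hcon
      simp only [Set.mem_iUnion, not_exists, Finset.mem_filter] at hcon
      have hstep : ∀ u, Relation.ReflTransGen (og b ω W).Adj x u → φ u < r := by
        intro u hu
        induction hu with
        | refl => exact hr.1
        | tail _ h2 ih =>
          rename_i u v _
          by_contra hv
          push Not at hv
          obtain ⟨_, hu1, hv1, c, ⟨h3, h4⟩ | ⟨h3, h4⟩⟩ := h2
          · refine hcon (u, c) ⟨?_, h4⟩ ?_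
            · rw [hEW, Set.Finite.mem_toFinset]
              exact ⟨hu1, by rw [h3]; exact hv1⟩
            · rw [h3, Set.mem_uIcc]
              exact Or.inl ⟨ih.le, hv⟩
          · refine hcon (v, c) ⟨?_, h4⟩ ?_
            · rw [hEW, Set.Finite.mem_toFinset]
              exact ⟨hv1, by rw [h3]; exact hu1⟩
            · rw [h3, Set.mem_uIcc]
              exact Or.inr ⟨ih.le, hv⟩
      have h5 := hstep y ((SimpleGraph.reachable_iff_reflTransGen _ _).1 h)
      exact absurd hr.2 (not_lt.2 h5.le)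
    have h1 : volume (Set.Ioo (φ x) (φ y)) ≤ ∑ e ∈ EW.filter (fun e => ω e = true),
        volume (Set.uIcc (φ e.1) (φ (hd b e))) :=
      (measure_mono hcov).trans (measure_biUnion_finset_le _ _)
    rw [Real.volume_Ioo] at h1
    simp only [Real.volume_interval] at h1
    rw [← ENNReal.ofReal_sum_of_nonneg fun e _ => abs_nonneg _] at h1
    rw [ENNReal.ofReal_le_ofReal_iff (Finset.sum_nonneg fun e _ => abs_nonneg _)] at h1
    refine h1.trans (le_of_eq ?_)
    rw [Finset.sum_filter]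
    refine Finset.sum_congr rfl fun e _ => ?_
    rw [abs_sub_comm]
  rcases le_total (φ x) (φ y) with hxy | hxy
  · rw [abs_sub_comm, abs_of_nonneg (by linarith)]
    exact key x y h hxy
  · rw [abs_of_nonneg (by linarith)]
    exact key y x h.symm hxy

/-- **path inequality** -/
theorem path_ineq {b : ℕ} {φ : Vx → ℝ} {ω : Cf} {F : Finset Ed}
    (hF : ∀ e, e ∉ F → we b φ ω e = 0) {W : Set Vx} (hW : W.Finite) (N : ℕ) (hN : W.ncard ≤ N)
    {x y : Vx} (h : Cn b ω W x y) :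
    (φ x - φ y) ^ 2 ≤ 2 * N * Ds b φ ω F (edg b W) := by
  classical
  set EW := (edg_finite (b := b) hW).toFinset with hEW
  have h1 := tv_bound φ ω hW h
  have h2 : (φ x - φ y) ^ 2 ≤ (∑ e ∈ EW, (if ω e = true then |φ e.1 - φ (hd b e)| else 0)) ^ 2 := by
    rw [← sq_abs]
    exact pow_le_pow_left₀ (abs_nonneg _) h1 2
  refine h2.trans (sq_sum_le_card_mul_sum_sq.trans ?_)
  have h3 : ∑ e ∈ EW, (if ω e = true then |φ e.1 - φ (hd b e)| else 0) ^ 2
      = ∑ e ∈ EW, we b φ ω e := by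
    refine Finset.sum_congr rfl fun e _ => ?_
    unfold we
    split_ifs
    · exact sq_abs _
    · ring
  rw [h3]
  have h4 : ∑ e ∈ EW, we b φ ω e ≤ Ds b φ ω F (edg b W) := by
    refine sum_le_Ds hF EW fun e he => ?_
    rwa [hEW, Set.Finite.mem_toFinset] at he
  have h5 : (EW.card : ℝ) ≤ 2 * N := by
    have h6 : EW ⊆ hW.toFinset ×ˢ (Finset.univ : Finset Bool) := by
      intro e he
      rw [hEW, Set.Finite.mem_toFinset] at he
      rw [Finset.mem_product, Set.Finite.mem_toFinset]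
      exact ⟨he.1, Finset.mem_univ _⟩
    have h7 := Finset.card_le_card h6
    rw [Finset.card_product, ← Set.ncard_eq_toFinset_card _ hW] at h7
    simp only [Finset.card_univ, Fintype.card_bool] at h7
    have : EW.card ≤ 2 * N := by omega
    exact_mod_cast this
  exact mul_le_mul h5 h4 (Finset.sum_nonneg fun e _ => we_nonneg _ _ _ _) (by positivity)

/-- number of vertices of a block -/
theorem blk_card {b : ℕ} (hb : 2 ≤ b) (K R : ℕ) (z : Vt) (h : ℤ) :
    (Blk b K R z h).ncard ≤ (K + 1) * b ^ K * (2 * R + 1) := by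
  classical
  set A : Finset Vx := ((range (K + 1)).biUnion fun j => desc b j z) ×ˢ Finset.Icc (h - R) (h + R)
    with hA
  have h1 : Blk b K R z h ⊆ (A : Set Vx) := by
    rintro y ⟨⟨j, hj, hy⟩, h1, h2⟩
    rw [hA, Finset.mem_coe, Finset.mem_product, Finset.mem_biUnion, Finset.mem_Icc]
    exact ⟨⟨j, Finset.mem_range.2 (by omega), (mem_desc b hb _ _ _).2 hy⟩, h1, h2⟩
  have h2 := Set.ncard_le_ncard h1 A.finite_toSet
  rw [Set.ncard_coe_finset] at h2
  refine h2.trans ?_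
  rw [hA, Finset.card_product]
  have h3 : ((range (K + 1)).biUnion fun j => desc b j z).card ≤ (K + 1) * b ^ K := by
    refine Finset.card_biUnion_le.trans ?_
    refine (Finset.sum_le_card_nsmul _ _ (b ^ K) fun j hj => ?_).trans ?_
    · rw [card_desc]
      exact Nat.pow_le_pow_right (by omega) (by rw [Finset.mem_range] at hj; omega)
    · simp
  have h4 : (Finset.Icc (h - (R : ℤ)) (h + R)).card ≤ 2 * R + 1 := by
    rw [Int.card_Icc]; omega
  exact Nat.mul_le_mul h3 h4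

/-- the edges below `z` in the block and just below it -/
def EB (b K R : ℕ) (z : Vt) (h : ℤ) : Set Ed :=
  {e | (∃ j ≤ K + 1, (par b)^[j] e.1.1 = z) ∧ h - R ≤ e.1.2 ∧ e.1.2 ≤ h + R}

/-- constant of a step -/
def Lc (b K R : ℕ) : ℕ := 4 * ((K + 1) * b ^ K * (2 * R + 1)) + 2

/-- **one step** -/
theorem step_ineq {b : ℕ} (hb : 2 ≤ b) {K R : ℕ} {φ : Vx → ℝ} {ω : Cf} {F : Finset Ed}
    (hF : ∀ e, e ∉ F → we b φ ω e = 0) {h : ℤ} {u : Vt}
    (hs : St b K R (sh h ω) ((par b)^[K + 1] u) u) :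
    (φ ((par b)^[K + 1] u, h) - φ (u, h)) ^ 2 ≤
      Lc b K R * Ds b φ ω F (EB b K R ((par b)^[K + 1] u) h) := by
  set z := (par b)^[K + 1] u with hz
  obtain ⟨h1, h2⟩ := hs
  have h3 : Cn b ω (Blk b K R z h) (z, h) (par b u, h) := by
    rw [Cn_sh] at h1
    have h4 := tr_Blk (b := b) (σ := Equiv.refl Vt) (fun _ => rfl) h K R z 0
    rw [h4] at h1
    simpa using h1
  have h5 := path_ineq hF (Blk_finite (by omega : 1 ≤ b) K R z h) _ (blk_card hb K R z h) h3
  have h6 : ω ((u, h), false) = true := by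
    have : sh h ω ((u, 0), false) = true := h2
    simpa [sh] using this
  have h7 : (φ (par b u, h) - φ (u, h)) ^ 2 ≤ Ds b φ ω F (EB b K R z h) := by
    have h8 : (φ (par b u, h) - φ (u, h)) ^ 2 = ∑ e ∈ {(((u, h), false) : Ed)}, we b φ ω e := by
      rw [Finset.sum_singleton]
      unfold we
      rw [if_pos h6]
      simp only [hd, Bool.false_eq_true, if_false]
      ring
    rw [h8]
    refine sum_le_Ds hF _ fun e he => ?_
    rw [Finset.mem_singleton] at he
    subst he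
    exact ⟨⟨K + 1, le_rfl, rfl⟩, by simp, by simp⟩
  have h8 : Ds b φ ω F (edg b (Blk b K R z h)) ≤ Ds b φ ω F (EB b K R z h) := by
    refine Ds_mono ?_
    rintro e ⟨⟨⟨j, hj, h9⟩, h10, h11⟩, _⟩
    exact ⟨⟨j, by omega, h9⟩, h10, h11⟩
  have h9 : (φ (z, h) - φ (u, h)) ^ 2 ≤ 2 * (φ (z, h) - φ (par b u, h)) ^ 2
      + 2 * (φ (par b u, h) - φ (u, h)) ^ 2 := by
    nlinarith [sq_nonneg ((φ (z, h) - φ (par b u, h)) - (φ (par b u, h) - φ (u, h)))]
  refine h9.trans ?_
  have h10 : (Lc b K R : ℝ) = 4 * (((K + 1) * b ^ K * (2 * R + 1) : ℕ) : ℝ) + 2 := by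
    unfold Lc; push_cast; ring
  rw [h10]
  have h11 : 2 * (((K + 1) * b ^ K * (2 * R + 1) : ℕ) : ℝ) * Ds b φ ω F (edg b (Blk b K R z h))
      ≤ 2 * (((K + 1) * b ^ K * (2 * R + 1) : ℕ) : ℝ) * Ds b φ ω F (EB b K R z h) := by
    gcongr
  linarith

/-- the edges of the slab around the height `h` below `z`, of depth at most `d` -/
def SE (b R d : ℕ) (z : Vt) (h : ℤ) : Set Ed :=
  {e | (∃ j ≤ d, (par b)^[j] e.1.1 = z) ∧ h - R ≤ e.1.2 ∧ e.1.2 ≤ h + R}

/-- constant of the tree flow -/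
def Lt (b K R : ℕ) : ℕ := Lc b K R * ((K + 2) * b ^ (K + 1))

theorem level_iter {b : ℕ} {n : ℕ} {w z : Vt} (h : (par b)^[n] w = z) : z.1 = w.1 + n := by
  rw [← h, TreeL.par_iter]

/-- **tree flow**: from the root to the average of `S` -/
theorem flow_ineq {b : ℕ} (hb : 2 ≤ b) {K R : ℕ} {φ : Vx → ℝ} {ω : Cf} {F : Finset Ed}
    (hF : ∀ e, e ∉ F → we b φ ω e = 0) {h : ℤ} {i : ℕ} {z : Vt} {S : Finset Vt}
    (hS : ∀ w ∈ S, w ∈ Rs b K R (sh h ω) i z) :
    (∑ w ∈ S, (φ (z, h) - φ (w, h))) ^ 2 ≤ En b K S i * (Lt b K R * Ds b φ ω F (SE b R ((K + 1) * i) z h)) := by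
  classical
  set Δ : Vt → ℝ := fun u => φ ((par b)^[K + 1] u, h) - φ (u, h) with hΔ
  set an : ℕ → Vt → Vt := fun t => (par b)^[(K + 1) * t] with han
  have han1 : ∀ t w, (par b)^[K + 1] (an t w) = an (t + 1) w := by
    intro t w
    show (par b)^[K + 1] ((par b)^[(K + 1) * t] w) = (par b)^[(K + 1) * (t + 1)] w
    rw [← Function.iterate_add_apply]
    have : K + 1 + (K + 1) * t = (K + 1) * (t + 1) := by ring
    rw [this]
  -- telescoping
  have h1 : ∀ w ∈ S, φ (z, h) - φ (w, h) = ∑ t ∈ range i, Δ (an t w) := by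
    intro w hw
    have h2 := Finset.sum_range_sub (fun t => φ (an t w, h)) i
    have h3 : an i w = z := (hS w hw).1
    have h4 : an 0 w = w := by simp [han]
    rw [h3, h4] at h2
    rw [← h2]
    refine Finset.sum_congr rfl fun t _ => ?_
    simp only [hΔ]
    rw [han1]
  rw [Finset.sum_congr rfl h1, Finset.sum_comm]
  have h2 : ∀ t, ∑ w ∈ S, Δ (an t w) = ∑ u ∈ S.image (an t),
      (∑ w ∈ S with an t w = u, (1 : ℝ)) * Δ u := by
    intro t
    rw [← Finset.sum_fiberwise_of_maps_to (fun w hw => Finset.mem_image_of_mem (an t) hw)]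
    refine Finset.sum_congr rfl fun u _ => ?_
    rw [Finset.sum_mul]
    refine Finset.sum_congr rfl fun w hw => ?_
    rw [(Finset.mem_filter.1 hw).2, one_mul]
  simp only [h2]
  -- Cauchy-Schwarz over the pairs `(t, u)`
  set Sg : Finset (Σ _ : ℕ, Vt) := (range i).sigma fun t => S.image (an t) with hSgm
  have h3 : ∑ t ∈ range i, ∑ u ∈ S.image (an t), (∑ w ∈ S with an t w = u, (1 : ℝ)) * Δ u
      = ∑ x ∈ Sg, (∑ w ∈ S with an x.1 w = x.2, (1 : ℝ)) * Δ x.2 := by
    rw [hSgm, Finset.sum_sigma]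
  rw [h3]
  refine (Finset.sum_mul_sq_le_sq_mul_sq _ _ _).trans ?_
  have h4 : ∑ x ∈ Sg, (∑ w ∈ S with an x.1 w = x.2, (1 : ℝ)) ^ 2 ≤ En b K S i := by
    rw [hSgm, Finset.sum_sigma, En_eq_Qf, Finset.sum_range_succ]
    have h5 : ∀ t ∈ range i, ∑ u ∈ S.image (an t), (∑ w ∈ S with an t w = u, (1 : ℝ)) ^ 2
        = Qf b K S t (fun _ => 1) := by
      intro t _
      rw [Qf_sq]
    rw [Finset.sum_congr rfl h5]
    linarith [Qf_nonneg b K S i (fun _ => 1)]
  have hmSg : ∀ (t : ℕ) (u : Vt), (⟨t, u⟩ : Sigma fun _ : ℕ => Vt) ∈ Sg ↔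
      t < i ∧ ∃ w ∈ S, an t w = u := by
    intro t u
    rw [hSgm, Finset.mem_sigma]
    simp
  -- energies of the steps
  have hst : ∀ x ∈ Sg, Δ x.2 ^ 2 ≤ Lc b K R * Ds b φ ω F (EB b K R ((par b)^[K + 1] x.2) h) := by
    rintro ⟨t, u⟩ hx
    obtain ⟨ht, w, hw, rfl⟩ := (hmSg t u).1 hx
    have h5 := (hS w hw).2 t ht
    have h6 : (par b)^[(K + 1) * (t + 1)] w = (par b)^[K + 1] (an t w) := (han1 t w).symm
    rw [h6] at h5
    exact step_ineq hb hF h5
  have hlev : ∀ x ∈ Sg, x.2.1 = z.1 - (K + 1) * i + (K + 1) * x.1 := by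
    rintro ⟨t, u⟩ hx
    obtain ⟨ht, w, hw, rfl⟩ := (hmSg t u).1 hx
    have h5 := level_iter (hS w hw).1
    have h6 : (an t w).1 = w.1 + (((K + 1) * t : ℕ) : ℤ) := level_iter rfl
    simp only
    rw [h6]
    push_cast at h5 ⊢
    linarith
  have h5 : ∑ x ∈ Sg, Δ x.2 ^ 2 ≤ Lt b K R * Ds b φ ω F (SE b R ((K + 1) * i) z h) := by
    refine (Finset.sum_le_sum hst).trans ?_
    rw [← Finset.mul_sum]
    have e1 : ((Lt b K R : ℕ) : ℝ) = Lc b K R * (((K + 2) * b ^ (K + 1) : ℕ) : ℝ) := by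
      unfold Lt; push_cast; ring
    rw [e1, mul_assoc]
    refine mul_le_mul_of_nonneg_left ?_ (Nat.cast_nonneg _)
    simp only [Ds_def]
    rw [Finset.sum_comm, Finset.mul_sum]
    refine Finset.sum_le_sum fun e _ => ?_
    rw [← Finset.sum_filter, Finset.sum_const, nsmul_eq_mul]
    -- the number of the steps using `e`
    set Q := Sg.filter (fun x => e ∈ EB b K R ((par b)^[K + 1] x.2) h) with hQ
    by_cases hQe : Q = ∅
    · rw [hQe]
      simp only [Finset.card_empty, Nat.cast_zero, zero_mul]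
      split_ifs
      · exact mul_nonneg (Nat.cast_nonneg _) (we_nonneg _ _ _ _)
      · simp
    · obtain ⟨x0, hx0⟩ := Finset.nonempty_iff_ne_empty.2 hQe
      rw [hQ, Finset.mem_filter] at hx0
      obtain ⟨hx01, ⟨j, hj, hj2⟩, h6, h7⟩ := hx0
      have hjpos : ∃ n ≤ (K + 1) * i, (par b)^[n] e.1.1 = z := by
        -- `x0.2` is a descendant of `z` of depth at least `K + 1`
        rw [hSgm, Finset.mem_sigma, Finset.mem_range, Finset.mem_image] at hx01
        obtain ⟨ht, w, hw, hw2⟩ := hx01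
        refine ⟨(K + 1) * (i - (x0.1 + 1)) + j, ?_, ?_⟩
        · have h1 : i - (x0.1 + 1) + 1 ≤ i := by omega
          have h2 := Nat.mul_le_mul_left (K + 1) h1
          rw [Nat.mul_add, Nat.mul_one] at h2
          omega
        rw [Function.iterate_add_apply, hj2, ← hw2, han1]
        show (par b)^[(K + 1) * (i - (x0.1 + 1))] ((par b)^[(K + 1) * (x0.1 + 1)] w) = z
        rw [← Function.iterate_add_apply]
        have : (K + 1) * (i - (x0.1 + 1)) + (K + 1) * (x0.1 + 1) = (K + 1) * i := by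
          rw [← mul_add]
          congr 1
          omega
        rw [this]
        exact (hS w hw).1
      rw [if_pos (show e ∈ SE b R ((K + 1) * i) z h from ⟨hjpos, h6, h7⟩)]
      refine mul_le_mul_of_nonneg_right ?_ (we_nonneg _ _ _ _)
      have hcard : Q.card ≤ (K + 2) * b ^ (K + 1) := by
        have h8 : Q.card ≤ ((range (K + 2)).biUnion
            fun j => desc b (K + 1) ((par b)^[j] e.1.1)).card := by
          refine Finset.card_le_card_of_injOn (fun x => x.2) ?_ ?_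
          · intro x hx
            rw [Finset.mem_coe, hQ, Finset.mem_filter] at hx
            obtain ⟨_, ⟨j', hj', hj2'⟩, _, _⟩ := hx
            rw [Finset.mem_coe, Finset.mem_biUnion]
            exact ⟨j', Finset.mem_range.2 (by omega), (mem_desc b hb _ _ _).2 hj2'.symm⟩
          · rintro ⟨t, u⟩ hx ⟨t', u'⟩ hx' hxx
            rw [Finset.mem_coe, hQ, Finset.mem_filter] at hx hx'
            have l1 := hlev _ hx.1
            have l2 := hlev _ hx'.1
            simp only at hxx l1 l2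
            subst hxx
            rw [l1] at l2
            have h9 : ((K : ℤ) + 1) * t = (K + 1) * t' := by linarith
            have h10 : (t : ℤ) = t' := by
              have hK : ((K : ℤ) + 1) ≠ 0 := by positivity
              exact mul_left_cancel₀ hK h9
            have h11 : t = t' := by exact_mod_cast h10
            subst h11
            rfl
        refine h8.trans (Finset.card_biUnion_le.trans ?_)
        refine (Finset.sum_le_card_nsmul _ _ (b ^ (K + 1)) fun j hj => ?_).trans ?_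
        · rw [card_desc]
        · simp
      exact_mod_cast hcard
  exact mul_le_mul h4 h5 (Finset.sum_nonneg fun _ _ => sq_nonneg _)
    (by
      rw [En_eq_Qf]
      exact Finset.sum_nonneg fun _ _ => Qf_nonneg _ _ _ _ _)

/-- the edges below `z` of depth at most `d` with lower height in `[h, h')` -/
def CE (b d : ℕ) (z : Vt) (h h' : ℤ) : Set Ed :=
  {e | (∃ j ≤ d, (par b)^[j] e.1.1 = z) ∧ h ≤ e.1.2 ∧ e.1.2 < h'}

/-- **columns** -/
theorem col_ineq {b : ℕ} {φ : Vx → ℝ} {ω : Cf} {F : Finset Ed}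
    (hF : ∀ e, e ∉ F → we b φ ω e = 0) {h h' : ℤ} (hh : h ≤ h') {d : ℕ} {z : Vt} {S : Finset Vt}
    (hSz : ∀ w ∈ S, ∃ j ≤ d, (par b)^[j] w = z) (hS : ∀ w ∈ S, Col ω w h h') :
    (∑ w ∈ S, (φ (w, h) - φ (w, h'))) ^ 2 ≤
      S.card * (((h' - h).toNat : ℝ) * Ds b φ ω F (CE b d z h h')) := by
  classical
  refine sq_sum_le_card_mul_sum_sq.trans ?_
  refine mul_le_mul_of_nonneg_left ?_ (Nat.cast_nonneg _)
  set n := (h' - h).toNat with hn
  have hn' : h' = h + n := by omega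
  have h1 : ∀ w ∈ S, (φ (w, h) - φ (w, h')) ^ 2
      ≤ n * ∑ t ∈ range n, we b φ ω (((w, h + t), true)) := by
    intro w hw
    have h2 := Finset.sum_range_sub' (fun t : ℕ => φ (w, h + t)) n
    simp only [Nat.cast_zero, add_zero] at h2
    rw [hn', ← h2]
    refine sq_sum_le_card_mul_sum_sq.trans ?_
    rw [Finset.card_range]
    refine mul_le_mul_of_nonneg_left (le_of_eq ?_) (Nat.cast_nonneg _)
    refine Finset.sum_congr rfl fun t ht => ?_
    rw [Finset.mem_range] at ht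
    unfold we
    rw [if_pos (hS w hw (h + t) (by omega) (by omega))]
    simp only [hd, if_true]
    have : h + ((t + 1 : ℕ) : ℤ) = h + t + 1 := by push_cast; ring
    rw [this]
  refine (Finset.sum_le_sum h1).trans ?_
  rw [← Finset.mul_sum]
  refine mul_le_mul_of_nonneg_left ?_ (Nat.cast_nonneg _)
  have h2 : ∑ w ∈ S, ∑ t ∈ range n, we b φ ω (((w, h + t), true))
      = ∑ e ∈ (S ×ˢ range n).image (fun x : Vt × ℕ => (((x.1, h + x.2), true) : Ed)),
        we b φ ω e := by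
    rw [Finset.sum_image, Finset.sum_product]
    intro x _ y _ hxy
    simp only [Prod.mk.injEq, and_true, add_right_inj, Nat.cast_inj] at hxy
    exact Prod.ext hxy.1 hxy.2
  rw [h2]
  refine sum_le_Ds hF _ fun e he => ?_
  rw [Finset.mem_image] at he
  obtain ⟨x, hx, rfl⟩ := he
  rw [Finset.mem_product, Finset.mem_range] at hx
  exact ⟨hSz _ hx.1, by simp, by simp only; omega⟩

/-- **linked slabs** -/
theorem link_ineq {b : ℕ} (hb : 2 ≤ b) {K R : ℕ} {φ : Vx → ℝ} {ω : Cf} {F : Finset Ed}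
    (hF : ∀ e, e ∉ F → we b φ ω e = 0) {C B : ℝ} (hB : 0 < B) {h h' : ℤ}
    (hh : h ≤ h') {i : ℕ} {z : Vt} {S : Finset Vt} (hS : Lk b K R C B i z ω h h' S) :
    (φ (z, h) - φ (z, h')) ^ 2 ≤ 3 * (C * (Lt b K R) * (Ds b φ ω F (SE b R ((K + 1) * i) z h)
      + Ds b φ ω F (SE b R ((K + 1) * i) z h'))
      + ((h' - h).toNat : ℝ) / B * Ds b φ ω F (CE b ((K + 1) * i) z h h')) := by
  obtain ⟨h1, h2, h3⟩ := hS
  have hn : 0 < (S.card : ℝ) := lt_of_lt_of_le hB h2
  have f1 := flow_ineq hb hF (fun w hw => (h1 w hw).1)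
  have f2 := flow_ineq hb hF (fun w hw => (h1 w hw).2.1)
  have f3 := col_ineq hF hh (d := (K + 1) * i) (z := z) (S := S)
    (fun w hw => ⟨_, le_rfl, (h1 w hw).1.1⟩)
    (fun w hw => (h1 w hw).2.2)
  set n : ℝ := (S.card : ℝ) with hnd
  set X := ∑ w ∈ S, (φ (z, h) - φ (w, h)) with hX
  set Y := ∑ w ∈ S, (φ (z, h') - φ (w, h')) with hY
  set Zc := ∑ w ∈ S, (φ (w, h) - φ (w, h')) with hZ
  have e1 : n * (φ (z, h) - φ (z, h')) = X + Zc - Y := by
    rw [hX, hY, hZ, hnd]
    simp only [Finset.sum_sub_distrib, Finset.sum_const, nsmul_eq_mul]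
    ring
  have d1 := Ds_nonneg b φ ω F (SE b R ((K + 1) * i) z h)
  have d2 := Ds_nonneg b φ ω F (SE b R ((K + 1) * i) z h')
  have d3 := Ds_nonneg b φ ω F (CE b ((K + 1) * i) z h h')
  set D1 := Ds b φ ω F (SE b R ((K + 1) * i) z h)
  set D2 := Ds b φ ω F (SE b R ((K + 1) * i) z h')
  set D3 := Ds b φ ω F (CE b ((K + 1) * i) z h h')
  have g1 : X ^ 2 ≤ n ^ 2 * (C * Lt b K R * D1) := by
    refine f1.trans ?_
    calc En b K S i * (Lt b K R * D1) ≤ (C * n ^ 2) * (Lt b K R * D1) :=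
          mul_le_mul_of_nonneg_right h3 (by positivity)
      _ = _ := by ring
  have g2 : Y ^ 2 ≤ n ^ 2 * (C * Lt b K R * D2) := by
    refine f2.trans ?_
    calc En b K S i * (Lt b K R * D2) ≤ (C * n ^ 2) * (Lt b K R * D2) :=
          mul_le_mul_of_nonneg_right h3 (by positivity)
      _ = _ := by ring
  have g3 : Zc ^ 2 ≤ n ^ 2 * (((h' - h).toNat : ℝ) / B * D3) := by
    refine f3.trans ?_
    have h4 : ((h' - h).toNat : ℝ) * D3 * 1 ≤ ((h' - h).toNat : ℝ) * D3 * (n / B) := by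
      refine mul_le_mul_of_nonneg_left ?_ (by positivity)
      rwa [le_div_iff₀ hB, one_mul]
    calc n * (((h' - h).toNat : ℝ) * D3) = n * (((h' - h).toNat : ℝ) * D3 * 1) := by ring
      _ ≤ n * (((h' - h).toNat : ℝ) * D3 * (n / B)) := mul_le_mul_of_nonneg_left h4 hn.le
      _ = _ := by ring
  have g4 : (X + Zc - Y) ^ 2 ≤ 3 * (X ^ 2 + Zc ^ 2 + Y ^ 2) := by
    nlinarith [sq_nonneg (X - Zc), sq_nonneg (X + Y), sq_nonneg (Zc + Y)]
  have g5 : n ^ 2 * (φ (z, h) - φ (z, h')) ^ 2 ≤ n ^ 2 * (3 * (C * (Lt b K R) * (D1 + D2)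
      + ((h' - h).toNat : ℝ) / B * D3)) := by
    calc n ^ 2 * (φ (z, h) - φ (z, h')) ^ 2 = (X + Zc - Y) ^ 2 := by rw [← e1]; ring
      _ ≤ 3 * (X ^ 2 + Zc ^ 2 + Y ^ 2) := g4
      _ ≤ 3 * (n ^ 2 * (C * Lt b K R * D1) + n ^ 2 * (((h' - h).toNat : ℝ) / B * D3)
          + n ^ 2 * (C * Lt b K R * D2)) := by linarith
      _ = _ := by ring
  exact le_of_mul_le_mul_left g5 (by positivity)

end Pool.Agent.H954.TR
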