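import Pool.Agent.H954.TR.Det

set_option autoImplicit false

/-! # Probability of the success event -/

namespace Pool.Agent.H954.TR

open MeasureTheory ProbabilityTheory Finset Filter
open scoped ENNReal NNReal
open Pool.Agent.Helper98K9.CP Pool.Agent.Helper98K9.CP.GwL Pool.Agent.Helper98K9.CP.TreeL
open Pool.Agent.Helper98K9.CP.CanL (lv rt lk lk_card)
open Pool.Agent.Helper56K9.CP (meas_sh meas_Rs meas_col ColE)

section

variable {b K R : ℕ} {p : ℝ≥0} {hp : p ≤ 1} {a c C m : ℝ} {M : ℕ}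

theorem Gn_prop (hb : 2 ≤ b) (ha0 : 0 ≤ a) (hU : ∀ (i : ℕ) (z : Vt),
    2 * a ≤ ((PP Ed p hp).prod (PP Ed p hp)).real (U b K R c C m i z)) (n : ℕ) :
    MeasurableSet (Gn b K R p hp a c C m M n) ∧
    a ≤ (PP Ed p hp).real (Gn b K R p hp a c C m M n) ∧
    Inc (Gn b K R p hp a c C m M n) ∧
    Dep (dsl b R (rt K M n)) (Gn b K R p hp a c C m M n) := by
  have h1 := nice_U hb K R c C m (rt K M n) (M * n)
  have h2 := ngood p hp a _ _ h1
  have h3 := goodp p hp (U b K R c C m (M * n) (rt K M n)) a ha0 h1.1 (hU _ _)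
  exact ⟨h2.1, h3.2, h2.2.1, h2.2.2⟩

theorem Un_slab (hb : 2 ≤ b) (n : ℕ) (ξ₁ ξ₂ η₁ η₂ : Cf) (h1 : ∀ e ∈ slab R, ξ₁ e = η₁ e)
    (h2 : ∀ e ∈ slab R, ξ₂ e = η₂ e) (h3 : (ξ₁, ξ₂) ∈ Un b K R c C m M n) :
    (η₁, η₂) ∈ Un b K R c C m M n :=
  (nice_U hb K R c C m (rt K M n) (M * n)).2.2.2 ξ₁ ξ₂ η₁ η₂ (fun e he => h1 e he.1)
    (fun e he => h2 e he.1) h3

/-- a common related slab in every cell -/
theorem EvA_bad (hb : 2 ≤ b) (ha0 : 0 ≤ a) (ha1 : a ≤ 1) (j n : ℕ) :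
    (PP Ed p hp).real (EvA b K R p hp a c C m M j n)ᶜ ≤
      8 ^ j * ((2 * 512 ^ j) * ((2 * 512 ^ j) * ((2 * 256 ^ j) * (1 - a ^ 2) ^ (2 ^ j - 2)))) := by
  classical
  have ha2 : 0 ≤ 1 - a ^ 2 := by nlinarith
  have ha3 : 1 - a ^ 2 ≤ 1 := by nlinarith [sq_nonneg a]
  let Bad : ℕ → ℕ → ℕ → Set Cf := fun q q' x => {ω | q ≠ q' ∧
    (sh (hq R q) ω ∈ Gn b K R p hp a c C m M n ∧ sh (hq R q') ω ∈ Gn b K R p hp a c C m M n ∧
    ∀ y ∈ Ico (x * 2 ^ j) ((x + 1) * 2 ^ j), ¬ (y ≠ q ∧ y ≠ q' ∧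
      (sh (hq R q) ω, sh (hq R y) ω) ∈ Un b K R c C m M n ∧
      (sh (hq R q') ω, sh (hq R y) ω) ∈ Un b K R c C m M n))}
  have hBad : ∀ q q' x, (PP Ed p hp).real (Bad q q' x) ≤ (1 - a ^ 2) ^ (2 ^ j - 2) := by
    intro q q' x
    by_cases hqq : q = q'
    · have : Bad q q' x = ∅ := by
        ext ω
        simp [Bad, hqq]
      rw [this]
      simp only [measureReal_empty]
      positivity
    · set Q0 : Finset ℤ := (Ico (x * 2 ^ j) ((x + 1) * 2 ^ j)).image (fun y : ℕ => (y : ℤ)) with hQ0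
      set Q : Finset ℤ := (Q0.erase (q : ℤ)).erase (q' : ℤ) with hQ
      have hcard0 : Q0.card = 2 ^ j := by
        rw [hQ0, Finset.card_image_of_injective _ Nat.cast_injective, Nat.card_Ico, Nat.succ_mul,
          Nat.add_sub_cancel_left]
      have hcard : 2 ^ j - 2 ≤ Q.card := by
        have h1 := Finset.pred_card_le_card_erase (s := Q0) (a := (q : ℤ))
        have h2 := Finset.pred_card_le_card_erase (s := Q0.erase (q : ℤ)) (a := (q' : ℤ))
        rw [← hQ] at h2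
        omega
      have h1 := AllL.third' R p hp (Un b K R c C m M n) a ha0 ha1
        (nice_U hb K R c C m (rt K M n) (M * n)).1
        (nice_U hb K R c C m (rt K M n) (M * n)).2.1 (Un_slab hb n) (2 * (R : ℤ) + 1) le_rfl
        (q : ℤ) (q' : ℤ) Q (by exact_mod_cast hqq)
        (fun h => by
          rw [hQ] at h
          exact (Finset.notMem_erase _ _) (Finset.mem_of_mem_erase h))
        (by rw [hQ]; exact Finset.notMem_erase _ _)
      refine le_trans (measureReal_mono ?_ (measure_ne_top _ _))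
        (h1.trans (pow_le_pow_of_le_one ha2 ha3 hcard))
      rintro ω ⟨_, h2, h3, h4⟩
      refine ⟨h2, h3, ?_⟩
      intro y hy h5
      rw [hQ, Finset.mem_erase, Finset.mem_erase, hQ0, Finset.mem_image] at hy
      obtain ⟨hy1, hy2, y', hy3, rfl⟩ := hy
      refine h4 y' hy3 ⟨by exact_mod_cast hy2, by exact_mod_cast hy1, h5.1, h5.2⟩
  have hsub : (EvA b K R p hp a c C m M j n)ᶜ ⊆ ⋃ β ∈ range (8 ^ j),
      ⋃ q ∈ Ico (β * 512 ^ j) ((β + 2) * 512 ^ j), ⋃ q' ∈ Ico (β * 512 ^ j) ((β + 2) * 512 ^ j),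
      ⋃ x ∈ Ico (β * 256 ^ j) ((β + 2) * 256 ^ j), Bad q q' x := by
    intro ω hω
    by_contra hcon
    apply hω
    intro β hβ q hq1 q' hq1' hne hG hG' x hx
    by_contra hno
    push Not at hno
    apply hcon
    simp only [Set.mem_iUnion]
    refine ⟨β, Finset.mem_range.2 hβ, q, hq1, q', hq1', x, hx, hne, hG, hG', ?_⟩
    rintro y hy ⟨h1, h2, h3, h4⟩
    exact hno y hy h1 h2 h3 h4
  refine (measureReal_mono hsub (measure_ne_top _ _)).trans ?_
  have c1 : ∀ β : ℕ, (Ico (β * 512 ^ j) ((β + 2) * 512 ^ j)).card = 2 * 512 ^ j := by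
    intro β
    rw [Nat.card_Ico]
    have : (β + 2) * 512 ^ j = β * 512 ^ j + 2 * 512 ^ j := by ring
    omega
  have c2 : ∀ β : ℕ, (Ico (β * 256 ^ j) ((β + 2) * 256 ^ j)).card = 2 * 256 ^ j := by
    intro β
    rw [Nat.card_Ico]
    have : (β + 2) * 256 ^ j = β * 256 ^ j + 2 * 256 ^ j := by ring
    omega
  refine (measureReal_biUnion_finset_le _ _).trans ?_
  refine (Finset.sum_le_card_nsmul _ _ ((2 * 512 ^ j) * ((2 * 512 ^ j) * ((2 * 256 ^ j)
    * (1 - a ^ 2) ^ (2 ^ j - 2)))) fun β _ => ?_).trans (le_of_eq ?_)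
  · refine (measureReal_biUnion_finset_le _ _).trans ?_
    refine (Finset.sum_le_card_nsmul _ _ ((2 * 512 ^ j) * ((2 * 256 ^ j)
      * (1 - a ^ 2) ^ (2 ^ j - 2))) fun q _ => ?_).trans (le_of_eq ?_)
    · refine (measureReal_biUnion_finset_le _ _).trans ?_
      refine (Finset.sum_le_card_nsmul _ _ ((2 * 256 ^ j)
        * (1 - a ^ 2) ^ (2 ^ j - 2)) fun q' _ => ?_).trans (le_of_eq ?_)
      · refine (measureReal_biUnion_finset_le _ _).trans ?_
        refine (Finset.sum_le_card_nsmul _ _ ((1 - a ^ 2) ^ (2 ^ j - 2))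
          fun x _ => hBad q q' x).trans (le_of_eq ?_)
        rw [c2, nsmul_eq_mul]
        push_cast; ring
      · rw [c1, nsmul_eq_mul]
        push_cast; ring
    · rw [c1, nsmul_eq_mul]
      push_cast; ring
  · rw [Finset.card_range, nsmul_eq_mul]
    push_cast; ring

/-- linked slabs -/
theorem EvC_bad (hb : 2 ≤ b) (hp0 : 0 < p) (hc : 0 < c) (hC : 0 ≤ C) (hm : 0 < m) (j n : ℕ) :
    (PP Ed p hp).real (EvC b K R p c C m M j n)ᶜ ≤
      ((8 ^ j + 1) * 512 ^ j) * (((8 ^ j + 1) * 512 ^ j) *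
        (4 * (((M * n : ℕ) : ℝ) + 1) / ((p : ℝ) ^ (2 * 512 ^ j * (2 * R + 1))
          * (c * m ^ (M * n))))) := by
  classical
  have hp0' : (0 : ℝ) < p := by exact_mod_cast hp0
  have hp1' : (p : ℝ) ≤ 1 := by exact_mod_cast hp
  let Bad : ℕ → ℕ → Set Cf := fun q q' => {ω | (q < q' ∧ q' < q + 2 * 512 ^ j) ∧
    ((sh (hq R q) ω, sh (hq R q') ω) ∈ U b K R c C m (M * n) (rt K M n) ∧
    ¬ ∃ S, Lk b K R (4 * (2 * C / c ^ 2 + 1 / 2))
      ((p : ℝ) ^ (hq R q' - hq R q).toNat * (c * m ^ (M * n)) / 2) (M * n) (rt K M n) ω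
      (hq R q) (hq R q') S)}
  set δ : ℝ := 4 * (((M * n : ℕ) : ℝ) + 1) / ((p : ℝ) ^ (2 * 512 ^ j * (2 * R + 1))
          * (c * m ^ (M * n))) with hδ
  have hBad : ∀ q q', (PP Ed p hp).real (Bad q q') ≤ δ := by
    intro q q'
    by_cases hqq : q < q' ∧ q' < q + 2 * 512 ^ j
    · have h1 := colU hb K R p hp hp0 c C m hc hC hm (M * n) (rt K M n) (hq R q) (hq R q')
      refine le_trans (measureReal_mono ?_ (measure_ne_top _ _)) (h1.trans ?_)
      · rintro ω ⟨_, h2⟩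
        exact h2
      · rw [hδ]
        refine div_le_div_of_nonneg_left (by positivity) (by positivity) ?_
        refine mul_le_mul_of_nonneg_right ?_ (by positivity)
        refine pow_le_pow_of_le_one hp0'.le hp1' ?_
        have h4 : hq R q' - hq R q = (((q' - q) * (2 * R + 1) : ℕ) : ℤ) := by
          unfold hq
          push_cast
          rw [Nat.cast_sub hqq.1.le]
          ring
        rw [h4, Int.toNat_natCast]
        exact Nat.mul_le_mul_right _ (by omega)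
    · have : Bad q q' = ∅ := by
        ext ω
        simp only [Bad, Set.mem_ofPred_eq, Set.mem_empty_iff_false, iff_false]
        exact fun h => hqq h.1
      rw [this]
      simp only [measureReal_empty]
      positivity
  have hsub : (EvC b K R p c C m M j n)ᶜ ⊆ ⋃ q ∈ range ((8 ^ j + 1) * 512 ^ j),
      ⋃ q' ∈ range ((8 ^ j + 1) * 512 ^ j), Bad q q' := by
    intro ω hω
    by_contra hcon
    apply hω
    intro q hq1 q' hq1' h1 h2 h3
    by_contra hno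
    apply hcon
    simp only [Set.mem_iUnion]
    exact ⟨q, hq1, q', hq1', ⟨h1, h2⟩, h3, hno⟩
  refine (measureReal_mono hsub (measure_ne_top _ _)).trans ?_
  refine (measureReal_biUnion_finset_le _ _).trans ?_
  refine (Finset.sum_le_card_nsmul _ _ (((8 ^ j + 1) * 512 ^ j) * δ) fun q _ => ?_).trans
    (le_of_eq ?_)
  · refine (measureReal_biUnion_finset_le _ _).trans ?_
    refine (Finset.sum_le_card_nsmul _ _ δ fun q' _ => hBad q q').trans (le_of_eq ?_)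
    rw [Finset.card_range, nsmul_eq_mul]
    push_cast; ring
  · rw [Finset.card_range, nsmul_eq_mul]
    push_cast; ring

theorem meas_Bn (hb : 2 ≤ b) (ha0 : 0 ≤ a) (hU : ∀ (i : ℕ) (z : Vt),
    2 * a ≤ ((PP Ed p hp).prod (PP Ed p hp)).real (U b K R c C m i z)) (n : ℕ) :
    MeasurableSet (Bn b K R p hp a c C m M n) ∧ Dep (slab R) (Bn b K R p hp a c C m M n) ∧
      a * a * (p : ℝ) ^ ((K + 1) * M + 2) ≤ (PP Ed p hp).real (Bn b K R p hp a c C m M n) := by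
  obtain ⟨g1, g2, g3, g4⟩ := Gn_prop (M := M) hb ha0 hU n
  obtain ⟨g1', g2', g3', g4'⟩ := Gn_prop (M := M) hb ha0 hU (n + 1)
  have l1 : MeasurableSet {ω : Cf | ∀ e ∈ lk K M n, ω e = true} :=
    Pool.Agent.Helper56K9.CP.meas_allopen Ed _
  have l2 : Inc {ω : Cf | ∀ e ∈ lk K M n, ω e = true} := fun ω ω' h h' e he => h e (h' e he)
  refine ⟨(g1.inter g1').inter l1, ?_, ?_⟩
  · intro ω ω' h h'
    refine ⟨⟨g4 ω ω' (fun e he => h e he.1) h'.1.1, g4' ω ω' (fun e he => h e he.1) h'.1.2⟩, ?_⟩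
    intro e he
    rw [← h e ?_]
    · exact h'.2 e he
    · obtain ⟨h1, h2, _⟩ := mem_lk he
      refine ⟨by rw [h1]; simp, by rw [h1]; simp, ?_⟩
      rw [h2]; simp
  · have h1 := har Ed p hp _ _ g1 g1' g3 g3'
    have h2 := har Ed p hp _ _ (g1.inter g1') l1
      (fun ω ω' h h' => ⟨g3 ω ω' h h'.1, g3' ω ω' h h'.2⟩) l2
    have hp1' : (p : ℝ) ≤ 1 := by exact_mod_cast hp
    have h3 : (p : ℝ) ^ ((K + 1) * M + 2)
        ≤ (PP Ed p hp).real {ω : Cf | ∀ e ∈ lk K M n, ω e = true} := by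
      rw [Pool.Agent.Helper56K9.CP.all_open]
      exact pow_le_pow_of_le_one p.2 hp1' (lk_card K M n)
    refine le_trans ?_ h2
    refine mul_le_mul (le_trans ?_ h1) h3 (pow_nonneg p.2 _) measureReal_nonneg
    exact mul_le_mul g2 g2' ha0 measureReal_nonneg

/-- representatives -/
theorem EvL_bad (hb : 2 ≤ b) (ha0 : 0 ≤ a) (hU : ∀ (i : ℕ) (z : Vt),
    2 * a ≤ ((PP Ed p hp).prod (PP Ed p hp)).real (U b K R c C m i z)) (j n : ℕ) :
    (PP Ed p hp).real (EvL b K R p hp a c C m M j n)ᶜ ≤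
      2048 ^ j * (1 - a * a * (p : ℝ) ^ ((K + 1) * M + 2)) ^ (2 ^ j) := by
  classical
  obtain ⟨b1, b2, b3⟩ := meas_Bn (M := M) hb ha0 hU n
  set q0 : ℝ := a * a * (p : ℝ) ^ ((K + 1) * M + 2) with hq0
  let Bad : ℕ → Set Cf := fun x => {ω | ∀ y ∈ Ico (x * 2 ^ j) ((x + 1) * 2 ^ j),
    sh (hq R y) ω ∉ Bn b K R p hp a c C m M n}
  have hBad : ∀ x, (PP Ed p hp).real (Bad x) ≤ (1 - q0) ^ (2 ^ j) := by
    intro x
    set Q : Finset ℤ := (Ico (x * 2 ^ j) ((x + 1) * 2 ^ j)).image (fun y : ℕ => (y : ℤ)) with hQ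
    have hcard : Q.card = 2 ^ j := by
      rw [hQ, Finset.card_image_of_injective _ Nat.cast_injective, Nat.card_Ico, Nat.succ_mul,
        Nat.add_sub_cancel_left]
    have h1 := AllL.slabs' R p hp _ b1 b2 (2 * (R : ℤ) + 1) le_rfl Q
    rw [hcard] at h1
    refine le_trans (measureReal_mono ?_ (measure_ne_top _ _)) (h1.trans ?_)
    · intro ω hω q hq
      rw [hQ, Finset.mem_image] at hq
      obtain ⟨y, hy, rfl⟩ := hq
      exact hω y hy
    · refine pow_le_pow_left₀ ?_ (by linarith) _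
      have := measureReal_le_one (μ := PP Ed p hp) (s := Bn b K R p hp a c C m M n)
      linarith
  have hsub : (EvL b K R p hp a c C m M j n)ᶜ ⊆ ⋃ x ∈ range (2048 ^ j), Bad x := by
    intro ω hω
    by_contra hcon
    apply hω
    intro x hx
    by_contra hno
    push Not at hno
    apply hcon
    simp only [Set.mem_iUnion]
    exact ⟨x, hx, hno⟩
  refine (measureReal_mono hsub (measure_ne_top _ _)).trans ?_
  refine (measureReal_biUnion_finset_le _ _).trans ?_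
  refine (Finset.sum_le_card_nsmul _ _ ((1 - q0) ^ (2 ^ j)) fun x _ => hBad x).trans (le_of_eq ?_)
  rw [Finset.card_range, nsmul_eq_mul]
  push_cast; ring

end

/-! ## analysis -/

theorem summable_pow_pow (Λ θ : ℝ) (hΛ : 0 < Λ) (hθ : 0 < θ) (hθ1 : θ < 1) :
    Summable fun j : ℕ => Λ ^ j * θ ^ (2 ^ j) := by
  refine summable_of_ratio_test_tendsto_lt_one (l := 0) (by norm_num)
    (Eventually.of_forall fun j => by positivity) ?_
  have h1 : ∀ j : ℕ, ‖Λ ^ (j + 1) * θ ^ (2 ^ (j + 1))‖ / ‖Λ ^ j * θ ^ (2 ^ j)‖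
      = Λ * θ ^ (2 ^ j) := by
    intro j
    rw [Real.norm_of_nonneg (by positivity), Real.norm_of_nonneg (by positivity)]
    rw [div_eq_iff (by positivity), pow_succ 2 j, pow_mul, pow_succ Λ j]
    ring
  simp only [h1]
  have h2 : Tendsto (fun j : ℕ => θ ^ (2 ^ j)) atTop (nhds 0) :=
    (tendsto_pow_atTop_nhds_zero_of_lt_one hθ.le hθ1).comp
      (tendsto_pow_atTop_atTop_of_one_lt (by norm_num))
  simpa using h2.const_mul Λ

theorem pow_sub_two (x θ : ℝ) (hx : 0 ≤ x) (hxθ : x ≤ θ) (hθ : 0 < θ) (hθ1 : θ < 1) (k : ℕ) :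
    x ^ (k - 2) ≤ θ ^ k / θ ^ 2 := by
  rw [le_div_iff₀ (by positivity)]
  have h1 : x ^ (k - 2) ≤ θ ^ (k - 2) := pow_le_pow_left₀ hx hxθ _
  calc x ^ (k - 2) * θ ^ 2 ≤ θ ^ (k - 2) * θ ^ 2 := by gcongr
    _ = θ ^ (k - 2 + 2) := by rw [pow_add]
    _ ≤ θ ^ k := pow_le_pow_of_le_one hθ.le hθ1.le (by omega)

/-- the condition on the columns -/
theorem big_cond (P c m : ℝ) (hP : 0 < P) (hP1 : P ≤ 1) (hc : 0 < c) (hm : 0 < m) (R M : ℕ)
    (hM : 4 ≤ P ^ (2 * (2 * R + 1)) * m ^ M) :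
    ∃ J : ℕ, ∀ j0, J ≤ j0 → ∀ j, j0 ≤ j → ∀ n, 512 ^ j ≤ n → ∀ len : ℕ,
      len ≤ 2 * 512 ^ j * (2 * R + 1) →
      (len : ℝ) / (P ^ len * (c * m ^ (M * n)) / 2) ≤ 1 / 256 ^ j := by
  -- `4 (2 R + 1) n ^ 2 ≤ c 4 ^ n` for large `n`
  have h1 : Tendsto (fun n : ℕ => (n : ℝ) ^ 2 * (1 / 4 : ℝ) ^ n) atTop (nhds 0) :=
    tendsto_pow_const_mul_const_pow_of_abs_lt_one 2 (by rw [abs_of_pos] <;> norm_num)
  have hpos : 0 < c / (4 * (2 * R + 1)) := by positivity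
  obtain ⟨N, hN⟩ := (h1.eventually (gt_mem_nhds hpos)).exists_forall_of_atTop
  refine ⟨N, fun j0 hj0 j hj n hn len hlen => ?_⟩
  have hNn : N ≤ n := by
    have h2 : N < 2 ^ N := Nat.lt_two_pow_self
    calc N ≤ 2 ^ N := h2.le
      _ ≤ 512 ^ N := Nat.pow_le_pow_left (by norm_num) N
      _ ≤ 512 ^ j := Nat.pow_le_pow_right (by norm_num) (by omega)
      _ ≤ n := hn
  have h2 := hN n hNn
  have h256 : (256 : ℝ) ^ j ≤ n := by
    have : 256 ^ j ≤ n := (Nat.pow_le_pow_left (by norm_num) j).trans hn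
    exact_mod_cast this
  have hlenR : (len : ℝ) ≤ 2 * (2 * R + 1) * n := by
    have : len ≤ 2 * (2 * R + 1) * n := by
      calc len ≤ 2 * 512 ^ j * (2 * R + 1) := hlen
        _ ≤ 2 * n * (2 * R + 1) := by gcongr
        _ = _ := by ring
    exact_mod_cast this
  have h4 : (4 : ℝ) ^ n ≤ P ^ len * m ^ (M * n) := by
    have h5 : P ^ (2 * (2 * R + 1) * n) ≤ P ^ len := by
      refine pow_le_pow_of_le_one hP.le hP1 ?_
      exact_mod_cast hlenR
    calc (4 : ℝ) ^ n ≤ (P ^ (2 * (2 * R + 1)) * m ^ M) ^ n := by gcongr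
      _ = P ^ (2 * (2 * R + 1) * n) * m ^ (M * n) := by rw [mul_pow, ← pow_mul, ← pow_mul]
      _ ≤ _ := by gcongr
  have h6 : (n : ℝ) ^ 2 * (4 * (2 * R + 1)) < c * 4 ^ n := by
    rw [lt_div_iff₀ (by positivity)] at h2
    have h7 : (n : ℝ) ^ 2 * (1 / 4) ^ n * (4 * (2 * R + 1)) * 4 ^ n < c * 4 ^ n := by
      gcongr
    calc (n : ℝ) ^ 2 * (4 * (2 * R + 1))
        = (n : ℝ) ^ 2 * (1 / 4) ^ n * (4 * (2 * R + 1)) * 4 ^ n := by
          rw [one_div, inv_pow]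
          field_simp
      _ < _ := h7
  rw [div_le_div_iff₀ (by positivity) (by positivity), one_mul]
  have h0 : (0 : ℝ) ≤ n := Nat.cast_nonneg n
  calc (len : ℝ) * 256 ^ j ≤ (2 * (2 * R + 1) * n) * n := by gcongr
    _ = (n : ℝ) ^ 2 * (4 * (2 * R + 1)) / 2 := by ring
    _ ≤ (c * 4 ^ n) / 2 := by linarith
    _ ≤ (c * (P ^ len * m ^ (M * n))) / 2 := by gcongr
    _ = _ := by ring

/-- the sum over the pairs of slabs -/
theorem evC_sum (P c m : ℝ) (hP : 0 < P) (hP1 : P ≤ 1) (hc : 0 < c) (hm : 0 < m) (R M : ℕ)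
    (hM : 4 ≤ P ^ (2 * (2 * R + 1)) * m ^ M) (j n : ℕ) (hn : 512 ^ j ≤ n) :
    ((8 ^ j + 1) * 512 ^ j) * (((8 ^ j + 1) * 512 ^ j) *
        (4 * (((M * n : ℕ) : ℝ) + 1) / (P ^ (2 * 512 ^ j * (2 * R + 1)) * (c * m ^ (M * n)))))
      ≤ (16 * (M + 1) / c) * (4096 ^ j) ^ 2 * (1 / 2) ^ (2 ^ j) := by
  have h1n : 1 ≤ n := (Nat.one_le_pow _ _ (by norm_num)).trans hn
  have h8 : (1 : ℝ) ≤ 8 ^ j := one_le_pow₀ (by norm_num)
  have hw : ((8 : ℝ) ^ j + 1) * 512 ^ j ≤ 2 * 4096 ^ j := by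
    have : (4096 : ℝ) ^ j = 8 ^ j * 512 ^ j := by rw [← mul_pow]; norm_num
    rw [this]
    nlinarith [pow_pos (by norm_num : (0 : ℝ) < 512) j]
  have h4 : (4 : ℝ) ^ n ≤ P ^ (2 * 512 ^ j * (2 * R + 1)) * m ^ (M * n) := by
    have h5 : P ^ (2 * (2 * R + 1) * n) ≤ P ^ (2 * 512 ^ j * (2 * R + 1)) := by
      refine pow_le_pow_of_le_one hP.le hP1 ?_
      calc 2 * 512 ^ j * (2 * R + 1) ≤ 2 * n * (2 * R + 1) := by gcongr
        _ = _ := by ring
    calc (4 : ℝ) ^ n ≤ (P ^ (2 * (2 * R + 1)) * m ^ M) ^ n := by gcongr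
      _ = P ^ (2 * (2 * R + 1) * n) * m ^ (M * n) := by rw [mul_pow, ← pow_mul, ← pow_mul]
      _ ≤ _ := by gcongr
  have h6 : 4 * (((M * n : ℕ) : ℝ) + 1) / (P ^ (2 * 512 ^ j * (2 * R + 1)) * (c * m ^ (M * n)))
      ≤ 4 * (M + 1) / c * (1 / 2) ^ (2 ^ j) := by
    have h7 : ((M * n : ℕ) : ℝ) + 1 ≤ (M + 1) * 2 ^ n := by
      have h8 : (n : ℝ) ≤ 2 ^ n := by exact_mod_cast (Nat.lt_two_pow_self (n := n)).le
      have h9 : (1 : ℝ) ≤ 2 ^ n := one_le_pow₀ (by norm_num)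
      push_cast
      have : (M : ℝ) * n ≤ M * 2 ^ n := by gcongr
      linarith
    have h10 : (2 : ℝ) ^ n * (1 / 4) ^ n ≤ (1 / 2) ^ (2 ^ j) := by
      rw [← mul_pow]
      norm_num
      refine pow_le_pow_of_le_one (by norm_num) (by norm_num) ?_
      exact (Nat.pow_le_pow_left (by norm_num) j).trans hn
    calc 4 * (((M * n : ℕ) : ℝ) + 1) / (P ^ (2 * 512 ^ j * (2 * R + 1)) * (c * m ^ (M * n)))
        ≤ 4 * ((M + 1) * 2 ^ n) / (c * 4 ^ n) := by
          refine div_le_div₀ (by positivity) (by linarith) (by positivity) ?_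
          calc c * 4 ^ n ≤ c * (P ^ (2 * 512 ^ j * (2 * R + 1)) * m ^ (M * n)) := by gcongr
            _ = _ := by ring
      _ = 4 * (M + 1) / c * (2 ^ n * (1 / 4) ^ n) := by
          rw [one_div, inv_pow]
          field_simp
      _ ≤ _ := by gcongr
  have h0 : (0 : ℝ) ≤ 4 * (M + 1) / c * (1 / 2) ^ (2 ^ j) := by positivity
  have h00 : (0 : ℝ) ≤ 4 * (((M * n : ℕ) : ℝ) + 1) /
      (P ^ (2 * 512 ^ j * (2 * R + 1)) * (c * m ^ (M * n))) := by positivity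
  calc ((8 : ℝ) ^ j + 1) * 512 ^ j * (((8 ^ j + 1) * 512 ^ j) *
        (4 * (((M * n : ℕ) : ℝ) + 1) / (P ^ (2 * 512 ^ j * (2 * R + 1)) * (c * m ^ (M * n)))))
      ≤ (2 * 4096 ^ j) * ((2 * 4096 ^ j) * (4 * (M + 1) / c * (1 / 2) ^ (2 ^ j))) := by
        gcongr
    _ = _ := by ring

/-- **the success event has probability bounded below** -/
theorem main_params {b : ℕ} (hb : 2 ≤ b) (K R : ℕ) (p : ℝ≥0) (hp : p ≤ 1)
    (hmu : 1 < mu b K R p hp) :
    ∃ (a c C : ℝ) (M : ℕ) (c1 : ℝ) (J : ℕ), 0 ≤ a ∧ 0 < c ∧ 0 ≤ C ∧ 1 ≤ M ∧ 0 < c1 ∧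
      (∀ (i : ℕ) (z : Vt), 2 * a ≤
        ((PP Ed p hp).prod (PP Ed p hp)).real (U b K R c C (mu b K R p hp) i z)) ∧
      ∀ j0, J ≤ j0 → c1 ≤ (PP Ed p hp).real (Su b K R p hp a c C (mu b K R p hp) M j0) ∧
        (∀ j, j0 ≤ j → ∀ n, 512 ^ j ≤ n → ∀ len : ℕ, len ≤ 2 * 512 ^ j * (2 * R + 1) →
          (len : ℝ) / ((p : ℝ) ^ len * (c * mu b K R p hp ^ (M * n)) / 2) ≤ 1 / 256 ^ j) := by
  classical
  obtain ⟨c, C, hc, hC, hU⟩ := U_prob hb K R p hp hmu
  set m : ℝ := mu b K R p hp with hm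
  have hm0 : 0 < m := by linarith
  set a : ℝ := c / 2 with ha
  have ha0 : 0 < a := by positivity
  have hc1 : c ≤ 1 := (hU 0 (0, 0)).trans measureReal_le_one
  have ha1 : a ≤ 1 := by linarith
  have hp0 : 0 < p := by
    rcases eq_or_lt_of_le (zero_le : (0 : ℝ≥0) ≤ p) with h | h
    · exfalso
      have h0 : (p : ℝ) = 0 := by rw [← h]; simp
      have h1 : m = 0 := by
        rw [hm]
        unfold mu
        rw [h0]
        simp
      linarith
    · exact h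
  have hp0' : (0 : ℝ) < p := by exact_mod_cast hp0
  have hp1' : (p : ℝ) ≤ 1 := by exact_mod_cast hp
  have hU2 : ∀ (i : ℕ) (z : Vt), 2 * a ≤
        ((PP Ed p hp).prod (PP Ed p hp)).real (U b K R c C m i z) := by
    intro i z
    have := hU i z
    rw [ha]; linarith
  obtain ⟨M0, hM0⟩ : ∃ M : ℕ, 4 / (p : ℝ) ^ (2 * (2 * R + 1)) < m ^ M :=
    pow_unbounded_of_one_lt _ hmu
  set M := M0 + 1 with hMdef
  have hM1 : 1 ≤ M := by omega
  have hM : 4 ≤ (p : ℝ) ^ (2 * (2 * R + 1)) * m ^ M := by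
    rw [div_lt_iff₀ (by positivity)] at hM0
    have h1 : m ^ M0 ≤ m ^ M := pow_le_pow_right₀ hmu.le (by omega)
    have h2 : (0 : ℝ) < (p : ℝ) ^ (2 * (2 * R + 1)) := by positivity
    nlinarith
  obtain ⟨J1, hJ1⟩ := big_cond (p : ℝ) c m hp0' hp1' hc hm0 R M hM
  set q0 : ℝ := a * a * (p : ℝ) ^ ((K + 1) * M + 2) with hq0
  have hq0p : 0 < q0 := by positivity
  have hq01 : q0 ≤ 1 := by
    have h1 : a * a ≤ 1 := by nlinarith
    have h2 : (p : ℝ) ^ ((K + 1) * M + 2) ≤ 1 := pow_le_one₀ hp0'.le hp1'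
    calc q0 ≤ 1 * 1 := mul_le_mul h1 h2 (by positivity) zero_le_one
      _ = 1 := one_mul 1
  set θ : ℝ := max (max (1 - a ^ 2) (1 - q0)) (1 / 2) with hθ
  have hθ0 : 0 < θ := lt_of_lt_of_le (by norm_num) (le_max_right _ _)
  have hθ1 : θ < 1 := by
    refine max_lt (max_lt ?_ ?_) (by norm_num)
    · have : 0 < a ^ 2 := by positivity
      linarith
    · linarith
  have hθa : 1 - a ^ 2 ≤ θ := (le_max_left _ _).trans (le_max_left _ _)
  have hθq : 1 - q0 ≤ θ := (le_max_right _ _).trans (le_max_left _ _)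
  have hθh : 1 / 2 ≤ θ := le_max_right _ _
  set G : ℝ := 8 / θ ^ 2 + 16 * (M + 1) / c + 1 with hG
  have hG0 : 0 < G := by positivity
  set bad : ℕ → ℕ → Set Cf := fun j n => (EvA b K R p hp a c C m M j n)ᶜ ∪
    ((EvC b K R p c C m M j n)ᶜ ∪ (EvL b K R p hp a c C m M j n)ᶜ) with hbad
  have hbadP : ∀ j n, 512 ^ j ≤ n → (PP Ed p hp).real (bad j n) ≤
      G * (536870912 ^ j * θ ^ (2 ^ j)) := by
    intro j n hn
    have e1 := EvA_bad (p := p) (hp := hp) (K := K) (R := R) (c := c) (C := C) (m := m) (M := M)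
      hb ha0.le ha1 j n
    have e2 := EvC_bad (hp := hp) (K := K) (R := R) (M := M) hb hp0 hc hC hm0 j n
    have e3 := EvL_bad (M := M) hb ha0.le hU2 j n
    have e4 := evC_sum (p : ℝ) c m hp0' hp1' hc hm0 R M hM j n hn
    have e5 := pow_sub_two (1 - a ^ 2) θ (by nlinarith) hθa hθ0 hθ1 (2 ^ j)
    have g1 : (PP Ed p hp).real (bad j n) ≤ (PP Ed p hp).real (EvA b K R p hp a c C m M j n)ᶜ
        + ((PP Ed p hp).real (EvC b K R p c C m M j n)ᶜ
        + (PP Ed p hp).real (EvL b K R p hp a c C m M j n)ᶜ) :=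
      (measureReal_union_le _ _).trans (add_le_add le_rfl (measureReal_union_le _ _))
    have hT : (0 : ℝ) < 536870912 ^ j * θ ^ (2 ^ j) := by positivity
    have g2 : (PP Ed p hp).real (EvA b K R p hp a c C m M j n)ᶜ
        ≤ 8 / θ ^ 2 * (536870912 ^ j * θ ^ (2 ^ j)) := by
      refine e1.trans ?_
      calc (8 : ℝ) ^ j * ((2 * 512 ^ j) * ((2 * 512 ^ j) * ((2 * 256 ^ j)
            * (1 - a ^ 2) ^ (2 ^ j - 2))))
          ≤ (8 : ℝ) ^ j * ((2 * 512 ^ j) * ((2 * 512 ^ j) * ((2 * 256 ^ j)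
            * (θ ^ (2 ^ j) / θ ^ 2)))) := by gcongr
        _ = 8 / θ ^ 2 * (((8 : ℝ) ^ j * 512 ^ j * 512 ^ j * 256 ^ j) * θ ^ (2 ^ j)) := by ring
        _ = _ := by
          rw [← mul_pow, ← mul_pow, ← mul_pow]
          norm_num
    have g3 : (PP Ed p hp).real (EvC b K R p c C m M j n)ᶜ
        ≤ 16 * (M + 1) / c * (536870912 ^ j * θ ^ (2 ^ j)) := by
      refine e2.trans (e4.trans ?_)
      rw [mul_assoc]
      refine mul_le_mul_of_nonneg_left ?_ (by positivity)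
      have h1 : ((4096 : ℝ) ^ j) ^ 2 ≤ 536870912 ^ j := by
        rw [← pow_mul, mul_comm j 2, pow_mul]
        gcongr
        norm_num
      have h2 : ((1 : ℝ) / 2) ^ (2 ^ j) ≤ θ ^ (2 ^ j) := by gcongr
      exact mul_le_mul h1 h2 (by positivity) (by positivity)
    have g4 : (PP Ed p hp).real (EvL b K R p hp a c C m M j n)ᶜ
        ≤ 1 * (536870912 ^ j * θ ^ (2 ^ j)) := by
      refine e3.trans ?_
      rw [one_mul]
      have h1 : (2048 : ℝ) ^ j ≤ 536870912 ^ j := by gcongr; norm_num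
      have h2 : (1 - q0) ^ (2 ^ j) ≤ θ ^ (2 ^ j) := pow_le_pow_left₀ (by linarith) hθq _
      exact mul_le_mul h1 h2 (pow_nonneg (by linarith) _) (by positivity)
    rw [hG]
    linarith
  set badJ : ℕ → Set Cf := fun j => ⋃ n ∈ Finset.Icc (512 ^ j) (512 ^ (j + 1)), bad j n with hbadJ
  set g : ℕ → ℝ := fun j => (1024 * G) * (274877906944 ^ j * θ ^ (2 ^ j)) with hg
  have hg0 : ∀ j, 0 ≤ g j := fun j => by rw [hg]; positivity
  have hgs : Summable g := (summable_pow_pow 274877906944 θ (by norm_num) hθ0 hθ1).mul_left _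
  have hbadJP : ∀ j, (PP Ed p hp).real (badJ j) ≤ g j := by
    intro j
    refine (measureReal_biUnion_finset_le _ _).trans ?_
    refine (Finset.sum_le_card_nsmul _ _ (G * (536870912 ^ j * θ ^ (2 ^ j))) fun n hn =>
      hbadP j n (Finset.mem_Icc.1 hn).1).trans ?_
    rw [nsmul_eq_mul, Nat.card_Icc]
    have h1 : 512 ^ (j + 1) + 1 - 512 ^ j ≤ 1024 * 512 ^ j := by
      have : 1 ≤ 512 ^ j := Nat.one_le_pow _ _ (by norm_num)
      rw [pow_succ]
      omega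
    have h2 : ((512 ^ (j + 1) + 1 - 512 ^ j : ℕ) : ℝ) ≤ 1024 * 512 ^ j := by exact_mod_cast h1
    calc ((512 ^ (j + 1) + 1 - 512 ^ j : ℕ) : ℝ) * (G * (536870912 ^ j * θ ^ (2 ^ j)))
        ≤ (1024 * 512 ^ j) * (G * (536870912 ^ j * θ ^ (2 ^ j))) := by gcongr
      _ = (1024 * G) * ((512 ^ j * 536870912 ^ j) * θ ^ (2 ^ j)) := by ring
      _ = g j := by
        rw [hg, ← mul_pow]
        norm_num
  have hε : 0 < a * p / 2 := by positivity
  obtain ⟨J2, hJ2⟩ : ∃ J2 : ℕ, ∀ j0, J2 ≤ j0 → ∑' j, g (j + j0) < a * p / 2 := by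
    have h1 := tendsto_sum_nat_add g
    exact (h1.eventually (gt_mem_nhds hε)).exists_forall_of_atTop
  refine ⟨a, c, C, M, a * p / 2, max J1 J2, ha0.le, hc, hC, hM1, hε, hU2, fun j0 hj0 => ⟨?_, ?_⟩⟩
  swap
  · exact hJ1 j0 ((le_max_left _ _).trans hj0)
  -- the probability
  obtain ⟨k1, k2, k3, k4⟩ := Gn_prop (M := M) hb ha0.le hU2 (512 ^ j0)
  set Aop : Set Cf := {ω | ω ((rt K M (512 ^ j0), 0), false) = true} with hAop
  have hAm : MeasurableSet Aop := MeasL.meas_bit _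
  have hstart : a * p ≤ (PP Ed p hp).real (Gn b K R p hp a c C m M (512 ^ j0) ∩ Aop) := by
    refine le_trans ?_ (har Ed p hp _ _ k1 hAm k3 (fun ω ω' h h' => h _ h'))
    rw [hAop, TreeL.prob_true]
    exact mul_le_mul_of_nonneg_right k2 p.2
  have hUbad : (PP Ed p hp).real (⋃ j, badJ (j + j0)) ≤ a * p / 2 := by
    have h1 : PP Ed p hp (⋃ j, badJ (j + j0)) ≤ ENNReal.ofReal (∑' j, g (j + j0)) := by
      refine (measure_iUnion_le _).trans ?_
      rw [ENNReal.ofReal_tsum_of_nonneg (fun j => hg0 (j + j0))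
        ((summable_nat_add_iff j0).2 hgs)]
      refine ENNReal.tsum_le_tsum fun j => ?_
      rw [← ENNReal.ofReal_toReal (measure_ne_top (PP Ed p hp) (badJ (j + j0)))]
      exact ENNReal.ofReal_le_ofReal (hbadJP (j + j0))
    have h2 := ENNReal.toReal_mono ENNReal.ofReal_ne_top h1
    rw [ENNReal.toReal_ofReal (tsum_nonneg fun j => hg0 (j + j0))] at h2
    exact h2.trans (hJ2 j0 ((le_max_right _ _).trans hj0)).le
  have hsub : Gn b K R p hp a c C m M (512 ^ j0) ∩ Aop ⊆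
      Su b K R p hp a c C m M j0 ∪ ⋃ j, badJ (j + j0) := by
    rintro ω ⟨h1, h2⟩
    by_cases hb3 : ω ∈ ⋃ j, badJ (j + j0)
    · exact Or.inr hb3
    · left
      refine ⟨h1, h2, fun j hj n hn hn' => ?_⟩
      have h3 : ω ∉ bad j n := by
        intro h4
        apply hb3
        rw [Set.mem_iUnion]
        refine ⟨j - j0, ?_⟩
        have : j - j0 + j0 = j := by omega
        rw [this, hbadJ]
        simp only [Set.mem_iUnion]
        exact ⟨n, Finset.mem_Icc.2 ⟨hn, hn'⟩, h4⟩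
      simp only [hbad, Set.mem_union, Set.mem_compl_iff, not_or, not_not] at h3
      exact ⟨h3.1, h3.2.1, h3.2.2⟩
  have h1 : (PP Ed p hp).real (Gn b K R p hp a c C m M (512 ^ j0) ∩ Aop) ≤
      (PP Ed p hp).real (Su b K R p hp a c C m M j0)
      + (PP Ed p hp).real (⋃ j, badJ (j + j0)) :=
    (measureReal_mono hsub (measure_ne_top _ _)).trans (measureReal_union_le _ _)
  linarith

end Pool.Agent.H954.TR
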