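import Pool.Graph.R_pool_sql_team_seeded_1e53cb71.Helper98K9.CP.All

set_option autoImplicit false

/-! # The relation between slabs with an energy bound -/

namespace Pool.Agent.H954.TR

open MeasureTheory ProbabilityTheory Finset
open scoped ENNReal NNReal
open Pool.Agent.Helper98K9.CP Pool.Agent.Helper98K9.CP.GwL Pool.Agent.Helper98K9.CP.TreeL

/-- the number of the triples `(t, w, w')` such that `w, w' ∈ S` have the same ancestor
`(K + 1) t` levels above -/
noncomputable def En (b K : ℕ) (S : Finset Vt) (i : ℕ) : ℝ := by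
  classical
  exact ∑ t ∈ range (i + 1), ∑ w ∈ S, ∑ w' ∈ S,
    if (par b)^[(K + 1) * t] w = (par b)^[(K + 1) * t] w' then (1 : ℝ) else 0

theorem En_def (b K : ℕ) (S : Finset Vt) (i : ℕ) [DecidableEq Vt] : En b K S i =
    ∑ t ∈ range (i + 1), ∑ w ∈ S, ∑ w' ∈ S,
      if (par b)^[(K + 1) * t] w = (par b)^[(K + 1) * t] w' then (1 : ℝ) else 0 := by
  unfold En
  refine Finset.sum_congr rfl fun t _ => Finset.sum_congr rfl fun w _ =>
    Finset.sum_congr rfl fun w' _ => ?_
  by_cases h : (par b)^[(K + 1) * t] w = (par b)^[(K + 1) * t] w'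
  · simp [h]
  · simp [h]

/-- the slabs have a set `S` of at least `c m ^ i` common reached vertices with energy at most
`C m ^ (2 i)` -/
def U (b K R : ℕ) (c C m : ℝ) (i : ℕ) (z : Vt) : Set (Cf × Cf) :=
  {q | ∃ S : Finset Vt, (∀ w ∈ S, w ∈ Rs b K R q.1 i z ∧ w ∈ Rs b K R q.2 i z) ∧
    c * m ^ i ≤ (S.card : ℝ) ∧ En b K S i ≤ C * (m ^ i) ^ 2}

theorem U_symm {b K R : ℕ} {c C m : ℝ} {i : ℕ} {z : Vt} {ξ ξ' : Cf}
    (h : (ξ, ξ') ∈ U b K R c C m i z) : (ξ', ξ) ∈ U b K R c C m i z := by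
  obtain ⟨S, h1, h2, h3⟩ := h
  exact ⟨S, fun w hw => ⟨(h1 w hw).2, (h1 w hw).1⟩, h2, h3⟩

theorem U_dsl {b K R : ℕ} {c C m : ℝ} {ξ ξ' η η' : Cf} {z : Vt} {i : ℕ}
    (h : ∀ e ∈ dsl b R z, ξ e = true → ξ' e = true)
    (h' : ∀ e ∈ dsl b R z, η e = true → η' e = true) (h1 : (ξ, η) ∈ U b K R c C m i z) :
    (ξ', η') ∈ U b K R c C m i z := by
  obtain ⟨S, h2, h3, h4⟩ := h1
  exact ⟨S, fun w hw => ⟨NiceL.Rs_dsl h (h2 w hw).1, NiceL.Rs_dsl h' (h2 w hw).2⟩, h3, h4⟩

theorem meas_U {b : ℕ} (hb : 2 ≤ b) (K R : ℕ) (c C m : ℝ) (z : Vt) (i : ℕ) :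
    MeasurableSet (U b K R c C m i z) := by
  classical
  set F : Finset Vt := (Pool.Agent.Helper56K9.CP.desc_finite (by omega : 1 ≤ b)
    ((K + 1) * i) z).toFinset with hF
  have h1 : U b K R c C m i z = ⋃ S ∈ F.powerset.filter (fun S => c * m ^ i ≤ (S.card : ℝ) ∧
      En b K S i ≤ C * (m ^ i) ^ 2),
      ⋂ w ∈ S, {q : Cf × Cf | w ∈ Rs b K R q.1 i z ∧ w ∈ Rs b K R q.2 i z} := by
    ext q
    simp only [Set.mem_iUnion, Set.mem_iInter, Finset.mem_filter, Finset.mem_powerset]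
    constructor
    · rintro ⟨S, h1, h2, h3⟩
      refine ⟨S, ⟨?_, h2, h3⟩, h1⟩
      intro w hw
      rw [hF, Set.Finite.mem_toFinset]
      exact (h1 w hw).1.1
    · rintro ⟨S, ⟨_, h2, h3⟩, h4⟩
      exact ⟨S, h4, h2, h3⟩
  rw [h1]
  refine Finset.measurableSet_biUnion _ fun S _ => Finset.measurableSet_biInter _ fun w _ => ?_
  exact (measurable_fst (Pool.Agent.Helper56K9.CP.meas_Rs meas b K R i z w)).inter
    (measurable_snd (Pool.Agent.Helper56K9.CP.meas_Rs meas b K R i z w))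

theorem nice_U {b : ℕ} (hb : 2 ≤ b) (K R : ℕ) (c C m : ℝ) (z : Vt) (i : ℕ) :
    NiceRel (dsl b R z) (U b K R c C m i z) := by
  refine ⟨meas_U hb K R c C m z i, ?_, ?_, ?_⟩
  · intro ξ ω ω' h h1
    exact U_dsl (fun e _ h2 => h2) (fun e _ h2 => h e h2) h1
  · intro ξ ω ω' h h1
    exact U_dsl (fun e _ h2 => h e h2) (fun e _ h2 => h2) h1
  · intro ξ₁ ξ₂ η₁ η₂ h1 h2 h3
    exact U_dsl (fun e he h4 => (h1 e he) ▸ h4) (fun e he h4 => (h2 e he) ▸ h4) h3

/-- the sum over the pairs with a common ancestor -/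
theorem pair_sum {b : ℕ} (hb : 2 ≤ b) (K i t : ℕ) (hti : t ≤ i) (z : Vt) (F : Vt → Vt → ℝ)
    [DecidableEq Vt] :
    ∑ w ∈ desc b ((K + 1) * i) z, ∑ w' ∈ desc b ((K + 1) * i) z,
      (if (par b)^[(K + 1) * t] w = (par b)^[(K + 1) * t] w' then F w w' else 0)
    = ∑ u ∈ desc b ((K + 1) * (i - t)) z, ∑ w ∈ desc b ((K + 1) * t) u,
        ∑ w' ∈ desc b ((K + 1) * t) u, F w w' := by
  have hsplit : (K + 1) * i = (K + 1) * (i - t) + (K + 1) * t := by
    rw [← mul_add]; congr 1; omega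
  have h0 : ∀ w ∈ desc b ((K + 1) * i) z, (par b)^[(K + 1) * t] w ∈ desc b ((K + 1) * (i - t)) z := by
    intro w hw
    rw [mem_desc b hb] at hw ⊢
    rw [← Function.iterate_add_apply, ← hsplit]
    exact hw
  have h1 : ∀ u ∈ desc b ((K + 1) * (i - t)) z,
      (desc b ((K + 1) * i) z).filter (fun w => (par b)^[(K + 1) * t] w = u)
        = desc b ((K + 1) * t) u := by
    intro u hu
    ext w
    rw [Finset.mem_filter, mem_desc b hb, mem_desc b hb]
    constructor
    · exact fun h => h.2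
    · intro h
      refine ⟨?_, h⟩
      rw [mem_desc b hb] at hu
      rw [hsplit, Function.iterate_add_apply, h, hu]
  rw [← Finset.sum_fiberwise_of_maps_to h0]
  refine Finset.sum_congr rfl fun u hu => ?_
  rw [h1 u hu]
  refine Finset.sum_congr rfl fun w hw => ?_
  rw [← Finset.sum_filter]
  have h2 : (desc b ((K + 1) * i) z).filter
      (fun w' => (par b)^[(K + 1) * t] w = (par b)^[(K + 1) * t] w') = desc b ((K + 1) * t) u := by
    rw [← h1 u hu]
    rw [mem_desc b hb] at hw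
    refine Finset.filter_congr fun w' _ => ?_
    rw [hw]
    exact eq_comm
  rw [h2]

/-- second moment bound with the energy -/
theorem energy_bound {b : ℕ} (hb : 2 ≤ b) (K R : ℕ) (p : ℝ≥0) (hp : p ≤ 1)
    (hmu : 1 < mu b K R p hp) (i t : ℕ) (hti : t ≤ i) (z : Vt) [DecidableEq Vt] :
    ∑ w ∈ desc b ((K + 1) * i) z, ∑ w' ∈ desc b ((K + 1) * i) z,
      (if (par b)^[(K + 1) * t] w = (par b)^[(K + 1) * t] w' then
        (PP Ed p hp).real ({ω : Cf | w ∈ Rs b K R ω i z} ∩ {ω : Cf | w' ∈ Rs b K R ω i z}) ^ 2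
        else 0)
    ≤ (1 + (b : ℝ) ^ (K + 1) / (mu b K R p hp - 1)) * mu b K R p hp ^ (i + t) := by
  set q : ℝ := (p : ℝ) * piKR b K R p hp with hq
  set m : ℝ := mu b K R p hp with hm
  have hmq : m = (b : ℝ) ^ (K + 1) * q ^ 2 := rfl
  have hq0 : 0 ≤ q := mul_nonneg p.2 measureReal_nonneg
  have hqpos : 0 < q := by
    rcases hq0.eq_or_lt with h | h
    · exfalso
      rw [hmq, ← h] at hmu
      norm_num at hmu
    · exact h
  have hm0 : 0 < m := by linarith
  set P : Vt → Vt → ℝ := fun w w' =>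
    (PP Ed p hp).real ({ω : Cf | w ∈ Rs b K R ω i z} ∩ {ω : Cf | w' ∈ Rs b K R ω i z}) with hP
  rw [pair_sum hb K i t hti z (fun w w' => P w w' ^ 2)]
  have hsplit : (K + 1) * i = (K + 1) * (i - t) + (K + 1) * t := by
    rw [← mul_add]; congr 1; omega
  have h1 : ∀ u ∈ desc b ((K + 1) * (i - t)) z, ∑ w ∈ desc b ((K + 1) * t) u,
      ∑ w' ∈ desc b ((K + 1) * t) u, P w w' ^ 2 ≤
      (q ^ (i - t)) ^ 2 * ((1 + (b : ℝ) ^ (K + 1) / (m - 1)) * (m ^ t) ^ 2) := by
    intro u hu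
    rw [mem_desc b hb] at hu
    have hdz : ∀ w ∈ desc b ((K + 1) * t) u, (par b)^[(K + 1) * i] w = z := by
      intro w hw
      rw [mem_desc b hb] at hw
      rw [hsplit, Function.iterate_add_apply, hw, hu]
    have hqt : 0 < q ^ (i - t) := by positivity
    have h2 := sum_bound b hb K t u q m hq0 hmq hmu (fun w w' => P w w' / q ^ (i - t))
      (fun _ _ => div_nonneg measureReal_nonneg hqt.le)
      (fun w hw => by
        rw [div_le_iff₀ hqt, ← pow_add]
        have e1 : t + (i - t) = i := by omega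
        rw [e1]
        simp only [hP]
        rw [Set.inter_self]
        exact (AllL.step' b hb K R p hp i z w (hdz w hw)).le)
      (fun w hw w' hw' s hs hne => by
        rw [div_le_iff₀ hqt, ← pow_add]
        have e1 : t + s + (i - t) = i + s := by omega
        rw [e1]
        exact AllL.pair' b hb K R p hp i s z w w' (by omega) (hdz w hw) (hdz w' hw') hne)
    simp only [div_pow] at h2
    simp only [← Finset.sum_div] at h2
    rw [div_le_iff₀ (by positivity)] at h2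
    linarith
  refine (Finset.sum_le_sum h1).trans ?_
  rw [Finset.sum_const, card_desc, nsmul_eq_mul]
  refine le_of_eq ?_
  have e2 : m ^ (i + t) = m ^ (i - t) * (m ^ t) ^ 2 := by
    rw [← pow_mul, ← pow_add]; congr 1; omega
  have e3 : m ^ (i - t) = (b : ℝ) ^ ((K + 1) * (i - t)) * (q ^ (i - t)) ^ 2 := by
    rw [hmq, pow_id]
  rw [e2, e3]
  push_cast
  ring

/-- **two independent slabs are related with probability bounded below** -/
theorem U_prob {b : ℕ} (hb : 2 ≤ b) (K R : ℕ) (p : ℝ≥0) (hp : p ≤ 1)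
    (hmu : 1 < mu b K R p hp) :
    ∃ c C : ℝ, 0 < c ∧ 0 ≤ C ∧ ∀ (i : ℕ) (z : Vt),
      c ≤ ((PP Ed p hp).prod (PP Ed p hp)).real (U b K R c C (mu b K R p hp) i z) := by
  classical
  obtain ⟨c, hc, hgw⟩ := AllL.gw' b hb K R p hp hmu
  set m : ℝ := mu b K R p hp with hm
  have hm0 : 0 < m - 1 := by linarith
  set C0 : ℝ := (1 + (b : ℝ) ^ (K + 1) / (m - 1)) * (m / (m - 1)) with hC0
  have hC0p : 0 ≤ C0 := by
    have : 0 ≤ m := by linarith
    positivity
  refine ⟨c / 2, 2 * C0 / c, by positivity, by positivity, fun i z => ?_⟩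
  set T := desc b ((K + 1) * i) z with hT
  set μ2 : Measure (Cf × Cf) := (PP Ed p hp).prod (PP Ed p hp) with hμ2
  let A : Vt → Set Cf := fun w => {ω : Cf | w ∈ Rs b K R ω i z}
  have mA : ∀ w, MeasurableSet (A w) := fun w => rs_meas meas b K R i z w
  have hpr : ∀ w w', μ2.real ((A w ×ˢ A w) ∩ (A w' ×ˢ A w')) =
      (PP Ed p hp).real (A w ∩ A w') ^ 2 := by
    intro w w'
    rw [Set.prod_inter_prod]
    show ((PP Ed p hp).prod (PP Ed p hp)).real _ = _
    rw [measureReal_prod_prod, sq]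
  have hI : ∀ S : Set (Cf × Cf), MeasurableSet S → Integrable (S.indicator fun _ => (1 : ℝ)) μ2 :=
    fun S hS => (integrable_const _).indicator hS
  have hIv : ∀ S : Set (Cf × Cf), MeasurableSet S →
      ∫ x, S.indicator (fun _ => (1 : ℝ)) x ∂μ2 = μ2.real S := by
    intro S hS; rw [integral_indicator_const (1 : ℝ) hS]; simp
  -- the energy as a random variable
  let Z : Cf × Cf → Finset Vt := fun x => T.filter (fun w => x ∈ A w ×ˢ A w)
  let g : ℕ → Vt → Vt → ℝ := fun t w w' =>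
    if (par b)^[(K + 1) * t] w = (par b)^[(K + 1) * t] w' then (1 : ℝ) else 0
  let X : Cf × Cf → ℝ := fun x => ∑ t ∈ range (i + 1), ∑ w ∈ T, ∑ w' ∈ T,
    g t w w' * ((A w ×ˢ A w) ∩ (A w' ×ˢ A w')).indicator (fun _ => (1 : ℝ)) x
  have hXZ : ∀ x, En b K (Z x) i = X x := by
    intro x
    rw [En_def]
    refine Finset.sum_congr rfl fun t _ => ?_
    rw [Finset.sum_filter]
    refine Finset.sum_congr rfl fun w _ => ?_
    rw [Finset.sum_filter]
    by_cases h1 : x ∈ A w ×ˢ A w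
    · rw [if_pos h1]
      refine Finset.sum_congr rfl fun w' _ => ?_
      rw [Set.indicator_apply]
      by_cases h2 : x ∈ A w' ×ˢ A w'
      · rw [if_pos h2, if_pos (show x ∈ A w ×ˢ A w ∩ A w' ×ˢ A w' from ⟨h1, h2⟩), mul_one]
      · rw [if_neg h2, if_neg (fun h => h2 h.2), mul_zero]
    · rw [if_neg h1]
      symm
      refine Finset.sum_eq_zero fun w' _ => ?_
      rw [Set.indicator_apply, if_neg (fun h => h1 h.1), mul_zero]
  have iX1 : ∀ t w w', Integrable (fun x => g t w w' *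
      ((A w ×ˢ A w) ∩ (A w' ×ˢ A w')).indicator (fun _ => (1 : ℝ)) x) μ2 := fun t w w' =>
    (hI _ (((mA w).prod (mA w)).inter ((mA w').prod (mA w')))).const_mul _
  have iX : Integrable X μ2 :=
    integrable_finsetSum _ fun t _ => integrable_finsetSum _ fun w _ =>
      integrable_finsetSum _ fun w' _ => iX1 t w w'
  have eX : ∫ x, X x ∂μ2 ≤ C0 * (m ^ i) ^ 2 := by
    show ∫ x, ∑ t ∈ range (i + 1), ∑ w ∈ T, ∑ w' ∈ T,
      g t w w' * ((A w ×ˢ A w) ∩ (A w' ×ˢ A w')).indicator (fun _ => (1 : ℝ)) x ∂μ2 ≤ _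
    rw [integral_finsetSum _ fun t _ => integrable_finsetSum _ fun w _ =>
      integrable_finsetSum _ fun w' _ => iX1 t w w']
    have h1 : ∀ t ∈ range (i + 1), ∫ x, ∑ w ∈ T, ∑ w' ∈ T,
        g t w w' * ((A w ×ˢ A w) ∩ (A w' ×ˢ A w')).indicator (fun _ => (1 : ℝ)) x ∂μ2
        ≤ (1 + (b : ℝ) ^ (K + 1) / (m - 1)) * m ^ (i + t) := by
      intro t ht
      have hti : t ≤ i := by rw [Finset.mem_range] at ht; omega
      rw [integral_finsetSum _ fun w _ => integrable_finsetSum _ fun w' _ => iX1 t w w']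
      refine le_trans (le_of_eq ?_) (energy_bound hb K R p hp hmu i t hti z)
      refine Finset.sum_congr rfl fun w _ => ?_
      rw [integral_finsetSum _ fun w' _ => iX1 t w w']
      refine Finset.sum_congr rfl fun w' _ => ?_
      rw [integral_const_mul, hIv _ (((mA w).prod (mA w)).inter ((mA w').prod (mA w'))), hpr]
      simp only [g]
      split_ifs <;> simp [A]
    refine (Finset.sum_le_sum h1).trans ?_
    rw [← Finset.mul_sum, hC0, mul_assoc]
    refine mul_le_mul_of_nonneg_left ?_ (by positivity)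
    have h2 : ∑ t ∈ range (i + 1), m ^ (i + t) = m ^ i * ∑ t ∈ range (i + 1), m ^ t := by
      rw [Finset.mul_sum]
      exact Finset.sum_congr rfl fun t _ => pow_add _ _ _
    rw [h2, geom_sum_eq (by linarith)]
    have h3 : 0 < m ^ i := by
      have : 0 < m := by linarith
      positivity
    have e1 : m / (m - 1) * (m ^ i) ^ 2 = m ^ i * (m ^ (i + 1) / (m - 1)) := by
      rw [pow_succ]; ring
    rw [e1]
    refine mul_le_mul_of_nonneg_left (div_le_div_of_nonneg_right (by linarith) hm0.le) h3.le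
  have hX0 : ∀ x, 0 ≤ X x := by
    intro x
    refine Finset.sum_nonneg fun t _ => Finset.sum_nonneg fun w _ => Finset.sum_nonneg fun w' _ => ?_
    refine mul_nonneg ?_ (Set.indicator_nonneg (fun _ _ => zero_le_one) x)
    simp only [g]
    split_ifs <;> norm_num
  have hmi : 0 < m ^ i := by
    have : 0 < m := by linarith
    positivity
  -- Markov
  have hMk : μ2.real {x | 2 * C0 / c * (m ^ i) ^ 2 < X x} ≤ c / 2 := by
    by_cases hC00 : C0 = 0
    · have h0 : ∫ x, X x ∂μ2 = 0 := le_antisymm (by rw [hC00] at eX; simpa using eX)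
        (integral_nonneg hX0)
      rw [integral_eq_zero_iff_of_nonneg hX0 iX] at h0
      have : μ2 {x | 2 * C0 / c * (m ^ i) ^ 2 < X x} = 0 := by
        refine measure_mono_null ?_ h0
        intro x hx
        rw [hC00] at hx
        simp only [mul_zero, zero_div, zero_mul, Set.mem_ofPred_eq] at hx
        exact hx.ne'
      rw [Measure.real, this]
      simp
      positivity
    · have hC0pos : 0 < C0 := lt_of_le_of_ne hC0p (Ne.symm hC00)
      have h1 := mul_meas_ge_le_integral_of_nonneg (Filter.Eventually.of_forall hX0) iX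
        (2 * C0 / c * (m ^ i) ^ 2)
      have h2 : μ2.real {x | 2 * C0 / c * (m ^ i) ^ 2 < X x}
          ≤ μ2.real {x | 2 * C0 / c * (m ^ i) ^ 2 ≤ X x} :=
        measureReal_mono (fun x (hx : _ < X x) => hx.le) (measure_ne_top _ _)
      have h3 : 2 * C0 / c * (m ^ i) ^ 2 * μ2.real {x | 2 * C0 / c * (m ^ i) ^ 2 ≤ X x}
          ≤ C0 * (m ^ i) ^ 2 := h1.trans eX
      have h4 : μ2.real {x | 2 * C0 / c * (m ^ i) ^ 2 ≤ X x} ≤ c / 2 := by
        have h5 : 0 < C0 * (m ^ i) ^ 2 := by positivity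
        have h6 : 2 * C0 / c * (m ^ i) ^ 2 * μ2.real {x | 2 * C0 / c * (m ^ i) ^ 2 ≤ X x}
            = (C0 * (m ^ i) ^ 2) * (2 / c * μ2.real {x | 2 * C0 / c * (m ^ i) ^ 2 ≤ X x}) := by
          ring
        rw [h6] at h3
        have h7 : 2 / c * μ2.real {x | 2 * C0 / c * (m ^ i) ^ 2 ≤ X x} ≤ 1 := by
          by_contra hcon
          push Not at hcon
          nlinarith
        rw [div_mul_eq_mul_div, div_le_iff₀ hc] at h7
        linarith
      exact h2.trans h4
  have hsub : Rel b K R c m i z ⊆ U b K R (c / 2) (2 * C0 / c) m i z ∪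
      {x | 2 * C0 / c * (m ^ i) ^ 2 < X x} := by
    intro x hx
    by_cases hx2 : 2 * C0 / c * (m ^ i) ^ 2 < X x
    · exact Or.inr hx2
    · left
      refine ⟨Z x, ?_, ?_, ?_⟩
      · intro w hw
        exact (Finset.mem_filter.1 hw).2
      · have hx1 : c * m ^ i ≤ ((Rs b K R x.1 i z ∩ Rs b K R x.2 i z).ncard : ℝ) := hx
        have e : (Rs b K R x.1 i z ∩ Rs b K R x.2 i z) = (Z x : Set Vt) := by
          ext w
          simp only [Set.mem_inter_iff, Z, Finset.coe_filter, Set.mem_ofPred_eq, Set.mem_prod, A]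
          constructor
          · rintro ⟨h1, h2⟩
            exact ⟨(mem_desc b hb _ _ _).2 h1.1, h1, h2⟩
          · rintro ⟨-, h1, h2⟩
            exact ⟨h1, h2⟩
        rw [e, Set.ncard_coe_finset] at hx1
        refine le_trans ?_ hx1
        nlinarith
      · rw [hXZ]
        exact not_lt.1 hx2
  have h1 := hgw i z
  have h2 : μ2.real (Rel b K R c m i z) ≤ μ2.real (U b K R (c / 2) (2 * C0 / c) m i z)
      + μ2.real {x | 2 * C0 / c * (m ^ i) ^ 2 < X x} :=
    (measureReal_mono hsub (measure_ne_top _ _)).trans (measureReal_union_le _ _)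
  have h3 : c ≤ μ2.real (Rel b K R c m i z) := h1
  linarith

end Pool.Agent.H954.TR
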