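import Pool.Agent.H954.TR.Prob

set_option autoImplicit false

/-! # The zero-one argument -/

namespace Pool.Agent.H954.TR

open MeasureTheory ProbabilityTheory Finset Filter
open scoped ENNReal NNReal
open Pool.Agent.Helper98K9.CP Pool.Agent.Helper98K9.CP.GwL Pool.Agent.Helper98K9.CP.TreeL
open Pool.Agent.Helper98K9.CP.CanL (lv rt lk lk_card)
open Pool.Agent.Helper56K9.CP (meas_sh meas_Rs meas_col ColE)

section

variable {b K R : ℕ} {p : ℝ≥0} {hp : p ≤ 1} {a c C m : ℝ} {M : ℕ}

/-! ## measurability -/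

theorem meas_Un (hb : 2 ≤ b) (n : ℕ) (h h' : ℤ) :
    Measurable fun ω : Cf => (sh h ω, sh h' ω) ∈ Un b K R c C m M n := by
  have h1 := (nice_U hb K R c C m (rt K M n) (M * n)).1
  have h2 : Measurable fun ω : Cf => (sh h ω, sh h' ω) := (meas_sh h).prodMk (meas_sh h')
  exact measurableSet_setOfPred.1 (h2 h1)

theorem meas_Gn (hb : 2 ≤ b) (n : ℕ) (h : ℤ) :
    Measurable fun ω : Cf => sh h ω ∈ Gn b K R p hp a c C m M n := by
  have h1 := (ngood p hp a _ _ (nice_U hb K R c C m (rt K M n) (M * n))).1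
  exact measurableSet_setOfPred.1 (meas_sh h h1)

theorem meas_EvA (hb : 2 ≤ b) (j n : ℕ) : MeasurableSet (EvA b K R p hp a c C m M j n) := by
  refine measurableSet_setOfPred.2 ?_
  refine Measurable.forall fun β => Measurable.imp measurable_const ?_
  refine Measurable.forall fun q => Measurable.imp measurable_const ?_
  refine Measurable.forall fun q' => Measurable.imp measurable_const ?_
  refine Measurable.imp measurable_const ?_
  refine Measurable.imp (meas_Gn hb n _) (Measurable.imp (meas_Gn hb n _) ?_)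
  refine Measurable.forall fun x => Measurable.imp measurable_const ?_
  refine Measurable.exists fun y => Measurable.and measurable_const ?_
  refine Measurable.and measurable_const (Measurable.and measurable_const ?_)
  exact (meas_Un hb n _ _).and (meas_Un hb n _ _)

theorem meas_Lk (C' B : ℝ) (i : ℕ) (z : Vt) (h h' : ℤ) (S : Finset Vt) :
    Measurable fun ω : Cf => Lk b K R C' B i z ω h h' S := by
  refine Measurable.and ?_ (Measurable.and measurable_const measurable_const)
  refine Measurable.forall fun w => Measurable.imp measurable_const ?_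
  refine Measurable.and ?_ (Measurable.and ?_ ?_)
  · exact measurableSet_setOfPred.1 (meas_sh h (meas_Rs meas b K R i z w))
  · exact measurableSet_setOfPred.1 (meas_sh h' (meas_Rs meas b K R i z w))
  · exact measurableSet_setOfPred.1 (meas_col w h h')

theorem meas_EvC (hb : 2 ≤ b) (j n : ℕ) : MeasurableSet (EvC b K R p c C m M j n) := by
  refine measurableSet_setOfPred.2 ?_
  refine Measurable.forall fun q => Measurable.imp measurable_const ?_
  refine Measurable.forall fun q' => Measurable.imp measurable_const ?_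
  refine Measurable.imp measurable_const (Measurable.imp measurable_const ?_)
  refine Measurable.imp (meas_Un hb n _ _) ?_
  exact Measurable.exists fun S => meas_Lk _ _ _ _ _ _ S

theorem meas_EvL (hb : 2 ≤ b) (j n : ℕ) : MeasurableSet (EvL b K R p hp a c C m M j n) := by
  refine measurableSet_setOfPred.2 ?_
  refine Measurable.forall fun x => Measurable.imp measurable_const ?_
  refine Measurable.exists fun y => Measurable.and measurable_const ?_
  refine Measurable.and (Measurable.and (meas_Gn hb n _) (meas_Gn hb (n + 1) _)) ?_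
  exact measurableSet_setOfPred.1 (meas_sh _ (Pool.Agent.Helper56K9.CP.meas_allopen Ed _))

theorem meas_Su (hb : 2 ≤ b) (j0 : ℕ) : MeasurableSet (Su b K R p hp a c C m M j0) := by
  refine measurableSet_setOfPred.2 ?_
  refine Measurable.and ?_ (Measurable.and ?_ ?_)
  · have := meas_Gn (K := K) (R := R) (p := p) (hp := hp) (a := a) (c := c) (C := C) (m := m)
      (M := M) hb (512 ^ j0) 0
    have h2 : ∀ ω : Cf, sh 0 ω = ω := by
      intro ω
      unfold sh
      simp
    simpa only [h2] using this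
  · exact measurableSet_setOfPred.1 (MeasL.meas_bit _)
  · refine Measurable.forall fun j => Measurable.imp measurable_const ?_
    refine Measurable.forall fun n => Measurable.imp measurable_const
      (Measurable.imp measurable_const ?_)
    exact Measurable.and (measurableSet_setOfPred.1 (meas_EvA hb j n))
      (Measurable.and (measurableSet_setOfPred.1 (meas_EvC hb j n))
        (measurableSet_setOfPred.1 (meas_EvL hb j n)))

/-! ## dependence -/

/-- the edges which are not below the spine vertex of level `N` -/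
def Out (b N : ℕ) : Set Ed := {e | ¬ ∃ i, (par b)^[i] e.1.1 = ((N : ℤ), 0)}

theorem out_root (hb : 2 ≤ b) {n0 n : ℕ} (hn : n0 ≤ n) {x : Vt} {j : ℕ}
    (h : (par b)^[j] x = rt K M n) : ¬ ∃ i, (par b)^[i] x = (((lv K M n0 : ℕ) : ℤ), 0) := by
  rintro ⟨i, hi⟩
  rw [TreeL.par_iter] at h hi
  have a1 := congrArg Prod.fst h
  have a2 := congrArg Prod.snd h
  have b1 := congrArg Prod.fst hi
  have b2 := congrArg Prod.snd hi
  simp only [rt] at a1 a2 b1 b2
  have hlv := lv_mono (K := K) (M := M) hn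
  have hij : i ≤ j := by omega
  have h1 : x.2 / b ^ j ≤ x.2 / b ^ i :=
    Nat.div_le_div_left (Nat.pow_le_pow_right (by omega) hij) (by positivity)
  omega

theorem out_link (hb : 2 ≤ b) {n0 n : ℕ} (hn : n0 ≤ n) {e : Ed} (he : e ∈ lk K M n) :
    ¬ ∃ i, (par b)^[i] e.1.1 = (((lv K M n0 : ℕ) : ℤ), 0) := by
  rcases (mem_lk he).2.2 with h | h | ⟨k, hk, _, h⟩
  · exact out_root (j := 0) hb hn h
  · exact out_root (j := 0) hb (hn.trans (Nat.le_succ n)) h
  · rintro ⟨i, hi⟩
    rw [h, TreeL.par_iter] at hi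
    have b1 := congrArg Prod.fst hi
    simp only at b1
    have hlv := lv_mono (K := K) (M := M) hn
    omega

theorem dep_Su (hb : 2 ≤ b) (j0 : ℕ) :
    Dep (Out b (lv K M (512 ^ j0))) (Su b K R p hp a c C m M j0) := by
  intro ω ω' hag hω
  set n0 := 512 ^ j0 with hn0
  set N := lv K M n0 with hN
  have sag : ∀ n, n0 ≤ n → ∀ h : ℤ, ∀ e ∈ dsl b R (rt K M n), sh h ω e = sh h ω' e := by
    rintro n hn h e ⟨_, j, hj, _⟩
    exact hag ((e.1.1, e.1.2 + h), e.2) (out_root hb hn hj)
  have hG : ∀ n, n0 ≤ n → ∀ h : ℤ, sh h ω ∈ Gn b K R p hp a c C m M n ↔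
      sh h ω' ∈ Gn b K R p hp a c C m M n := by
    intro n hn h
    have h1 := (ngood p hp a _ _ (nice_U hb K R c C m (rt K M n) (M * n))).2.2
    exact ⟨h1 _ _ (sag n hn h), h1 _ _ fun e he => (sag n hn h e he).symm⟩
  have hU : ∀ n, n0 ≤ n → ∀ h h' : ℤ, (sh h ω, sh h' ω) ∈ Un b K R c C m M n ↔
      (sh h ω', sh h' ω') ∈ Un b K R c C m M n := by
    intro n hn h h'
    have h1 := (nice_U hb K R c C m (rt K M n) (M * n)).2.2.2
    exact ⟨h1 _ _ _ _ (sag n hn h) (sag n hn h'),
      h1 _ _ _ _ (fun e he => (sag n hn h e he).symm) (fun e he => (sag n hn h' e he).symm)⟩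
  have hL : ∀ n, n0 ≤ n → ∀ (C' B : ℝ) (h h' : ℤ) (S : Finset Vt),
      Lk b K R C' B (M * n) (rt K M n) ω h h' S → Lk b K R C' B (M * n) (rt K M n) ω' h h' S := by
    rintro n hn C' B h h' S ⟨h1, h2, h3⟩
    refine ⟨fun w hw => ?_, h2, h3⟩
    obtain ⟨g1, g2, g3⟩ := h1 w hw
    refine ⟨NiceL.Rs_dsl (fun e he h4 => by rw [← sag n hn h e he]; exact h4) g1,
      NiceL.Rs_dsl (fun e he h4 => by rw [← sag n hn h' e he]; exact h4) g2, ?_⟩
    intro t ht ht'
    rw [← hag ((w, t), true) (out_root hb hn g1.1)]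
    exact g3 t ht ht'
  have hlk : ∀ n, n0 ≤ n → ∀ h : ℤ, ∀ e ∈ lk K M n, sh h ω e = sh h ω' e := by
    intro n hn h e he
    have h1 := out_link (K := K) (M := M) hb hn he
    exact hag ((e.1.1, e.1.2 + h), e.2) h1
  obtain ⟨h1, h2, h3⟩ := hω
  have h00 : ∀ ω : Cf, sh 0 ω = ω := by
    intro ω
    unfold sh
    simp
  refine ⟨?_, ?_, fun j hj n hn hn' => ?_⟩
  · have := hG n0 le_rfl 0
    rw [h00, h00] at this
    exact this.1 h1
  · rw [← hag ((rt K M n0, 0), false) (out_root (j := 0) hb le_rfl rfl)]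
    exact h2
  · have hnn : n0 ≤ n := by
      refine le_trans ?_ hn
      rw [hn0]
      exact Nat.pow_le_pow_right (by norm_num) hj
    obtain ⟨g1, g2, g3⟩ := h3 j hj n hn hn'
    refine ⟨?_, ?_, ?_⟩
    · intro β hβ q hq1 q' hq1' hne hqG hqG' x hx
      obtain ⟨y, hy, hy1, hy2, hy3, hy4⟩ := g1 β hβ q hq1 q' hq1' hne ((hG n hnn _).2 hqG)
        ((hG n hnn _).2 hqG') x hx
      exact ⟨y, hy, hy1, hy2, (hU n hnn _ _).1 hy3, (hU n hnn _ _).1 hy4⟩
    · intro q hq1 q' hq1' hlt hlt' hUU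
      obtain ⟨S, hS⟩ := g2 q hq1 q' hq1' hlt hlt' ((hU n hnn _ _).2 hUU)
      exact ⟨S, hL n hnn _ _ _ _ S hS⟩
    · intro x hx
      obtain ⟨y, hy, hy2⟩ := g3 x hx
      refine ⟨y, hy, ⟨(hG n hnn _).1 hy2.1.1, (hG (n + 1) (by omega) _).1 hy2.1.2⟩, ?_⟩
      intro e he
      rw [← hlk n hnn _ e he]
      exact hy2.2 e he

end

/-! ## the strip -/

/-- descendants of the spine vertex of level `N` in the canopy tree -/
def BN (b N : ℕ) : Set Vt := {u | 0 ≤ u.1 ∧ ∃ i, (par b)^[i] u = ((N : ℤ), 0)}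

theorem BN_finite {b : ℕ} (hb : 2 ≤ b) (N : ℕ) : (BN b N).Finite := by
  refine Set.Finite.subset (Set.Finite.biUnion (Set.finite_Iic N)
    fun j _ => Pool.Agent.Helper56K9.CP.desc_finite (by omega : 1 ≤ b) j ((N : ℤ), 0)) ?_
  rintro u ⟨h0, i, hi⟩
  refine Set.mem_biUnion (x := i) ?_ hi
  rw [TreeL.par_iter] at hi
  have := congrArg Prod.fst hi
  simp only at this
  show i ≤ N
  omega

theorem mem_BN {b : ℕ} (hb : 2 ≤ b) {u : Vt} (h0 : 0 ≤ u.1) {N : ℕ} (hN : u.1.toNat + u.2 ≤ N) :
    u ∈ BN b N := by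
  refine ⟨h0, N - u.1.toNat, ?_⟩
  rw [TreeL.par_iter]
  have h2 : u.2 / b ^ (N - u.1.toNat) = 0 := by
    rw [Nat.div_eq_of_lt]
    calc u.2 < 2 ^ u.2 := Nat.lt_two_pow_self
      _ ≤ b ^ u.2 := Nat.pow_le_pow_left hb _
      _ ≤ b ^ (N - u.1.toNat) := Nat.pow_le_pow_right (by omega) (by omega)
  rw [h2]
  ext1
  · simp only
    omega
  · rfl

/-- exit of the strip at the height `h` -/
def Rg (b N : ℕ) (x : Vx) (h : ℤ) : Set Cf :=
  {ω | Cn b ω {y : Vx | y.1 ∈ BN b N} x (((N : ℤ), 0), h) ∧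
    ω ((((N : ℤ), 0), h), false) = true}

theorem meas_Rg (b N : ℕ) (x : Vx) (h : ℤ) : MeasurableSet (Rg b N x h) :=
  (meas b _ _ _).1.inter (MeasL.meas_bit _)

theorem dep_Rg (b N : ℕ) (x : Vx) (h : ℤ) : Dep (Out b N)ᶜ (Rg b N x h) := by
  intro ω ω' hag ⟨h1, h2⟩
  refine ⟨(Cn.congr fun e he => hag e ?_).1 h1, ?_⟩
  · simp only [Out, Set.mem_compl_iff, Set.mem_ofPred_eq, not_not]
    exact he.1.2
  · rw [← hag _ ?_]
    · exact h2
    · simp only [Out, Set.mem_compl_iff, Set.mem_ofPred_eq, not_not]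
      exact ⟨0, rfl⟩

/-- an infinite cluster leaves the strip through the spine -/
theorem exit {b N : ℕ} {x : Vx} {ω : Cf} (hx : x.1 ∈ BN b N)
    (hinf : (cl b ω WC x).Infinite) (hfin : ¬ (cl b ω {y : Vx | y.1 ∈ BN b N} x).Infinite) :
    ∃ h, ω ∈ Rg b N x h := by
  by_contra hno
  push Not at hno
  apply hfin
  refine hinf.mono ?_
  intro y hy
  have hy' : Relation.ReflTransGen (og b ω WC).Adj x y :=
    (SimpleGraph.reachable_iff_reflTransGen _ _).1 hy
  clear hy
  induction hy' with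
  | refl => exact Cn.refl _ _ _
  | tail _ h2 ih =>
    rename_i y w _
    have hyW : y.1 ∈ BN b N := by
      have := mem_of_Cn (W := {y : Vx | y.1 ∈ BN b N}) hx ih
      exact this
    obtain ⟨h0, hy1, hw1, c', h3⟩ := h2
    have key : w.1 ∈ BN b N → y ∈ cl b ω {y : Vx | y.1 ∈ BN b N} x →
        w ∈ cl b ω {y : Vx | y.1 ∈ BN b N} x := by
      intro hw hy
      refine Cn.trans hy (SimpleGraph.Adj.reachable ?_)
      exact ⟨h0, hyW, hw, c', h3⟩
    rcases h3 with ⟨h3, h4⟩ | ⟨h3, h4⟩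
    · cases c' with
      | true =>
        refine key ?_ ih
        have : w.1 = y.1 := by rw [← h3]; simp [hd]
        rw [this]; exact hyW
      | false =>
        have hw : w.1 = par b y.1 := by rw [← h3]; simp [hd]
        by_cases hwB : w.1 ∈ BN b N
        · exact key hwB ih
        · exfalso
          obtain ⟨hy0, i, hi⟩ := hyW
          cases i with
          | zero =>
            have hyv : y = (((N : ℤ), 0), y.2) := by
              ext1
              · exact hi
              · rfl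
            refine hno y.2 ⟨?_, ?_⟩
            · rw [← hyv]; exact ih
            · rw [← hyv]; exact h4
          | succ i =>
            apply hwB
            rw [hw]
            refine ⟨?_, i, hi⟩
            unfold par
            simp only
            omega
    · cases c' with
      | true =>
        refine key ?_ ih
        have : y.1 = w.1 := by rw [← h3]; simp [hd]
        rw [← this]; exact hyW
      | false =>
        refine key ?_ ih
        have hw : y.1 = par b w.1 := by rw [← h3]; simp [hd]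
        obtain ⟨hy0, i, hi⟩ := hyW
        refine ⟨hw1, i + 1, ?_⟩
        rw [Function.iterate_succ_apply, ← hw]
        exact hi

/-- exit when all edges are open -/
theorem exit_one {b N : ℕ} {x : Vx} {ω : Cf} (hx : x.1 ∈ BN b N) (hω : ∀ e, ω e = true) :
    ω ∈ Rg b N x x.2 := by
  obtain ⟨h0, i, hi⟩ := hx
  have key : ∀ t ≤ i, Cn b ω {y : Vx | y.1 ∈ BN b N} x ((par b)^[t] x.1, x.2) := by
    intro t
    induction t with
    | zero => intro _; exact Cn.refl _ _ _
    | succ t ih =>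
      intro ht
      refine (ih (by omega)).trans ?_
      have hmem : ∀ s ≤ i, (par b)^[s] x.1 ∈ BN b N := by
        intro s hs
        refine ⟨?_, i - s, ?_⟩
        · rw [TreeL.par_iter]
          simp only
          omega
        · rw [← Function.iterate_add_apply]
          have : i - s + s = i := by omega
          rw [this]; exact hi
      have h1 : ((((par b)^[t] x.1, x.2), false) : Ed) ∈ edg b {y : Vx | y.1 ∈ BN b N} := by
        refine ⟨hmem t (by omega), ?_⟩
        show (hd b (((par b)^[t] x.1, x.2), false)).1 ∈ BN b N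
        simp only [hd, Bool.false_eq_true, if_false]
        have := hmem (t + 1) ht
        rwa [Function.iterate_succ_apply'] at this
      have h2 := Cn.edge h1 (hω _)
      rw [Function.iterate_succ_apply']
      simpa [hd] using h2
  have h1 := key i le_rfl
  rw [hi] at h1
  exact ⟨h1, hω _⟩

theorem ae_exit {b : ℕ} (p : ℝ≥0) (hp : p ≤ 1) {N : ℕ} {x : Vx} (hb : 2 ≤ b)
    (hx : x.1 ∈ BN b N) :
    ∀ᵐ ω ∂(PP Ed p hp), (cl b ω WC x).Infinite → ∃ h, ω ∈ Rg b N x h := by
  rcases eq_or_lt_of_le hp with h1 | h1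
  · subst h1
    filter_upwards [Pool.Agent.Helper56K9.CP.ae_open] with ω hω _
    exact ⟨_, exit_one hx hω⟩
  · have h2 := Pool.Agent.Helper80K9.CP.strip ind b p hp h1 (BN b N) (BN_finite hb N) x
    have h3 : ∀ᵐ ω ∂(PP Ed p hp), ¬ (cl b ω {y : Vx | y.1 ∈ BN b N} x).Infinite := by
      rw [ae_iff]
      simp only [not_not]
      rw [Measure.real, ENNReal.toReal_eq_zero_iff] at h2
      rcases h2 with h2 | h2
      · exact h2
      · exact absurd h2 (measure_ne_top _ _)
    filter_upwards [h3] with ω hω hinf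
    exact exit hx hinf hω

/-- **zero-one argument**: if the success event `S j0` at level `N j0` has probability at least
`c1`, then almost every infinite cluster has a successful exit -/
theorem zero_one {b : ℕ} (hb : 2 ≤ b) (p : ℝ≥0) (hp : p ≤ 1) (x : Vx) (hx : x ∈ WC) (c1 : ℝ)
    (hc1 : 0 < c1) (J : ℕ) (N : ℕ → ℕ) (hN : ∀ j, j ≤ N j) (S : ℕ → Set Cf)
    (hSm : ∀ j, MeasurableSet (S j)) (hSd : ∀ j, Dep (Out b (N j)) (S j))
    (hSp : ∀ j, J ≤ j → c1 ≤ (PP Ed p hp).real (S j)) :
    ∀ᵐ ω ∂(PP Ed p hp), (cl b ω WC x).Infinite →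
      ∃ j, J ≤ j ∧ x.1 ∈ BN b (N j) ∧ ∃ h, ω ∈ Rg b (N j) x h ∧ sh h ω ∈ S j := by
  classical
  set I : Set Cf := {ω | (cl b ω WC x).Infinite} with hI
  set T : Set Cf := ⋃ j : ℕ, ⋃ _ : J ≤ j ∧ x.1 ∈ BN b (N j), ⋃ h : ℤ,
    (Rg b (N j) x h ∩ (sh h) ⁻¹' (S j)) with hT
  have hIm : MeasurableSet I := (meas b WC x x).2
  have hTm : MeasurableSet T := MeasurableSet.iUnion fun j => MeasurableSet.iUnion fun _ =>
    MeasurableSet.iUnion fun h => (meas_Rg b (N j) x h).inter (meas_sh h (hSm j))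
  set A : Set Cf := I \ T with hA
  have hAm : MeasurableSet A := hIm.diff hTm
  set μ := PP Ed p hp with hμ
  have key : ∀ ε : ℝ, 0 < ε → c1 * (μ.real A - ε) ≤ ε := by
    intro ε hε
    obtain ⟨D, A', hDA, hAm', hA1, hA2⟩ := apx Ed p hp A hAm ε hε
    -- choose the level
    obtain ⟨r, hr1, hr2, hr3⟩ : ∃ r : ℕ, J ≤ r ∧ x.1.1.toNat + x.1.2 ≤ r ∧
        ∀ e ∈ D, e.1.1.1.natAbs + e.1.1.2 ≤ r := by
      refine ⟨max J (max (x.1.1.toNat + x.1.2) (D.sup fun e => e.1.1.1.natAbs + e.1.1.2)),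
        le_max_left _ _, (le_max_left _ _).trans (le_max_right _ _), fun e he => ?_⟩
      exact (Finset.le_sup (f := fun e : Ed => e.1.1.1.natAbs + e.1.1.2) he).trans
        ((le_max_right _ _).trans (le_max_right _ _))
    have hNr := hN r
    have hxB : x.1 ∈ BN b (N r) := mem_BN hb hx (hr2.trans hNr)
    have hDin : ∀ e ∈ D, e ∈ (Out b (N r))ᶜ := by
      intro e he
      have h1 := hr3 e he
      simp only [Out, Set.mem_compl_iff, Set.mem_ofPred_eq, not_not]
      refine ⟨((N r : ℤ) - e.1.1.1).toNat, ?_⟩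
      rw [TreeL.par_iter]
      have h2 : e.1.1.2 / b ^ ((N r : ℤ) - e.1.1.1).toNat = 0 := by
        rw [Nat.div_eq_of_lt]
        calc e.1.1.2 < 2 ^ e.1.1.2 := Nat.lt_two_pow_self
          _ ≤ b ^ e.1.1.2 := Nat.pow_le_pow_left hb _
          _ ≤ b ^ ((N r : ℤ) - e.1.1.1).toNat := Nat.pow_le_pow_right (by omega) (by omega)
      rw [h2]
      ext1
      · simp only
        omega
      · rfl
    have hAd : Dep (Out b (N r))ᶜ A' := fun ω ω' h => hDA ω ω' fun e he => h e (hDin e he)
    -- enumeration of the heights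
    let en : ℕ → ℤ := fun k => (Equiv.intEquivNat.symm k)
    let Rk : ℕ → Set Cf := fun k => A' ∩ Rg b (N r) x (en k)
    let Rd : ℕ → Set Cf := disjointed Rk
    have hRkm : ∀ k, MeasurableSet (Rk k) := fun k => hAm'.inter (meas_Rg _ _ _ _)
    have hRdm : ∀ k, MeasurableSet (Rd k) := fun k => MeasurableSet.disjointed hRkm k
    have hRkd : ∀ k, Dep (Out b (N r))ᶜ (Rk k) := fun k ω ω' h h' =>
      ⟨hAd ω ω' h h'.1, dep_Rg _ _ _ _ ω ω' h h'.2⟩
    have hRdd : ∀ k, Dep (Out b (N r))ᶜ (Rd k) := by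
      intro k ω ω' h h'
      have h1 : Rd k = Rk k \ ⋃ l : ℕ, ⋃ _ : l < k, Rk l := by
        show disjointed Rk k = _
        rw [disjointed_apply]
        congr 1
        ext ω
        simp
      rw [h1] at h' ⊢
      refine ⟨hRkd k ω ω' h h'.1, fun hcon => h'.2 ?_⟩
      simp only [Set.mem_iUnion] at hcon ⊢
      obtain ⟨l, hl, h2⟩ := hcon
      exact ⟨l, hl, hRkd l ω' ω (fun e he => (h e he).symm) h2⟩
    let Sk : ℕ → Set Cf := fun k => (sh (en k)) ⁻¹' (S r)
    have hSkm : ∀ k, MeasurableSet (Sk k) := fun k => meas_sh _ (hSm r)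
    have hSkd : ∀ k, Dep (Out b (N r)) (Sk k) := by
      intro k ω ω' h h'
      refine hSd r (sh (en k) ω) (sh (en k) ω') (fun e he => ?_) h'
      exact h ((e.1.1, e.1.2 + en k), e.2) he
    have hSkp : ∀ k, c1 ≤ μ.real (Sk k) := by
      intro k
      have h1 : μ.real (Sk k) = μ.real (S r) := by
        have hinj : Function.Injective (fun e : Ed => (((e.1.1, e.1.2 + en k), e.2) : Ed)) := by
          rintro ⟨⟨y, s⟩, c'⟩ ⟨⟨y', s'⟩, c''⟩ h1
          simp only [Prod.mk.injEq] at h1
          obtain ⟨⟨rfl, h2⟩, rfl⟩ := h1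
          have : s = s' := by linarith
          rw [this]
        have h2 := (reidx Ed Ed p hp _ hinj).measure_preimage (hSm r).nullMeasurableSet
        rw [Measure.real, Measure.real, ← h2]
        rfl
      rw [h1]
      exact hSp r hr1
    have hprod : ∀ k, c1 * μ.real (Rd k) ≤ μ.real (Rd k ∩ Sk k) := by
      intro k
      rw [hμ, ind Ed p hp _ _ _ _ (Set.disjoint_compl_left_iff_subset.2 (subset_refl _))
        (hRdd k) (hSkd k) (hRdm k) (hSkm k), mul_comm]
      exact mul_le_mul_of_nonneg_left (hSkp k) measureReal_nonneg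
    -- summation
    have hdisj : Pairwise (Function.onFun Disjoint Rd) := disjoint_disjointed Rk
    have hsum1 : μ (⋃ k, Rk k) = ∑' k, μ (Rd k) := by
      rw [← iUnion_disjointed (f := Rk)]
      exact measure_iUnion hdisj hRdm
    have hsum2 : μ (⋃ k, (Rd k ∩ Sk k)) = ∑' k, μ (Rd k ∩ Sk k) := by
      refine measure_iUnion ?_ fun k => (hRdm k).inter (hSkm k)
      intro k l hkl
      exact (hdisj hkl).mono Set.inter_subset_left Set.inter_subset_left
    have hcmp : ENNReal.ofReal c1 * μ (⋃ k, Rk k) ≤ μ (⋃ k, (Rd k ∩ Sk k)) := by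
      rw [hsum1, hsum2, ← ENNReal.tsum_mul_left]
      refine ENNReal.tsum_le_tsum fun k => ?_
      have h1 := hprod k
      rw [← ENNReal.ofReal_toReal (measure_ne_top μ (Rd k)),
        ← ENNReal.ofReal_toReal (measure_ne_top μ (Rd k ∩ Sk k)),
        ← ENNReal.ofReal_mul hc1.le]
      exact ENNReal.ofReal_le_ofReal h1
    have hcmp2 : c1 * μ.real (⋃ k, Rk k) ≤ μ.real (⋃ k, (Rd k ∩ Sk k)) := by
      have h1 := ENNReal.toReal_mono (measure_ne_top _ _) hcmp
      rw [ENNReal.toReal_mul, ENNReal.toReal_ofReal hc1.le] at h1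
      exact h1
    -- the successes are in `A' \ A`
    have hsub1 : (⋃ k, (Rd k ∩ Sk k)) ⊆ A' \ A := by
      intro ω hω
      rw [Set.mem_iUnion] at hω
      obtain ⟨k, h1, h2⟩ := hω
      have h3 : ω ∈ Rk k := disjointed_subset Rk k h1
      refine ⟨h3.1, fun h4 => h4.2 ?_⟩
      simp only [hT, Set.mem_iUnion]
      exact ⟨r, ⟨hr1, hxB⟩, en k, h3.2, h2⟩
    -- the exits
    have hsub2 : ∀ᵐ ω ∂μ, ω ∈ A ∩ A' → ω ∈ ⋃ k, Rk k := by
      filter_upwards [ae_exit p hp hb hxB] with ω hω hωA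
      obtain ⟨h, hh⟩ := hω hωA.1.1
      rw [Set.mem_iUnion]
      refine ⟨Equiv.intEquivNat h, hωA.2, ?_⟩
      simpa [en] using hh
    have h1 : μ.real (A ∩ A') ≤ μ.real (⋃ k, Rk k) := by
      refine ENNReal.toReal_mono (measure_ne_top _ _) (measure_mono_ae ?_)
      exact hsub2
    have h2 : μ.real A ≤ μ.real (A ∩ A') + μ.real (A \ A') := by
      have := measureReal_union_le (μ := μ) (A ∩ A') (A \ A')
      rwa [Set.inter_union_sdiff] at this
    have h3 : μ.real (⋃ k, (Rd k ∩ Sk k)) ≤ ε := (measureReal_mono hsub1).trans hA2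
    have h4 : c1 * (μ.real A - ε) ≤ c1 * μ.real (⋃ k, Rk k) :=
      mul_le_mul_of_nonneg_left (by linarith) hc1.le
    linarith
  have hA0 : μ.real A = 0 := by
    refine le_antisymm ?_ measureReal_nonneg
    by_contra hcon
    push Not at hcon
    have hk := key (c1 * μ.real A / (2 * (1 + c1))) (by positivity)
    have h1 : c1 * (μ.real A - c1 * μ.real A / (2 * (1 + c1))) - c1 * μ.real A / (2 * (1 + c1))
        = c1 * μ.real A / 2 := by
      field_simp
      ring
    have h2 : 0 < c1 * μ.real A / 2 := by positivity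
    linarith
  have hA1 : μ A = 0 := by
    rw [Measure.real, ENNReal.toReal_eq_zero_iff] at hA0
    rcases hA0 with h | h
    · exact h
    · exact absurd h (measure_ne_top _ _)
  have hA2 : ∀ᵐ ω ∂μ, ω ∉ A := by
    rw [ae_iff]
    simpa using hA1
  filter_upwards [hA2] with ω hω hinf
  by_contra hcon
  apply hω
  refine ⟨hinf, fun hT' => hcon ?_⟩
  simp only [hT, Set.mem_iUnion] at hT'
  obtain ⟨j, ⟨hj1, hj2⟩, h, h3, h4⟩ := hT'
  exact ⟨j, hj1, hj2, h, h3, h4⟩

end Pool.Agent.H954.TR
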